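import Pool.Agent.Run7.h430.TW.Kit

set_option autoImplicit false

/-!
Multiples and enlarged windows along almost all orbits of Euler's function: the form for sets of natural numbers (helper430).
-/

namespace Run7.h430.TW

open Finset Filter Topology Classical
open Pool.Agent.N733.TG (LM Expanding)
open Pool.Agent.N826.IT.Orb (AlmostAll)
open Pool.Agent.N760.IT (orb)

theorem kit_nat (P : Set ℕ) {f : ℕ → ℕ} (hf : LM f) {G : ℕ → ℝ} {d : ℝ}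
    (hG : Expanding G d) {s κ : ℝ} (hs : 0 ≤ s) (hκ : 0 ≤ κ) (h1 : d * s + κ < 1)
    (hP : ∀ ε : ℝ, 0 < ε → ∃ C : ℝ, ∀ X : ℕ, 1 ≤ X →
      (((Ioc 0 X).filter (fun t => t ∈ P)).card : ℝ) ≤ C * (X : ℝ) ^ (s + ε)) :
    ∃ K : ℕ → ℕ, Tendsto K atTop atTop ∧
      AlmostAll (fun m => ∀ k ≤ K m, ∀ a : ℕ, 1 ≤ a → a ≤ K m → ∀ n : ℕ, (n = 0 ∨ n ∈ P) →
        (K m : ℝ) * (orb f k m : ℝ) ^ κ < |(n : ℝ) - a * G (orb f k m)|) := by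
  refine kit {t : ℕ | t = 0 ∨ t ∈ P} (fun t : ℕ => (t : ℝ)) hf hG hs hκ h1 ?_
  intro ε hε
  obtain ⟨C, hC⟩ := hP ε hε
  refine ⟨|C| + 1, fun X hX => ?_⟩
  have hX1 : 1 ≤ ⌊X⌋₊ := Nat.le_floor (by exact_mod_cast hX)
  have hsub : {t : ℕ | t ∈ {t : ℕ | t = 0 ∨ t ∈ P} ∧ (t : ℝ) ≤ X} ⊆
      (((Ioc 0 ⌊X⌋₊).filter (fun t => t ∈ P) ∪ {0} : Finset ℕ) : Set ℕ) := by
    rintro t ⟨ht, htX⟩
    rw [coe_union, coe_singleton, Set.mem_union, Set.mem_singleton_iff]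
    rcases ht with h0 | hP
    · exact Or.inr h0
    · rcases Nat.eq_zero_or_pos t with h0 | h0
      · exact Or.inr h0
      · left
        rw [mem_coe, mem_filter, mem_Ioc]
        exact ⟨⟨h0, Nat.le_floor htX⟩, hP⟩
  refine ⟨(finite_toSet _).subset hsub, ?_⟩
  have h2 : {t : ℕ | t ∈ {t : ℕ | t = 0 ∨ t ∈ P} ∧ (t : ℝ) ≤ X}.ncard ≤
      ((Ioc 0 ⌊X⌋₊).filter (fun t => t ∈ P)).card + 1 := by
    calc _ ≤ (((Ioc 0 ⌊X⌋₊).filter (fun t => t ∈ P) ∪ {0} : Finset ℕ) : Set ℕ).ncard :=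
          Set.ncard_le_ncard hsub (finite_toSet _)
      _ = ((Ioc 0 ⌊X⌋₊).filter (fun t => t ∈ P) ∪ {0}).card := Set.ncard_coe_finset _
      _ ≤ _ := (card_union_le _ _).trans (by rw [card_singleton])
  have h3 := hC ⌊X⌋₊ hX1
  have h4 : ((⌊X⌋₊ : ℕ) : ℝ) ^ (s + ε) ≤ X ^ (s + ε) :=
    Real.rpow_le_rpow (Nat.cast_nonneg _) (Nat.floor_le (by linarith)) (by linarith)
  have h5 : (1 : ℝ) ≤ X ^ (s + ε) := Real.one_le_rpow hX (by linarith)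
  calc _ ≤ (((Ioc 0 ⌊X⌋₊).filter (fun t => t ∈ P)).card : ℝ) + 1 := by exact_mod_cast h2
    _ ≤ C * ((⌊X⌋₊ : ℕ) : ℝ) ^ (s + ε) + 1 := by linarith
    _ ≤ |C| * X ^ (s + ε) + 1 * X ^ (s + ε) := by
        have : C * ((⌊X⌋₊ : ℕ) : ℝ) ^ (s + ε) ≤ |C| * X ^ (s + ε) :=
          mul_le_mul (le_abs_self C) h4 (by positivity) (abs_nonneg C)
        linarith
    _ = (|C| + 1) * X ^ (s + ε) := by ring

end Run7.h430.TW
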