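import Pool.Agent.Run7.h430.TW.Slow
import Pool.Agent.N375.MV.Unif

set_option autoImplicit false

/-!
Almost all orbits of Euler's function and sets with a power saving (helper430): uniformity in the sets. The counts of
`N760/IT/B` are uniform in the set; here this is carried through to the number `K(m)` of the iterates.
-/

namespace Run7.h430.TW

open Finset Filter Topology
open Pool.Agent.N733.TG (LM Expanding NearG)
open Pool.Agent.N826.IT.Orb (AlmostAll card_mono')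
open Pool.Agent.N760.IT (orb Few densW)

open Classical in
/-- `P i m` holds for almost all `m`, uniformly in `i` -/
def UnifAA {ι : Type*} (P : ι → ℕ → Prop) : Prop :=
  ∀ δ : ℝ, 0 < δ → ∃ N₀ : ℕ, ∀ N : ℕ, N₀ ≤ N → ∀ i : ι, (((Icc 1 N).filter (fun m => ¬ P i m)).card : ℝ) ≤ δ * N

theorem UnifAA.mono {ι : Type*} {P Q : ι → ℕ → Prop} (hP : UnifAA P) (h : ∀ i m, P i m → Q i m) : UnifAA Q := by
  classical
  intro δ hδ
  obtain ⟨N₀, h0⟩ := hP δ hδ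
  refine ⟨N₀, fun N hN i => le_trans (Nat.cast_le.2 (card_mono' ?_)) (h0 N hN i)⟩
  intro m hm h1
  exact hm (h i m h1)

theorem UnifAA.and {ι : Type*} {P Q : ι → ℕ → Prop} (hP : UnifAA P) (hQ : UnifAA Q) :
    UnifAA (fun i m => P i m ∧ Q i m) := by
  classical
  intro δ hδ
  obtain ⟨N₁, h₁⟩ := hP (δ / 2) (by positivity)
  obtain ⟨N₂, h₂⟩ := hQ (δ / 2) (by positivity)
  refine ⟨max N₁ N₂, fun N hN i => ?_⟩
  have b1 := h₁ N (le_trans (le_max_left _ _) hN) i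
  have b2 := h₂ N (le_trans (le_max_right _ _) hN) i
  have hsub : (Icc 1 N).filter (fun m => ¬ (P i m ∧ Q i m)) ⊆
      (Icc 1 N).filter (fun m => ¬ P i m) ∪ (Icc 1 N).filter (fun m => ¬ Q i m) := by
    intro m hm
    rw [mem_filter] at hm
    rw [mem_union, mem_filter, mem_filter]
    by_cases h3 : P i m
    · exact Or.inr ⟨hm.1, fun h4 => hm.2 ⟨h3, h4⟩⟩
    · exact Or.inl ⟨hm.1, h3⟩
  have h3 : (((Icc 1 N).filter (fun m => ¬ (P i m ∧ Q i m))).card : ℝ) ≤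
      ((Icc 1 N).filter (fun m => ¬ P i m)).card + ((Icc 1 N).filter (fun m => ¬ Q i m)).card := by
    exact_mod_cast (card_le_card hsub).trans (card_union_le _ _)
  have h4 : (((Icc 1 N).filter (fun m => ¬ (P i m ∧ Q i m))).card : ℝ) ≤ δ * N :=
    (h3.trans (add_le_add b1 b2)).trans (le_of_eq (by ring))
  exact le_trans (Nat.cast_le.2 (card_mono' fun m hm => hm)) h4

theorem UnifAA.ge {ι : Type*} {P : ι → ℕ → Prop} (M : ℕ) (h : ∀ i m, M ≤ m → P i m) : UnifAA P := by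
  classical
  intro δ hδ
  obtain ⟨N₀, hN₀⟩ := exists_nat_ge ((M : ℝ) / δ)
  refine ⟨N₀, fun N hN i => ?_⟩
  have h1 : ((Icc 1 N).filter (fun m => ¬ P i m)).card ≤ M := by
    calc ((Icc 1 N).filter (fun m => ¬ P i m)).card ≤ (range M).card := card_le_card (fun m hm => by
          rw [mem_range]
          by_contra hcon
          exact (mem_filter.1 hm).2 (h i m (not_lt.1 hcon)))
      _ = M := card_range M
  have h2 : (N₀ : ℝ) ≤ N := by exact_mod_cast hN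
  rw [div_le_iff₀ hδ] at hN₀
  have h3 : (((Icc 1 N).filter (fun m => ¬ P i m)).card : ℝ) ≤ M := by exact_mod_cast h1
  nlinarith

theorem UnifAA.finset {ι β : Type*} (s : Finset β) {P : β → ι → ℕ → Prop} (h : ∀ b ∈ s, UnifAA (P b)) :
    UnifAA (fun i m => ∀ b ∈ s, P b i m) := by
  classical
  induction s using Finset.induction_on with
  | empty => exact UnifAA.ge 0 (fun i m _ b hb => absurd hb (notMem_empty b))
  | insert b s _ ih =>
    refine UnifAA.mono (UnifAA.and (h b (mem_insert_self b s))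
      (ih (fun j hj => h j (mem_insert_of_mem hj)))) (fun i m hm j hj => ?_)
    rcases mem_insert.1 hj with rfl | hj
    · exact hm.1
    · exact hm.2 j hj

/-- diagonal argument, uniform in `i` -/
theorem UnifAA.diagonal {ι : Type*} {P : ι → ℕ → ℕ → Prop} (hmono : ∀ i a b m, a ≤ b → P i b m → P i a m)
    (h : ∀ j, UnifAA (fun i m => P i j m)) :
    ∃ κ : ℕ → ℕ, Tendsto κ atTop atTop ∧ UnifAA (fun i m => P i (κ m) m) := by
  classical
  have h1 : ∀ j : ℕ, ∃ N₀ : ℕ, ∀ N : ℕ, N₀ ≤ N → ∀ i,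
      (((Icc 1 N).filter (fun m => ¬ P i j m)).card : ℝ) ≤ 1 / ((j : ℝ) + 1) * N := by
    intro j
    obtain ⟨N₀, hN₀⟩ := h j (1 / ((j : ℝ) + 1)) (by positivity)
    exact ⟨N₀, fun N hN i => le_trans (Nat.cast_le.2 (card_mono' fun m hm => hm)) (hN₀ N hN i)⟩
  choose A hA using h1
  set κ : ℕ → ℕ := fun m => Nat.findGreatest (fun j => A j ≤ m) m with hκ
  have hκmono : Monotone κ := by
    intro m n hmn
    rw [hκ]
    simp only
    exact Nat.findGreatest_mono (fun j hj => le_trans hj hmn) hmn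
  have hκge : ∀ j : ℕ, ∀ m, max (A j) j ≤ m → j ≤ κ m := by
    intro j m hm
    rw [hκ]
    simp only
    exact Nat.le_findGreatest (le_trans (le_max_right _ _) hm) (le_trans (le_max_left _ _) hm)
  have hκt : Tendsto κ atTop atTop := by
    rw [tendsto_atTop_atTop]
    intro j
    exact ⟨max (A j) j, fun m hm => hκge j m hm⟩
  refine ⟨κ, hκt, ?_⟩
  intro ε hε
  obtain ⟨j, hj⟩ := exists_nat_gt (1 / ε)
  refine ⟨max (max (A (j + 1)) (j + 1)) 1, fun N hN i => ?_⟩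
  have b1 : j + 1 ≤ κ N := hκge (j + 1) N (le_trans (le_max_left _ _) hN)
  have b2 : A (κ N) ≤ N := by
    have h3 : κ N ≠ 0 := by omega
    exact Nat.findGreatest_of_ne_zero (P := fun j => A j ≤ N) (n := N) rfl h3
  have h4 := hA (κ N) N b2 i
  have hsub : (Icc 1 N).filter (fun m => ¬ P i (κ m) m) ⊆ (Icc 1 N).filter (fun m => ¬ P i (κ N) m) := by
    intro m hm
    rw [mem_filter, mem_Icc] at hm
    rw [mem_filter, mem_Icc]
    exact ⟨hm.1, fun h5 => hm.2 (hmono _ _ _ m (hκmono hm.1.2) h5)⟩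
  have h5 : (((Icc 1 N).filter (fun m => ¬ P i (κ m) m)).card : ℝ) ≤
      (((Icc 1 N).filter (fun m => ¬ P i (κ N) m)).card : ℝ) := by exact_mod_cast card_le_card hsub
  have h6 : 1 / (((κ N : ℕ) : ℝ) + 1) ≤ ε := by
    rw [div_le_iff₀ (by positivity)]
    rw [div_lt_iff₀ hε] at hj
    have : (j : ℝ) + 1 ≤ ((κ N : ℕ) : ℝ) := by exact_mod_cast b1
    nlinarith
  have hN0 : (0 : ℝ) ≤ N := Nat.cast_nonneg _
  refine le_trans (Nat.cast_le.2 (card_mono' fun m hm => hm)) (h5.trans (h4.trans ?_))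
  exact mul_le_mul_of_nonneg_right h6 hN0

/-- the sets with at most `C X ^ s` elements of height at most `X` -/
structure FewT {T : Type*} (h : T → ℝ) (s C : ℝ) where
  S : Set T
  few : ∀ X : ℝ, 1 ≤ X → {t | t ∈ S ∧ h t ≤ X}.Finite ∧ ({t | t ∈ S ∧ h t ≤ X}.ncard : ℝ) ≤ C * X ^ s

/-- Fixed `k`, uniformly in the sets with at most `C X ^ s` elements of height at most `X`. -/
theorem windows_k {T : Type*} (h : T → ℝ) {f : ℕ → ℕ} (hf : LM f) {G : ℕ → ℝ} {d : ℝ}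
    (hG : Expanding G d) {s κ : ℝ} (hs : 0 ≤ s) (hκ : 0 ≤ κ) (h1 : d * s + κ < 1) (C : ℝ) (k : ℕ) :
    UnifAA (fun (W : FewT h s C) m => ∀ t ∈ W.S, ¬ |h t - G (orb f k m)| ≤ (orb f k m : ℝ) ^ κ) := by
  classical
  have hd := hG.one_le
  have hds : 0 ≤ d * s := by positivity
  obtain ⟨K, hK⟩ := Pool.Agent.N375.MV.nearG_count_unif h hG (s := s) (κ := κ) hs hκ (by linarith) C
  intro δ hδ
  obtain ⟨N₀, hN₀⟩ := densW hf (θ := d * s + κ) (by positivity) h1 K k δ hδ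
  refine ⟨N₀, fun N hN W => ?_⟩
  have h2 := hN₀ N hN (NearG W.S h G κ) (fun X hX => le_trans (le_of_eq (by congr!)) (hK W.S W.few X hX))
  refine le_trans (Nat.cast_le.2 (card_mono' ?_)) h2
  intro m hm
  push Not at hm
  obtain ⟨t, ht, hw⟩ := hm
  exact ⟨t, ht, hw⟩

/-- **Uniform form of `orbit_windows`.** -/
theorem orbit_windows_unif {T : Type*} (h : T → ℝ) {f : ℕ → ℕ} (hf : LM f) {G : ℕ → ℝ} {d : ℝ}
    (hG : Expanding G d) {s κ : ℝ} (hs : 0 ≤ s) (hκ : 0 ≤ κ) (h1 : d * s + κ < 1) (C : ℝ) :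
    ∃ K : ℕ → ℕ, Tendsto K atTop atTop ∧
      UnifAA (fun (W : FewT h s C) m => ∀ k ≤ K m, ∀ t ∈ W.S, ¬ |h t - G (orb f k m)| ≤ (orb f k m : ℝ) ^ κ) := by
  refine UnifAA.diagonal
    (P := fun (W : FewT h s C) j m => ∀ k ≤ j, ∀ t ∈ W.S, ¬ |h t - G (orb f k m)| ≤ (orb f k m : ℝ) ^ κ) ?_ (fun j => ?_)
  · intro W a b m hab h2 k hk
    exact h2 k (hk.trans hab)
  have h3 := UnifAA.finset (range (j + 1))
    (P := fun k (W : FewT h s C) m => ∀ t ∈ W.S, ¬ |h t - G (orb f k m)| ≤ (orb f k m : ℝ) ^ κ)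
    (fun k _ => windows_k h hf hG hs hκ h1 C k)
  refine h3.mono ?_
  intro W m hm k hk
  exact hm k (mem_range.2 (by omega))

/-- the index set for natural numbers -/
def FewN (s C : ℝ) : Type := {Q : ℕ → Prop // ∀ X : ℕ, 1 ≤ X → ({t : ℕ | 1 ≤ t ∧ t ≤ X ∧ ¬ Q t}.ncard : ℝ) ≤ C * (X : ℝ) ^ s}

/-- **Uniform form of `orbit_good_nat`.** -/
theorem orbit_good_nat_unif {f : ℕ → ℕ} (hf : LM f) {G : ℕ → ℝ} {d : ℝ}
    (hG : Expanding G d) {s κ : ℝ} (hs : 0 ≤ s) (hκ : 0 ≤ κ) (h1 : d * s + κ < 1) (C : ℝ) :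
    ∃ K : ℕ → ℕ, Tendsto K atTop atTop ∧ UnifAA (ι := FewN s C)
      (fun Q m => ∀ k ≤ K m, ∀ n : ℕ, 1 ≤ n → |(n : ℝ) - G (orb f k m)| ≤ (orb f k m : ℝ) ^ κ → Q.1 n) := by
  classical
  obtain ⟨K, hK, h2⟩ := orbit_windows_unif (fun n : ℕ => (n : ℝ)) hf hG hs hκ h1 |C|
  refine ⟨K, hK, fun δ hδ => ?_⟩
  obtain ⟨N₀, h3⟩ := h2 δ hδ
  refine ⟨N₀, fun N hN Q => ?_⟩
  have h4 := h3 N hN ⟨{n : ℕ | 1 ≤ n ∧ ¬ Q.1 n}, fun X hX => by
    have hX1 : 1 ≤ ⌊X⌋₊ := Nat.le_floor (by exact_mod_cast hX)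
    have e : {t : ℕ | t ∈ {n : ℕ | 1 ≤ n ∧ ¬ Q.1 n} ∧ (t : ℝ) ≤ X} = {t : ℕ | 1 ≤ t ∧ t ≤ ⌊X⌋₊ ∧ ¬ Q.1 t} := by
      ext t
      simp only [Set.mem_ofPred_eq]
      rw [← Nat.le_floor_iff (by linarith)]
      tauto
    rw [e]
    refine ⟨(Set.finite_Iic ⌊X⌋₊).subset (fun t ht => ht.2.1), (Q.2 _ hX1).trans ?_⟩
    calc C * ((⌊X⌋₊ : ℕ) : ℝ) ^ s ≤ |C| * ((⌊X⌋₊ : ℕ) : ℝ) ^ s :=
          mul_le_mul_of_nonneg_right (le_abs_self C) (by positivity)
      _ ≤ |C| * X ^ s := mul_le_mul_of_nonneg_left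
          (Real.rpow_le_rpow (Nat.cast_nonneg _) (Nat.floor_le (by linarith)) hs) (abs_nonneg C)⟩
  refine le_trans (Nat.cast_le.2 (card_mono' ?_)) h4
  intro m hm h5
  refine hm (fun k hk n hn hw => ?_)
  by_contra hcon
  exact h5 k hk n ⟨hn, hcon⟩ hw

/-- **Uniform form of `orbit_slow`.** -/
theorem orbit_slow_unif {ι : Type*} (Good : ι → ℕ → ℕ → Prop) (hmono : ∀ i a b n, a ≤ b → Good i b n → Good i a n)
    (hG : ∀ j, ∃ s : ℝ, 0 ≤ s ∧ s < 1 ∧ ∃ C : ℝ, ∀ i : ι, ∀ X : ℕ, 1 ≤ X →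
      ({t : ℕ | 1 ≤ t ∧ t ≤ X ∧ ¬ Good i j t}.ncard : ℝ) ≤ C * (X : ℝ) ^ s)
    {f : ℕ → ℕ} (hf : LM f) :
    ∃ K : ℕ → ℕ, Tendsto K atTop atTop ∧ UnifAA (fun (i : ι) m => ∀ k ≤ K m, ∀ a : ℕ, 1 ≤ a → a ≤ K m →
      ∀ h : ℤ, |h| ≤ K m → ∀ n : ℕ, 1 ≤ n → (n : ℤ) = a * orb f k m + h → Good i (K m) n) := by
  classical
  refine UnifAA.diagonal (P := fun i j m => ∀ k ≤ j, ∀ a : ℕ, 1 ≤ a → a ≤ j → ∀ h : ℤ, |h| ≤ j →
      ∀ n : ℕ, 1 ≤ n → (n : ℤ) = a * orb f k m + h → Good i j n) ?_ (fun j => ?_)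
  · intro i u j m hij h k hk a ha1 ha b hb n hn he
    exact hmono i u j n hij (h k (hk.trans hij) a ha1 (ha.trans hij) b (hb.trans (by exact_mod_cast hij)) n hn he)
  · obtain ⟨s, hs0, hs1, C, hC⟩ := hG j
    have h1 : ∀ p ∈ (Finset.Icc 1 j) ×ˢ (Finset.Icc (-(j : ℤ)) j), UnifAA (fun (i : ι) m => ∀ k ≤ j, ∀ n : ℕ, 1 ≤ n →
        (n : ℤ) = p.1 * orb f k m + p.2 → Good i j n) := by
      rintro ⟨a, h⟩ hp
      rw [mem_product, Finset.mem_Icc, Finset.mem_Icc] at hp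
      obtain ⟨K, hK, hK2⟩ := orbit_good_nat_unif hf (expanding_lin hp.1.1 h) (s := s) (κ := 0) hs0
        (le_refl 0) (by linarith) C
      have h3 : UnifAA (fun (i : ι) m => ∀ k ≤ K m, ∀ n : ℕ, 1 ≤ n → |(n : ℝ) - (((a, h).1 : ℕ) * (orb f k m : ℝ) +
          ((a, h).2 : ℤ))| ≤ (orb f k m : ℝ) ^ (0 : ℝ) → Good i j n) := by
        intro δ hδ
        obtain ⟨N₀, h4⟩ := hK2 δ hδ
        exact ⟨N₀, fun N hN i => h4 N hN ⟨Good i j, hC i⟩⟩
      refine (h3.and (UnifAA.ge (P := fun (_ : ι) m => j ≤ K m) _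
        (fun i => (eventually_atTop.1 (hK.eventually (eventually_ge_atTop j))).choose_spec))).mono ?_
      intro i m hm k hk n hn he
      refine hm.1 k (hk.trans hm.2) n hn ?_
      have e1 : (n : ℝ) = a * orb f k m + h := by exact_mod_cast he
      rw [e1, sub_self, abs_zero, Real.rpow_zero]
      exact zero_le_one
    refine (UnifAA.finset _ h1).mono (fun i m hm k hk a ha1 ha h hh n hn he => ?_)
    rw [abs_le] at hh
    exact hm (a, h) (by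
      rw [mem_product, Finset.mem_Icc, Finset.mem_Icc]
      exact ⟨⟨ha1, ha⟩, hh⟩) k hk n hn he

end Run7.h430.TW
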