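import Pool.Agent.Run7.h430.TW.Kit
import Pool.Agent.Run7.h430.TW.Unif

/-!
# The kit (multiples and enlarged windows), uniform in the exceptional set
-/

set_option autoImplicit false

namespace Run7.h430.TW

open Finset Filter Topology
open Pool.Agent.N733.TG (LM Expanding)
open Pool.Agent.N826.IT.Orb (AlmostAll almostAll_mono almostAll_and almostAll_iff card_mono')
open Pool.Agent.N760.IT (orb)

theorem UnifAA.const {ι : Type*} {P : ℕ → Prop} (h : AlmostAll P) : UnifAA (fun (_ : ι) m => P m) := by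
  classical
  intro δ hδ
  obtain ⟨N₀, h1⟩ := ((almostAll_iff P).1 h) δ hδ
  exact ⟨N₀, fun N hN _ => le_trans (Nat.cast_le.2 (card_mono' fun m hm => hm)) (h1 N hN)⟩

theorem ncard_le_card {N : ℕ} {P Q : ℕ → Prop} {inst : DecidablePred fun m => ¬ Q m} (h : ∀ m, Q m → P m) :
    {m : ℕ | 1 ≤ m ∧ m ≤ N ∧ ¬ P m}.ncard ≤ ((Icc 1 N).filter (fun m => ¬ Q m)).card := by
  rw [← Set.ncard_coe_finset]
  refine Set.ncard_le_ncard ?_ (Finset.finite_toSet _)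
  rintro m ⟨g1, g2, g3⟩
  exact Finset.mem_coe.2 (Finset.mem_filter.2 ⟨Finset.mem_Icc.2 ⟨g1, g2⟩, fun hq => g3 (h m hq)⟩)

/-- **Uniform form of the kit for integers.** -/
theorem kit_unif {f : ℕ → ℕ} (hf : LM f) {G : ℕ → ℝ} {d : ℝ}
    (hG : Expanding G d) {s κ : ℝ} (hs : 0 ≤ s) (hκ : 0 ≤ κ) (h1 : d * s + κ < 1) (C : ℝ) :
    ∃ K : ℕ → ℕ, Tendsto K atTop atTop ∧ UnifAA (ι := FewN s C)
      (fun Q m => ∀ k ≤ K m, ∀ a : ℕ, 1 ≤ a → a ≤ K m → ∀ n : ℕ, 1 ≤ n →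
        |(n : ℝ) - a * G (orb f k m)| ≤ (K m : ℝ) * (orb f k m : ℝ) ^ κ → Q.1 n) := by
  classical
  refine UnifAA.diagonal (P := fun (Q : FewN s C) j m => ∀ k ≤ j, ∀ a : ℕ, 1 ≤ a → a ≤ j → ∀ n : ℕ, 1 ≤ n →
        |(n : ℝ) - a * G (orb f k m)| ≤ (j : ℝ) * (orb f k m : ℝ) ^ κ → Q.1 n) ?_ (fun j => ?_)
  · intro Q i j m hij hj k hk a ha1 ha n hn hw
    refine hj k (hk.trans hij) a ha1 (ha.trans hij) n hn (hw.trans ?_)
    exact mul_le_mul_of_nonneg_right (by exact_mod_cast hij) (by positivity)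
  · obtain ⟨κ', hκ'⟩ : ∃ κ', κ' = (κ + (1 - d * s)) / 2 := ⟨_, rfl⟩
    have hlt : κ < κ' := by rw [hκ']; linarith
    have hlt1 : d * s + κ' < 1 := by rw [hκ']; linarith
    obtain ⟨B, hB⟩ := exists_nat_ge ((j : ℝ) ^ (1 / (κ' - κ)))
    obtain ⟨K₀, hK₀, hK₀2⟩ := orbit_large hf B
    have e0 : AlmostAll (fun m => ∀ k ≤ j, B < orb f k m) := by
      have h2 := almostAll_and hK₀2 (almostAll_ev (hK₀.eventually_ge_atTop j))
      exact almostAll_mono h2 (fun m hm k hk => hm.1 k (hk.trans hm.2))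
    have e1 : UnifAA (fun (Q : FewN s C) m => ∀ a ∈ Icc 1 j, ∀ k ≤ j, ∀ n : ℕ, 1 ≤ n →
        |(n : ℝ) - a * G (orb f k m)| ≤ (orb f k m : ℝ) ^ κ' → Q.1 n) := by
      refine UnifAA.finset (Icc 1 j) (P := fun a (Q : FewN s C) m => ∀ k ≤ j, ∀ n : ℕ, 1 ≤ n →
        |(n : ℝ) - a * G (orb f k m)| ≤ (orb f k m : ℝ) ^ κ' → Q.1 n) (fun a ha => ?_)
      rw [mem_Icc] at ha
      obtain ⟨K₁, hK₁, hK₁2⟩ := orbit_good_nat_unif hf (expanding_mul hG ha.1) hs (hκ.trans hlt.le) hlt1 C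
      refine (hK₁2.and (UnifAA.const (almostAll_ev (hK₁.eventually_ge_atTop j)))).mono ?_
      intro Q m hm k hk n hn hw
      exact hm.1 k (hk.trans hm.2) n hn hw
    refine ((UnifAA.const e0).and e1).mono ?_
    intro Q m hm k hk a ha1 ha n hn hw
    refine hm.2 a (mem_Icc.2 ⟨ha1, ha⟩) k hk n hn (hw.trans ?_)
    have h4 : ((j : ℝ) ^ (1 / (κ' - κ))) ≤ (orb f k m : ℝ) :=
      hB.trans (by exact_mod_cast (hm.1 k hk).le)
    have hv : (1 : ℝ) ≤ (orb f k m : ℝ) := by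
      have := hm.1 k hk
      exact_mod_cast (by omega : 1 ≤ orb f k m)
    have h5 : (j : ℝ) ≤ (orb f k m : ℝ) ^ (κ' - κ) := by
      calc (j : ℝ) = ((j : ℝ) ^ (1 / (κ' - κ))) ^ (κ' - κ) := by
            rw [← Real.rpow_mul (Nat.cast_nonneg _), one_div, inv_mul_cancel₀ (by linarith), Real.rpow_one]
        _ ≤ (orb f k m : ℝ) ^ (κ' - κ) := Real.rpow_le_rpow (by positivity) h4 (by linarith)
    calc (j : ℝ) * (orb f k m : ℝ) ^ κ ≤ (orb f k m : ℝ) ^ (κ' - κ) * (orb f k m : ℝ) ^ κ :=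
          mul_le_mul_of_nonneg_right h5 (by positivity)
      _ = (orb f k m : ℝ) ^ κ' := by
          rw [← Real.rpow_add (by linarith)]
          congr 1
          ring

end Run7.h430.TW
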