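import Pool.Agent.Run7.h430.TW.RPairs
import Pool.Agent.R559.NP.Win

set_option autoImplicit false

/-!
Products of two integers near two orbits of Euler's function avoid sets with a power saving (helper430).
-/

namespace Run7.h430.TW.RPairs

open Finset Filter Topology

/-- the product is in `P`, and the factors are polynomially related -/
def Prod (P : Set ℕ) (L : ℕ) (n n' : ℕ) : Prop := 1 ≤ n ∧ 1 ≤ n' ∧ n ≤ n' ^ L ∧ n' ≤ n ^ L ∧ n * n' ∈ P

theorem rel_prod (P : Set ℕ) (L : ℕ) : Rel (Prod P L) L :=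
  ⟨fun _ _ h => h.2.1, fun _ _ h => h.2.2.1, fun _ _ h => h.2.2.2.1⟩

open Classical in
/-- the number of the pairs in a box whose product is in `P` -/
theorem prod_box {P : Set ℕ} {s : ℝ} (hs0 : 0 ≤ s) (hs : s < 1)
    (hP : ∀ ε : ℝ, 0 < ε → ∃ C : ℝ, ∀ X : ℕ, 1 ≤ X →
      (((Ioc 0 X).filter (fun t => t ∈ P)).card : ℝ) ≤ C * (X : ℝ) ^ (s + ε)) (L : ℕ) :
    ∃ X₀ : ℕ, 2 ≤ X₀ ∧ BoxCount (Prod P L) L ((1 - s) / 2) X₀ := by
  obtain ⟨ε, hε⟩ : ∃ ε, ε = (1 - s) / 8 := ⟨_, rfl⟩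
  have hε0 : 0 < ε := by rw [hε]; linarith
  obtain ⟨C, hC⟩ := hP ε hε0
  obtain ⟨D, hD0, hD⟩ := Pool.Agent.H510R2.divisor_bound ε hε0
  obtain ⟨M, hM⟩ : ∃ M : ℝ, M = |C| * D := ⟨_, rfl⟩
  have hM0 : 0 ≤ M := by rw [hM]; positivity
  have hlim := ((tendsto_rpow_atTop (show (0 : ℝ) < 8 * ε by linarith)).comp
    (tendsto_natCast_atTop_atTop (R := ℝ))).eventually_ge_atTop M
  obtain ⟨Z, hZ⟩ := eventually_atTop.1 hlim
  refine ⟨max Z 2, le_max_right _ _, fun X Y hX hY _ _ => ?_⟩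
  have hX1 : 1 ≤ X := le_trans (by norm_num) ((le_max_right Z 2).trans hX)
  have hY1 : 1 ≤ Y := le_trans (by norm_num) ((le_max_right Z 2).trans hY)
  have hXYn : 1 ≤ X * Y := Nat.mul_pos hX1 hY1
  have hXYr : (1 : ℝ) ≤ (X : ℝ) * Y := by exact_mod_cast hXYn
  -- the pairs inject into the pairs (product, factor)
  have h1 : (∑ A ∈ Icc 1 X, cnt (Prod P L) A Y) ≤
      ∑ t ∈ (Ioc 0 (X * Y)).filter (fun t => t ∈ P), t.divisors.card := by
    have e1 : ∑ A ∈ Icc 1 X, cnt (Prod P L) A Y =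
        ((Icc 1 X).sigma (fun A => (Icc 1 Y).filter (fun B => Prod P L A B))).card := by
      rw [card_sigma]
      rfl
    have e2 : ∑ t ∈ (Ioc 0 (X * Y)).filter (fun t => t ∈ P), t.divisors.card =
        (((Ioc 0 (X * Y)).filter (fun t => t ∈ P)).sigma (fun t => t.divisors)).card := by
      rw [card_sigma]
    rw [e1, e2]
    refine card_le_card_of_injOn (fun q => ⟨q.1 * q.2, q.1⟩) ?_ ?_
    · rintro ⟨A, B⟩ hq
      rw [mem_coe, mem_sigma, mem_Icc, mem_filter, mem_Icc] at hq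
      obtain ⟨⟨a1, a2⟩, ⟨b1, b2⟩, -, -, -, -, hp⟩ := hq
      simp only at a1 a2 b1 b2 hp
      rw [mem_coe, mem_sigma, mem_filter, mem_Ioc, Nat.mem_divisors]
      exact ⟨⟨⟨Nat.mul_pos a1 b1, Nat.mul_le_mul a2 b2⟩, hp⟩, Dvd.intro _ rfl, (Nat.mul_pos a1 b1).ne'⟩
    · rintro ⟨A, B⟩ hq ⟨A', B'⟩ hq' he
      rw [mem_coe, mem_sigma, mem_Icc] at hq
      simp only [Sigma.mk.injEq] at he
      obtain ⟨he1, he2⟩ := he
      have he3 : A = A' := eq_of_heq he2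
      subst he3
      have : B = B' := Nat.eq_of_mul_eq_mul_left hq.1.1 he1
      rw [this]
  have h2 : ((∑ A ∈ Icc 1 X, cnt (Prod P L) A Y : ℕ) : ℝ) ≤ M * ((X : ℝ) * Y) ^ (s + 2 * ε) := by
    calc ((∑ A ∈ Icc 1 X, cnt (Prod P L) A Y : ℕ) : ℝ)
        ≤ ∑ t ∈ (Ioc 0 (X * Y)).filter (fun t => t ∈ P), (t.divisors.card : ℝ) := by exact_mod_cast h1
      _ ≤ ∑ t ∈ (Ioc 0 (X * Y)).filter (fun t => t ∈ P), D * ((X : ℝ) * Y) ^ ε := by
          refine sum_le_sum (fun t ht => ?_)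
          rw [mem_filter, mem_Ioc] at ht
          refine (hD t ht.1.1).trans ?_
          apply mul_le_mul_of_nonneg_left _ hD0.le
          exact Real.rpow_le_rpow (Nat.cast_nonneg _) (by exact_mod_cast ht.1.2) hε0.le
      _ = (((Ioc 0 (X * Y)).filter (fun t => t ∈ P)).card : ℝ) * (D * ((X : ℝ) * Y) ^ ε) := by
          rw [sum_const, nsmul_eq_mul]
      _ ≤ |C| * ((X : ℝ) * Y) ^ (s + ε) * (D * ((X : ℝ) * Y) ^ ε) := by
          apply mul_le_mul_of_nonneg_right _ (by positivity)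
          have h3 := hC (X * Y) hXYn
          push_cast at h3
          exact h3.trans (mul_le_mul_of_nonneg_right (le_abs_self C) (by positivity))
      _ = M * ((X : ℝ) * Y) ^ (s + 2 * ε) := by
          rw [hM, show s + 2 * ε = (s + ε) + ε by ring, Real.rpow_add (by linarith) (s + ε) ε]
          ring
  refine h2.trans ?_
  obtain ⟨N, hN⟩ : ∃ N, N = min X Y := ⟨_, rfl⟩
  rw [← hN]
  have hNZ : Z ≤ N := by rw [hN]; exact le_min ((le_max_left _ _).trans hX) ((le_max_left _ _).trans hY)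
  have hN1 : 1 ≤ N := by rw [hN]; exact le_min hX1 hY1
  have hNX : N ≤ X := by rw [hN]; exact min_le_left _ _
  have hNY : N ≤ Y := by rw [hN]; exact min_le_right _ _
  have hN1r : (1 : ℝ) ≤ N := by exact_mod_cast hN1
  have hNXr : (N : ℝ) ≤ X := by exact_mod_cast hNX
  have hNYr : (N : ℝ) ≤ Y := by exact_mod_cast hNY
  have g1 : M ≤ (N : ℝ) ^ (8 * ε) := hZ N hNZ
  have g2 : (N : ℝ) ^ (2 : ℝ) ≤ (X : ℝ) * Y := by
    rw [show (2 : ℝ) = ((2 : ℕ) : ℝ) by norm_num, Real.rpow_natCast, pow_two]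
    exact mul_le_mul hNXr hNYr (by linarith) (by linarith)
  have g3 : (N : ℝ) ^ (8 * ε) * (N : ℝ) ^ (4 * ε) ≤ ((X : ℝ) * Y) ^ (6 * ε) := by
    calc (N : ℝ) ^ (8 * ε) * (N : ℝ) ^ (4 * ε) = ((N : ℝ) ^ (2 : ℝ)) ^ (6 * ε) := by
          rw [← Real.rpow_add (by linarith), ← Real.rpow_mul (by linarith)]
          congr 1
          ring
      _ ≤ ((X : ℝ) * Y) ^ (6 * ε) := Real.rpow_le_rpow (by positivity) g2 (by linarith)
  have g4 : 0 < (N : ℝ) ^ (4 * ε) := by positivity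
  have g5 : M ≤ (N : ℝ) ^ (-(4 * ε)) * ((X : ℝ) * Y) ^ (6 * ε) := by
    rw [Real.rpow_neg (by linarith), inv_mul_eq_div, le_div_iff₀ g4]
    exact (mul_le_mul_of_nonneg_right g1 g4.le).trans g3
  have e3 : (1 - s) / 2 = 4 * ε := by rw [hε]; ring
  rw [e3]
  calc M * ((X : ℝ) * Y) ^ (s + 2 * ε) ≤
        (N : ℝ) ^ (-(4 * ε)) * ((X : ℝ) * Y) ^ (6 * ε) * ((X : ℝ) * Y) ^ (s + 2 * ε) :=
        mul_le_mul_of_nonneg_right g5 (by positivity)
    _ = (N : ℝ) ^ (-(4 * ε)) * ((X : ℝ) * Y) := by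
        rw [mul_assoc, ← Real.rpow_add (by linarith)]
        rw [show 6 * ε + (s + 2 * ε) = 1 by rw [hε]; ring, Real.rpow_one]

end Run7.h430.TW.RPairs
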