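import Pool.Agent.N760.IT.C

set_option autoImplicit false

/-!
# Combining statements on almost all orbits (helper430)
-/

namespace Run7.h430.TW

open Finset Filter Topology
open Pool.Agent.N826.IT.Orb (AlmostAll almostAll_mono almostAll_and)

theorem orbit_and {Q R : ℕ → ℕ → Prop}
    (h1 : ∃ K : ℕ → ℕ, Tendsto K atTop atTop ∧ AlmostAll (fun m => ∀ k ≤ K m, Q k m))
    (h2 : ∃ K : ℕ → ℕ, Tendsto K atTop atTop ∧ AlmostAll (fun m => ∀ k ≤ K m, R k m)) :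
    ∃ K : ℕ → ℕ, Tendsto K atTop atTop ∧ AlmostAll (fun m => ∀ k ≤ K m, Q k m ∧ R k m) := by
  obtain ⟨K₁, hK₁, h1⟩ := h1
  obtain ⟨K₂, hK₂, h2⟩ := h2
  refine ⟨fun m => min (K₁ m) (K₂ m), ?_, almostAll_mono (almostAll_and h1 h2) (fun m hm k hk => ?_)⟩
  · rw [tendsto_atTop_atTop] at *
    intro b
    obtain ⟨i₁, hi₁⟩ := hK₁ b
    obtain ⟨i₂, hi₂⟩ := hK₂ b
    exact ⟨max i₁ i₂, fun a ha => le_min (hi₁ a ((le_max_left _ _).trans ha)) (hi₂ a ((le_max_right _ _).trans ha))⟩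
  · exact ⟨hm.1 k (hk.trans (min_le_left _ _)), hm.2 k (hk.trans (min_le_right _ _))⟩

end Run7.h430.TW
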