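import Pool.Agent.Run7.h430.TW.Tup

set_option autoImplicit false

/-!
Classes of sums `a + b = c` with `O(B ^ (s + δ))` members of height at most `B`: the divisors of `abc` near almost all orbits
of Euler's function, and near almost all pairs of orbits (helper430).
-/

namespace Run7.h430.TW.Abc

open Finset Filter Topology
open Pool.Agent.N733.TG (LM Expanding)
open Pool.Agent.N760.IT (orb)
open Pool.Agent.R559.NP (height DivBad)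

/-- the tuple `(a, b, a + b)` -/
def tup (t : ℕ × ℕ) : Fin 3 → ℤ := ![(t.1 : ℤ), (t.2 : ℤ), ((t.1 + t.2 : ℕ) : ℤ)]

/-- the tuples of the class `E` -/
def Bad (E : ℕ → ℕ → Prop) (x : Fin 3 → ℤ) : Prop := ∃ t : ℕ × ℕ, x = tup t ∧ 0 < t.1 ∧ 0 < t.2 ∧ E t.1 t.2

/-- at most `O(B ^ (s + δ))` members of the class with `a + b ≤ B` -/
def Few (E : ℕ → ℕ → Prop) (s : ℝ) : Prop :=
  ∀ δ : ℝ, 0 < δ → ∃ C : ℝ, ∀ B : ℝ, 1 ≤ B →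
    {p : ℕ × ℕ | 0 < p.1 ∧ 0 < p.2 ∧ E p.1 p.2 ∧ ((p.1 + p.2 : ℕ) : ℝ) ≤ B}.Finite ∧
    (({p : ℕ × ℕ | 0 < p.1 ∧ 0 < p.2 ∧ E p.1 p.2 ∧ ((p.1 + p.2 : ℕ) : ℝ) ≤ B}.ncard : ℕ) : ℝ) ≤ C * B ^ (s + δ)

/-- no member of the class with `n ∣ ab(a+b)` and `a + b ≤ n ^ A` -/
def Free (E : ℕ → ℕ → Prop) (A : ℝ) (n : ℕ) : Prop :=
  ∀ a b : ℕ, 0 < a → 0 < b → n ∣ a * b * (a + b) → ((a + b : ℕ) : ℝ) ≤ (n : ℝ) ^ A → ¬ E a b

theorem tup_inj : Function.Injective tup := by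
  rintro ⟨a, b⟩ ⟨a', b'⟩ h
  have h0 := congrFun h 0
  have h1 := congrFun h 1
  simp only [tup, Matrix.cons_val_zero, Matrix.cons_val_one] at h0 h1
  norm_cast at h0 h1
  rw [h0, h1]

theorem height_tup (t : ℕ × ℕ) (B : ℝ) : height (tup t) ≤ B ↔ ((t.1 + t.2 : ℕ) : ℝ) ≤ B := by
  rw [Pool.Agent.R559.NP.height_le_iff (by norm_num)]
  constructor
  · intro h1
    have h2 := h1 2
    have e : tup t 2 = ((t.1 + t.2 : ℕ) : ℤ) := rfl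
    rw [e, Nat.abs_cast] at h2
    exact_mod_cast h2
  · intro h1 i
    have e1 : (t.1 : ℝ) ≤ ((t.1 + t.2 : ℕ) : ℝ) := by exact_mod_cast (by omega : t.1 ≤ t.1 + t.2)
    have e2 : (t.2 : ℝ) ≤ ((t.1 + t.2 : ℕ) : ℝ) := by exact_mod_cast (by omega : t.2 ≤ t.1 + t.2)
    fin_cases i
    · have e : tup t 0 = (t.1 : ℤ) := rfl
      simp only [Fin.zero_eta]
      rw [e, Nat.abs_cast]
      exact_mod_cast e1.trans h1
    · have e : tup t 1 = (t.2 : ℤ) := rfl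
      simp only [Fin.mk_one]
      rw [e, Nat.abs_cast]
      exact_mod_cast e2.trans h1
    · have e : tup t 2 = ((t.1 + t.2 : ℕ) : ℤ) := rfl
      simp only [Fin.reduceFinMk]
      rw [e, Nat.abs_cast]
      exact_mod_cast h1

theorem prod_tup (t : ℕ × ℕ) : ∏ i, tup t i = ((t.1 * t.2 * (t.1 + t.2) : ℕ) : ℤ) := by
  rw [Fin.prod_univ_three]
  simp [tup]

theorem ne_zero {E : ℕ → ℕ → Prop} (x : Fin 3 → ℤ) (hx : Bad E x) (i : Fin 3) : x i ≠ 0 := by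
  obtain ⟨t, rfl, h4, h5, h6⟩ := hx
  have h : ∏ i, tup t i ≠ 0 := by
    rw [prod_tup]
    exact_mod_cast (Nat.mul_pos (Nat.mul_pos h4 h5) (by omega : 0 < t.1 + t.2)).ne'
  exact (Finset.prod_ne_zero_iff.1 h) i (mem_univ i)

theorem count {E : ℕ → ℕ → Prop} {s : ℝ} (hE : Few E s) (δ : ℝ) (hδ : 0 < δ) : ∃ C : ℝ, ∀ B : ℝ, 1 ≤ B →
    {x | Bad E x ∧ height x ≤ B}.Finite ∧
    (({x | Bad E x ∧ height x ≤ B}.ncard : ℕ) : ℝ) ≤ C * B ^ (s + δ) := by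
  obtain ⟨C, hC⟩ := hE δ hδ
  refine ⟨C, fun B hB => ?_⟩
  obtain ⟨h2, h3⟩ := hC B hB
  have hsub : {x | Bad E x ∧ height x ≤ B} ⊆
      tup '' {p : ℕ × ℕ | 0 < p.1 ∧ 0 < p.2 ∧ E p.1 p.2 ∧ ((p.1 + p.2 : ℕ) : ℝ) ≤ B} := by
    rintro x ⟨⟨t, rfl, h4, h5, h6⟩, h9⟩
    exact ⟨t, ⟨h4, h5, h6, (height_tup t B).1 h9⟩, rfl⟩
  refine ⟨(h2.image _).subset hsub, le_trans ?_ h3⟩
  have h4 := Set.ncard_le_ncard hsub (h2.image _)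
  rw [Set.ncard_image_of_injective _ tup_inj] at h4
  exact_mod_cast h4

theorem free_of {E : ℕ → ℕ → Prop} {A : ℝ} {n : ℕ} (h : n ∉ DivBad (Bad E) A) : Free E A n := by
  intro a b ha hb hd hh hE
  refine h ⟨tup (a, b), ⟨(a, b), rfl, ha, hb, hE⟩, (height_tup (a, b) _).2 hh, ?_⟩
  rw [prod_tup]
  exact_mod_cast hd

/-- one orbit -/
theorem one {E : ℕ → ℕ → Prop} {s A : ℝ} (hE : Few E s) (hs : 0 ≤ s) (hA : 0 < A)
    {f : ℕ → ℕ} (hf : LM f) {G : ℕ → ℝ} {d : ℝ} (hG : Expanding G d) {κ : ℝ} (hκ : 0 ≤ κ) (h1 : d * (A * s) + κ < 1) :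
    ∃ K : ℕ → ℕ, Tendsto K atTop atTop ∧
      Pool.Agent.N826.IT.Orb.AlmostAll (fun m => ∀ k ≤ K m, ∀ a : ℕ, 1 ≤ a → a ≤ K m → ∀ t : ℕ,
        |(t : ℝ) - a * G (orb f k m)| ≤ K m * (orb f k m : ℝ) ^ κ → Free E A t) := by
  obtain ⟨K, hK, h2⟩ := Tup.one ne_zero hs hA (count hE) hf hG hκ h1
  exact ⟨K, hK, Pool.Agent.N826.IT.Orb.almostAll_mono h2 (fun m hm k hk a ha1 ha n hn => free_of (hm k hk a ha1 ha n hn))⟩

/-- pairs of orbits -/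
theorem pairs {E : ℕ → ℕ → Prop} {s A : ℝ} (hE : Few E s) (hs : 0 ≤ s) (hA : 0 < A) (hAs : A * s < 1)
    (L : ℕ) {f g : ℕ → ℕ} (hf : LM f) (hg : LM g) {F G : ℕ → ℝ} {d d' : ℝ} (hF : Expanding F d)
    (hG : Expanding G d') {κ : ℝ} (hκ : 0 ≤ κ) (h1 : d * (1 - (1 - A * s) / (8 * ((L : ℝ) + 1) ^ 3)) + κ < 1)
    (h2 : d' * (1 - (1 - A * s) / (8 * ((L : ℝ) + 1) ^ 3)) + κ < 1) :
    ∃ K : ℕ → ℕ, Tendsto K atTop atTop ∧ Pairs.PairAA (fun m m' =>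
      ∀ k ≤ K (min m m'), ∀ l ≤ K (min m m'), ∀ a b : ℕ,
      1 ≤ a → a ≤ K (min m m') → 1 ≤ b → b ≤ K (min m m') → ∀ t u : ℕ,
      |(t : ℝ) - a * F (orb f k m)| ≤ K (min m m') * (orb f k m : ℝ) ^ κ →
        |(u : ℝ) - b * G (orb g l m')| ≤ K (min m m') * (orb g l m' : ℝ) ^ κ →
          1 ≤ t → 1 ≤ u → t ≤ u ^ L → u ≤ t ^ L → Free E A (t * u)) := by
  obtain ⟨K, hK, h3⟩ := Tup.pairs ne_zero hs hA hAs (count hE) L hf hg hF hG hκ h1 h2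
  refine ⟨K, hK, fun δ hδ => ?_⟩
  obtain ⟨N₀, hN₀⟩ := h3 δ hδ
  refine ⟨N₀, fun N N' hN hN' => le_trans ?_ (hN₀ N N' hN hN')⟩
  refine Nat.cast_le.2 (Pairs.card_mono2 (fun p _ hp hq => hp (fun k hk l hl a b ha1 ha hb1 hb n n' hn hn'
    hn1 hn1' h6 h7 => ?_)))
  exact free_of (hq k hk l hl a b ha1 ha hb1 hb n n' hn hn' hn1 hn1' h6 h7)

end Run7.h430.TW.Abc
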