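import Mathlib

set_option autoImplicit false

/-!
# From a mean value to a count (helper430)
-/

namespace Run7.h430.TW

open Finset Classical Filter Topology

/-- If `∑_{n ≤ X} g n ≤ C X`, then `g n > n ^ β` for at most `O (X ^ (1 - β + ε))` of the `n ≤ X`. -/
theorem count_of_mean (g : ℕ → ℝ) (hg : ∀ n, 0 ≤ g n) {C : ℝ} (hC : 0 < C)
    (h : ∀ X : ℕ, 1 ≤ X → ∑ n ∈ Icc 1 X, g n ≤ C * X) {β : ℝ} (hβ : 0 < β) (hβ1 : β ≤ 1) {ε : ℝ} (hε : 0 < ε) :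
    ∃ C' : ℝ, ∀ X : ℕ, 1 ≤ X →
      ({t : ℕ | 1 ≤ t ∧ t ≤ X ∧ True ∧ ¬ g t ≤ (t : ℝ) ^ β}.ncard : ℝ) ≤ C' * (X : ℝ) ^ (1 - β + ε) := by
  have hlog2 : 0 < Real.log 2 := Real.log_pos (by norm_num)
  refine ⟨(1 / (Real.log 2 * ε) + 1) * (2 * C), fun X hX => ?_⟩
  have hXr : (1 : ℝ) ≤ X := by exact_mod_cast hX
  have hX0 : (0 : ℝ) < X := by linarith
  obtain ⟨F, hF⟩ : ∃ F : Finset ℕ, F = (Icc 1 X).filter (fun t : ℕ => ¬ g t ≤ (t : ℝ) ^ β) := ⟨_, rfl⟩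
  have hset : {t : ℕ | 1 ≤ t ∧ t ≤ X ∧ True ∧ ¬ g t ≤ (t : ℝ) ^ β} = (F : Set ℕ) := by
    ext t
    rw [hF, mem_coe, mem_filter, mem_Icc]
    simp only [Set.mem_setOf_eq, true_and]
    tauto
  rw [hset, Set.ncard_coe_finset]
  obtain ⟨J, hJ⟩ : ∃ J : ℕ, J = Nat.log 2 X := ⟨_, rfl⟩
  have h2J : (2 : ℝ) ^ J ≤ X := by
    have h1 : 2 ^ J ≤ X := by
      rw [hJ]
      exact Nat.pow_log_le_self 2 (by omega)
    exact_mod_cast h1
  have hFj : ∀ j ∈ range (J + 1), ((F.filter (fun t : ℕ => 2 ^ j ≤ t ∧ t < 2 ^ (j + 1))).card : ℝ) ≤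
      2 * C * (X : ℝ) ^ (1 - β) := by
    intro j hj
    rw [mem_range] at hj
    have h2j : (2 : ℝ) ^ j ≤ X := (pow_le_pow_right₀ (by norm_num) (by omega)).trans h2J
    have h2j0 : (0 : ℝ) < 2 ^ j := by positivity
    obtain ⟨H, hH⟩ : ∃ H, H = F.filter (fun t : ℕ => 2 ^ j ≤ t ∧ t < 2 ^ (j + 1)) := ⟨_, rfl⟩
    rw [← hH]
    have h1 : (H.card : ℝ) * ((2 : ℝ) ^ j) ^ β ≤ C * (2 : ℝ) ^ (j + 1) := by
      calc (H.card : ℝ) * ((2 : ℝ) ^ j) ^ β = ∑ t ∈ H, ((2 : ℝ) ^ j) ^ β := by rw [sum_const, nsmul_eq_mul]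
        _ ≤ ∑ t ∈ H, g t := by
            apply sum_le_sum
            intro t ht
            rw [hH, mem_filter, hF, mem_filter, not_le] at ht
            refine le_trans ?_ ht.1.2.le
            apply Real.rpow_le_rpow h2j0.le _ hβ.le
            exact_mod_cast ht.2.1
        _ ≤ ∑ t ∈ Icc 1 (2 ^ (j + 1)), g t := by
            apply sum_le_sum_of_subset_of_nonneg
            · intro t ht
              rw [hH, mem_filter, hF, mem_filter, mem_Icc] at ht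
              rw [mem_Icc]
              omega
            · intro t _ _
              exact hg t
        _ ≤ C * ((2 ^ (j + 1) : ℕ) : ℝ) := h _ Nat.one_le_two_pow
        _ = C * (2 : ℝ) ^ (j + 1) := by push_cast; ring
    have h2 : (2 : ℝ) ^ (j + 1) = 2 * (((2 : ℝ) ^ j) ^ (1 - β) * ((2 : ℝ) ^ j) ^ β) := by
      rw [← Real.rpow_add h2j0, sub_add_cancel, Real.rpow_one, pow_succ]
      ring
    rw [h2] at h1
    have h3 : (H.card : ℝ) ≤ 2 * C * ((2 : ℝ) ^ j) ^ (1 - β) := by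
      have h4 : (0 : ℝ) < ((2 : ℝ) ^ j) ^ β := by positivity
      have h5 : (H.card : ℝ) * ((2 : ℝ) ^ j) ^ β ≤ (2 * C * ((2 : ℝ) ^ j) ^ (1 - β)) * ((2 : ℝ) ^ j) ^ β := by
        calc _ ≤ _ := h1
          _ = _ := by ring
      exact le_of_mul_le_mul_right h5 h4
    refine h3.trans ?_
    have h6 : ((2 : ℝ) ^ j) ^ (1 - β) ≤ (X : ℝ) ^ (1 - β) := Real.rpow_le_rpow h2j0.le h2j (by linarith)
    gcongr
  have hsub : F ⊆ (range (J + 1)).biUnion (fun j => F.filter (fun t : ℕ => 2 ^ j ≤ t ∧ t < 2 ^ (j + 1))) := by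
    intro t ht
    have ht' := ht
    rw [hF, mem_filter, mem_Icc] at ht'
    rw [mem_biUnion]
    refine ⟨Nat.log 2 t, ?_, mem_filter.2 ⟨ht, Nat.pow_log_le_self 2 (by omega), Nat.lt_pow_succ_log_self (by norm_num) _⟩⟩
    rw [mem_range, hJ, Nat.lt_succ_iff]
    exact Nat.log_mono_right ht'.1.2
  have hJ1 : (J : ℝ) + 1 ≤ (1 / (Real.log 2 * ε) + 1) * (X : ℝ) ^ ε := by
    have h5 := Real.log_le_log (by positivity) h2J
    rw [Real.log_pow] at h5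
    have h6 := Real.log_le_rpow_div hX0.le hε
    have h7 : 1 ≤ (X : ℝ) ^ ε := Real.one_le_rpow hXr hε.le
    have h8 : (J : ℝ) ≤ 1 / (Real.log 2 * ε) * (X : ℝ) ^ ε := by
      rw [div_mul_eq_mul_div, one_mul, le_div_iff₀ (by positivity)]
      rw [le_div_iff₀ hε] at h6
      calc (J : ℝ) * (Real.log 2 * ε) = (J * Real.log 2) * ε := by ring
        _ ≤ Real.log X * ε := mul_le_mul_of_nonneg_right h5 hε.le
        _ ≤ _ := h6
    linarith
  calc (F.card : ℝ) ≤ (((range (J + 1)).biUnion (fun j => F.filter (fun t : ℕ => 2 ^ j ≤ t ∧ t < 2 ^ (j + 1)))).card : ℝ) := by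
        exact_mod_cast card_le_card hsub
    _ ≤ ∑ j ∈ range (J + 1), ((F.filter (fun t : ℕ => 2 ^ j ≤ t ∧ t < 2 ^ (j + 1))).card : ℝ) := by
        exact_mod_cast card_biUnion_le
    _ ≤ ∑ j ∈ range (J + 1), 2 * C * (X : ℝ) ^ (1 - β) := sum_le_sum hFj
    _ = ((J : ℝ) + 1) * (2 * C * (X : ℝ) ^ (1 - β)) := by
        rw [sum_const, card_range, nsmul_eq_mul]
        push_cast
        ring
    _ ≤ ((1 / (Real.log 2 * ε) + 1) * (X : ℝ) ^ ε) * (2 * C * (X : ℝ) ^ (1 - β)) :=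
        mul_le_mul_of_nonneg_right hJ1 (by positivity)
    _ = (1 / (Real.log 2 * ε) + 1) * (2 * C) * (X : ℝ) ^ (1 - β + ε) := by
        rw [Real.rpow_add hX0]
        ring

end Run7.h430.TW
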