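import Pool.Agent.W24.CP.MS
import Pool.Agent.H452R2.Win.V8

set_option autoImplicit false

/-!
# Mean squares of the error terms over all integers and over all integral radii

(helper430) From the mean square approximations `ms_T` and `ap_quant` of the starting files.
-/

namespace Run7.h430.TW.Ms

open Finset
open Pool.Agent.H383
open Pool.Agent.H383.Gen (Bd U)
open Pool.Agent.H452R2.Win Pool.Agent.H452R2.Om

/-- from the blocks `[T², 4 T²)` to `[1, X]` -/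
lemma sum_sq_blocks (g : ℕ → ℝ) (hg : ∀ n, 0 ≤ g n) (C₁ : ℝ) (hC₁ : 0 ≤ C₁) (T₀ : ℕ)
    (h : ∀ T : ℕ, T₀ ≤ T → ∑ n ∈ Ico (T ^ 2) (4 * T ^ 2), g n ≤ C₁ * (T : ℝ) ^ 2) :
    ∃ C : ℝ, 0 < C ∧ ∀ X : ℕ, 1 ≤ X → ∑ n ∈ Icc 1 X, g n ≤ C * X := by
  obtain ⟨X₁, hX₁⟩ : ∃ X₁ : ℕ, X₁ = 4 * T₀ ^ 2 + 40 := ⟨_, rfl⟩
  obtain ⟨C, hC⟩ : ∃ C : ℝ, C = ∑ n ∈ Icc 1 X₁, g n + C₁ + 1 := ⟨_, rfl⟩
  have hS0 : 0 ≤ ∑ n ∈ Icc 1 X₁, g n := sum_nonneg fun n _ => hg n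
  refine ⟨C, by rw [hC]; positivity, ?_⟩
  intro X
  induction X using Nat.strong_induction_on with
  | _ X ih =>
    intro hX
    have hXr : (1 : ℝ) ≤ X := by exact_mod_cast hX
    have hC0 : 0 ≤ C := by rw [hC]; positivity
    rcases le_or_gt X X₁ with hle | hgt
    · have h1 : ∑ n ∈ Icc 1 X, g n ≤ ∑ n ∈ Icc 1 X₁, g n :=
        sum_le_sum_of_subset_of_nonneg (Icc_subset_Icc_right hle) (fun n _ _ => hg n)
      have h2 : C ≤ C * X := le_mul_of_one_le_right hC0 hXr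
      rw [hC] at h2 ⊢
      linarith
    · obtain ⟨T, hT⟩ : ∃ T : ℕ, T = Nat.sqrt X / 2 + 1 := ⟨_, rfl⟩
      have hsq1 : Nat.sqrt X * Nat.sqrt X ≤ X := Nat.sqrt_le X
      have hsq2 : X < (Nat.sqrt X + 1) * (Nat.sqrt X + 1) := Nat.lt_succ_sqrt X
      obtain ⟨r, hr⟩ : ∃ r, r = Nat.sqrt X := ⟨_, rfl⟩
      rw [← hr] at hsq1 hsq2 hT
      have h2T : r + 1 ≤ 2 * T := by omega
      have h2T' : 2 * T ≤ r + 2 := by omega
      have h4 : X < 4 * T ^ 2 := by nlinarith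
      have hr6 : 6 ≤ r := by
        by_contra hcon
        have : r + 1 ≤ 6 := by omega
        nlinarith
      have hT2 : 2 * T ^ 2 ≤ X := by nlinarith
      have hTT : T₀ ≤ T := by
        by_contra hcon
        have h5 : T + 1 ≤ T₀ := by omega
        nlinarith
      have hT4 : 4 ≤ T := by omega
      have hsub : Icc 1 X ⊆ Icc 1 (T ^ 2 - 1) ∪ Ico (T ^ 2) (4 * T ^ 2) := by
        intro n hn
        rw [mem_Icc] at hn
        rw [mem_union, mem_Icc, mem_Ico]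
        omega
      have hT1 : 16 ≤ T ^ 2 := by nlinarith
      have h6 := ih (T ^ 2 - 1) (by omega) (by omega)
      have h7 := h T hTT
      have h8 : ((T ^ 2 - 1 : ℕ) : ℝ) ≤ (T : ℝ) ^ 2 := by
        have : T ^ 2 - 1 ≤ T ^ 2 := Nat.sub_le _ _
        exact_mod_cast this
      have h9 : 2 * (T : ℝ) ^ 2 ≤ X := by exact_mod_cast hT2
      have h10 : C₁ ≤ C := by
        rw [hC]
        linarith
      have h11 : 0 ≤ (T : ℝ) ^ 2 := by positivity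
      calc ∑ n ∈ Icc 1 X, g n ≤ ∑ n ∈ Icc 1 (T ^ 2 - 1) ∪ Ico (T ^ 2) (4 * T ^ 2), g n :=
            sum_le_sum_of_subset_of_nonneg hsub (fun n _ _ => hg n)
        _ ≤ ∑ n ∈ Icc 1 (T ^ 2 - 1), g n + ∑ n ∈ Ico (T ^ 2) (4 * T ^ 2), g n := by
            rw [← sum_union_inter]
            have : 0 ≤ ∑ n ∈ Icc 1 (T ^ 2 - 1) ∩ Ico (T ^ 2) (4 * T ^ 2), g n := sum_nonneg fun n _ => hg n
            linarith
        _ ≤ C * ((T ^ 2 - 1 : ℕ) : ℝ) + C₁ * (T : ℝ) ^ 2 := add_le_add h6 h7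
        _ ≤ C * (T : ℝ) ^ 2 + C * (T : ℝ) ^ 2 := by gcongr
        _ = C * (2 * (T : ℝ) ^ 2) := by ring
        _ ≤ C * X := by gcongr

/-- from the blocks `[T, 2 T)` to `[1, X]` -/
lemma sum_blocks (g : ℕ → ℝ) (hg : ∀ n, 0 ≤ g n) (C₁ : ℝ) (hC₁ : 0 ≤ C₁) (T₀ : ℕ)
    (h : ∀ T : ℕ, T₀ ≤ T → ∑ n ∈ Ico T (2 * T), g n ≤ C₁ * (T : ℝ)) :
    ∃ C : ℝ, 0 < C ∧ ∀ X : ℕ, 1 ≤ X → ∑ n ∈ Icc 1 X, g n ≤ C * X := by
  obtain ⟨X₁, hX₁⟩ : ∃ X₁ : ℕ, X₁ = 2 * T₀ + 4 := ⟨_, rfl⟩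
  obtain ⟨C, hC⟩ : ∃ C : ℝ, C = ∑ n ∈ Icc 1 X₁, g n + 2 * C₁ + 1 := ⟨_, rfl⟩
  have hS0 : 0 ≤ ∑ n ∈ Icc 1 X₁, g n := sum_nonneg fun n _ => hg n
  refine ⟨C, by rw [hC]; positivity, ?_⟩
  intro X
  induction X using Nat.strong_induction_on with
  | _ X ih =>
    intro hX
    have hXr : (1 : ℝ) ≤ X := by exact_mod_cast hX
    have hC0 : 0 ≤ C := by rw [hC]; positivity
    rcases le_or_gt X X₁ with hle | hgt
    · have h1 : ∑ n ∈ Icc 1 X, g n ≤ ∑ n ∈ Icc 1 X₁, g n :=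
        sum_le_sum_of_subset_of_nonneg (Icc_subset_Icc_right hle) (fun n _ _ => hg n)
      have h2 : C ≤ C * X := le_mul_of_one_le_right hC0 hXr
      rw [hC] at h2 ⊢
      linarith
    · obtain ⟨T, hT⟩ : ∃ T : ℕ, T = X / 2 + 1 := ⟨_, rfl⟩
      have hTT : T₀ ≤ T := by omega
      have hsub : Icc 1 X ⊆ Icc 1 (X / 2) ∪ Ico T (2 * T) := by
        intro n hn
        rw [mem_Icc] at hn
        rw [mem_union, mem_Icc, mem_Ico]
        omega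
      have h6 := ih (X / 2) (by omega) (by omega)
      have h7 := h T hTT
      have h8 : ((X / 2 : ℕ) : ℝ) ≤ (X : ℝ) / 2 := Nat.cast_div_le
      have h9 : (T : ℝ) ≤ X := by
        have : T ≤ X := by omega
        exact_mod_cast this
      have h10 : 2 * C₁ ≤ C := by
        rw [hC]
        linarith
      calc ∑ n ∈ Icc 1 X, g n ≤ ∑ n ∈ Icc 1 (X / 2) ∪ Ico T (2 * T), g n :=
            sum_le_sum_of_subset_of_nonneg hsub (fun n _ _ => hg n)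
        _ ≤ ∑ n ∈ Icc 1 (X / 2), g n + ∑ n ∈ Ico T (2 * T), g n := by
            rw [← sum_union_inter]
            have : 0 ≤ ∑ n ∈ Icc 1 (X / 2) ∩ Ico T (2 * T), g n := sum_nonneg fun n _ => hg n
            linarith
        _ ≤ C * ((X / 2 : ℕ) : ℝ) + C₁ * (T : ℝ) := add_le_add h6 h7
        _ ≤ C * ((X : ℝ) / 2) + C / 2 * (X : ℝ) := by
            apply add_le_add
            · exact mul_le_mul_of_nonneg_left h8 hC0
            · exact mul_le_mul (by linarith) h9 (by positivity) (by linarith)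
        _ = C * X := by ring

variable {E : ℝ → ℝ} {a : ℕ → ℝ} {φ : ℝ} {w : ℝ → ℂ}

lemma U_one (a : ℕ → ℝ) (φ R : ℝ) : (U a φ R 1) ^ 2 ≤ (a 1) ^ 2 := by
  have h1 : U a φ R 1 = a 1 * Real.cos (2 * Real.pi * (R * √((1 : ℕ) : ℝ)) - φ) := by
    unfold U
    rw [one_pow, Icc_self, sum_singleton]
  rw [h1, mul_pow]
  have h2 : Real.cos (2 * Real.pi * (R * √((1 : ℕ) : ℝ)) - φ) ^ 2 ≤ 1 := Real.cos_sq_le_one _
  have h3 : 0 ≤ (a 1) ^ 2 := sq_nonneg _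
  nlinarith

/-- the mean square at the points `c √n` -/
theorem ms_sqrt (ha : Bdw a) (ha0 : a 0 = 0) (hw : GW.Wt w) {κ₁ κ₂ : ℝ} (hS : SandW E a φ w κ₁ κ₂) {c : ℝ} (hc : 0 < c) :
    ∃ C : ℝ, 0 < C ∧ ∀ X : ℕ, 1 ≤ X → ∑ n ∈ Icc 1 X, E (c * √(n : ℝ)) ^ 2 ≤ C * X := by
  obtain ⟨ω, hω, -, C, hC, T0, hT⟩ := Pool.Agent.W24.CP.ms_T ha ha0 hw hS hc
  obtain ⟨T1, hT1⟩ := exists_nat_ge (4 / min 1 c)
  have hmc : 0 < min 1 c := lt_min one_pos hc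
  refine sum_sq_blocks (fun n => E (c * √(n : ℝ)) ^ 2) (fun n => sq_nonneg _) (6 * C + 6 * a 1 ^ 2) (by positivity)
    (max (max T0 T1) 1) (fun T hTT => ?_)
  have hTT0 : T0 ≤ T := ((le_max_left _ _).trans (le_max_left _ _)).trans hTT
  have hTT1 : T1 ≤ T := ((le_max_right _ _).trans (le_max_left _ _)).trans hTT
  have hTone : 1 ≤ T := (le_max_right _ _).trans hTT
  have hTr : (1 : ℝ) ≤ T := by exact_mod_cast hTone
  have hT0 : (0 : ℝ) < T := by linarith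
  have hM : 2 * (((1 : ℕ) : ℝ) + 1) ≤ min 1 c * T := by
    have h1 : 4 / min 1 c ≤ (T : ℝ) := hT1.trans (by exact_mod_cast hTT1)
    rw [div_le_iff₀ hmc] at h1
    push_cast
    linarith
  have h1 := hT T hTT0 1 le_rfl hM
  have h2 : (((1 : ℕ) : ℝ)) ^ (-ω) + ((1 : ℕ) : ℝ) ^ 4 * (T : ℝ) ^ (-1 : ℝ) + (T : ℝ) ^ (-ω) ≤ 3 := by
    rw [Nat.cast_one, Real.one_rpow, one_pow, one_mul]
    have e1 : (T : ℝ) ^ (-1 : ℝ) ≤ 1 := Real.rpow_le_one_of_one_le_of_nonpos hTr (by norm_num)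
    have e2 : (T : ℝ) ^ (-ω) ≤ 1 := Real.rpow_le_one_of_one_le_of_nonpos hTr (by linarith)
    linarith
  have hcard : (((Ico (T ^ 2) (4 * T ^ 2)).card : ℕ) : ℝ) = 3 * (T : ℝ) ^ 2 := by
    rw [Nat.card_Ico]
    have : 4 * T ^ 2 - T ^ 2 = 3 * T ^ 2 := by omega
    rw [this]
    push_cast
    ring
  calc ∑ n ∈ Ico (T ^ 2) (4 * T ^ 2), E (c * √(n : ℝ)) ^ 2 ≤
        ∑ n ∈ Ico (T ^ 2) (4 * T ^ 2), (2 * (E (c * √(n : ℝ)) - U a φ (c * √(n : ℝ)) 1) ^ 2 + 2 * a 1 ^ 2) := by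
        apply sum_le_sum
        intro n _
        have h3 := U_one a φ (c * √(n : ℝ))
        nlinarith [sq_nonneg (E (c * √(n : ℝ)) - 2 * U a φ (c * √(n : ℝ)) 1)]
    _ = 2 * ∑ n ∈ Ico (T ^ 2) (4 * T ^ 2), (E (c * √(n : ℝ)) - U a φ (c * √(n : ℝ)) 1) ^ 2 +
          (3 * (T : ℝ) ^ 2) * (2 * a 1 ^ 2) := by
        rw [sum_add_distrib, ← mul_sum, sum_const, nsmul_eq_mul, hcard]
    _ ≤ 2 * (C * (T : ℝ) ^ 2 * 3) + (3 * (T : ℝ) ^ 2) * (2 * a 1 ^ 2) := by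
        have h4 : 0 ≤ C * (T : ℝ) ^ 2 := by positivity
        have h5 := h1.trans (mul_le_mul_of_nonneg_left h2 h4)
        linarith
    _ = (6 * C + 6 * a 1 ^ 2) * (T : ℝ) ^ 2 := by ring

/-- the mean square at the points `c n` -/
theorem ms_int (ha : Bdw a) (ha0 : a 0 = 0) (hw : GW.Wt w) {κ₁ κ₂ : ℝ} (hS : SandW E a φ w κ₁ κ₂) {c : ℝ} (hc : 0 < c) :
    ∃ C : ℝ, 0 < C ∧ ∀ X : ℕ, 1 ≤ X → ∑ n ∈ Icc 1 X, E (c * (n : ℝ)) ^ 2 ≤ C * X := by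
  obtain ⟨ω, hω, -, C, hC, T0, hT⟩ := ap_quant ha ha0 hw hS hc (ε := 1 / 4) (by norm_num)
  obtain ⟨T1, hT1⟩ := exists_nat_ge (4 / min 1 c)
  obtain ⟨T2, hT2⟩ := exists_nat_ge (4 / c)
  have hev : ∀ᶠ T : ℕ in Filter.atTop, c ^ (3 / 4 : ℝ) ≤ (T : ℝ) ^ (1 / 4 : ℝ) :=
    (((tendsto_rpow_atTop (by norm_num : (0 : ℝ) < 1 / 4)).comp tendsto_natCast_atTop_atTop).eventually_ge_atTop _)
  obtain ⟨T3, hT3⟩ := Filter.eventually_atTop.1 hev
  have hmc : 0 < min 1 c := lt_min one_pos hc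
  have hTw : 0 ≤ Tw ω 1 := by
    unfold Tw
    exact tsum_nonneg fun q => by positivity
  refine sum_blocks (fun n => E (c * (n : ℝ)) ^ 2) (fun n => sq_nonneg _) (2 * (C * (Tw ω 1 + 2)) + 2 * a 1 ^ 2)
    (by positivity) (max (max (max T0 T1) (max T2 T3)) 1) (fun T hTT => ?_)
  have hTT0 : T0 ≤ T := ((le_max_left _ _).trans ((le_max_left _ _).trans (le_max_left _ _))).trans hTT
  have hTT1 : T1 ≤ T := ((le_max_right _ _).trans ((le_max_left _ _).trans (le_max_left _ _))).trans hTT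
  have hTT2 : T2 ≤ T := ((le_max_left _ _).trans ((le_max_right _ _).trans (le_max_left _ _))).trans hTT
  have hTT3 : T3 ≤ T := ((le_max_right _ _).trans ((le_max_right _ _).trans (le_max_left _ _))).trans hTT
  have hTone : 1 ≤ T := (le_max_right _ _).trans hTT
  have hTr : (1 : ℝ) ≤ T := by exact_mod_cast hTone
  have hT0 : (0 : ℝ) < T := by linarith
  have hM : 2 * (((1 : ℕ) : ℝ) + 1) ≤ min 1 c * T := by
    have h1 : 4 / min 1 c ≤ (T : ℝ) := hT1.trans (by exact_mod_cast hTT1)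
    rw [div_le_iff₀ hmc] at h1
    push_cast
    linarith
  have hX4 : 4 ≤ c * (T : ℝ) := by
    have h1 : 4 / c ≤ (T : ℝ) := hT2.trans (by exact_mod_cast hTT2)
    rw [div_le_iff₀ hc] at h1
    linarith
  have hXN : (c * (T : ℝ)) ^ (1 / 2 + 1 / 4 : ℝ) ≤ T := by
    have h1 := hT3 T hTT3
    have e1 : (1 / 2 + 1 / 4 : ℝ) = 3 / 4 := by norm_num
    rw [e1, Real.mul_rpow hc.le hT0.le]
    calc c ^ (3 / 4 : ℝ) * (T : ℝ) ^ (3 / 4 : ℝ) ≤ (T : ℝ) ^ (1 / 4 : ℝ) * (T : ℝ) ^ (3 / 4 : ℝ) := by gcongr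
      _ = T := by
          rw [← Real.rpow_add hT0]
          norm_num
  have h1 := hT 1 le_rfl T hTT0 hM (c * T) hX4 hXN (fun j => c * T + j * c) (fun j _ => by
    rw [sub_self, abs_zero]
    have : 0 < c * (T : ℝ) + T := by positivity
    positivity)
  have h2 : Tw ω 1 + ((1 : ℕ) : ℝ) ^ 4 * (T : ℝ) ^ (-1 : ℝ) + (T : ℝ) ^ (-ω) ≤ Tw ω 1 + 2 := by
    rw [Nat.cast_one, one_pow, one_mul]
    have e1 : (T : ℝ) ^ (-1 : ℝ) ≤ 1 := Real.rpow_le_one_of_one_le_of_nonpos hTr (by norm_num)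
    have e2 : (T : ℝ) ^ (-ω) ≤ 1 := Real.rpow_le_one_of_one_le_of_nonpos hTr (by linarith)
    linarith
  have hre : ∑ n ∈ Ico T (2 * T), E (c * (n : ℝ)) ^ 2 = ∑ j ∈ range T, E (c * T + j * c) ^ 2 := by
    rw [sum_Ico_eq_sum_range]
    have : 2 * T - T = T := by omega
    rw [this]
    apply sum_congr rfl
    intro j _
    congr 2
    push_cast
    ring
  rw [hre]
  calc ∑ j ∈ range T, E (c * T + j * c) ^ 2 ≤
        ∑ j ∈ range T, (2 * (E (c * T + j * c) - U a φ (c * T + j * c) 1) ^ 2 + 2 * a 1 ^ 2) := by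
        apply sum_le_sum
        intro j _
        have h3 := U_one a φ (c * T + j * c)
        nlinarith [sq_nonneg (E (c * T + j * c) - 2 * U a φ (c * T + j * c) 1)]
    _ = 2 * ∑ j ∈ range T, (E (c * T + j * c) - U a φ (c * T + j * c) 1) ^ 2 + T * (2 * a 1 ^ 2) := by
        rw [sum_add_distrib, ← mul_sum, sum_const, nsmul_eq_mul, card_range]
    _ ≤ 2 * (C * T * (Tw ω 1 + 2)) + T * (2 * a 1 ^ 2) := by
        have h4 : 0 ≤ C * (T : ℝ) := by positivity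
        have h5 := h1.trans (mul_le_mul_of_nonneg_left h2 h4)
        linarith
    _ = (2 * (C * (Tw ω 1 + 2)) + 2 * a 1 ^ 2) * T := by ring

end Run7.h430.TW.Ms
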