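import Pool.Agent.Run7.h430.OT.Win
import Pool.Agent.Run7.h430.TW.Ms
import Pool.Agent.Run7.h430.TW.Count
import Pool.Agent.H383.DivF

set_option autoImplicit false

/-!
# The error terms of the circle problem and of the divisor problem

Both satisfy the hypothesis `Err` of `Run7/h430/OT/Win` (helper430).
-/

namespace Run7.h430.TW

open Finset Filter Topology
open Pool.Agent.H452R2.Win Pool.Agent.H452R2.Om
open Pool.Agent.H383

section circle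

open Pool.Agent.H383.Gauss Pool.Agent.H383.Circ

/-- the number of the points `(x, y)` of `ℤ²` with `x² + y² ≤ n` -/
noncomputable def N (n : ℕ) : ℕ := Nat.card {p : ℤ × ℤ // p.1 ^ 2 + p.2 ^ 2 ≤ (n : ℤ)}

/-- the error term of the circle problem -/
noncomputable def P (n : ℕ) : ℝ := (N n : ℝ) - Real.pi * n

lemma F_sqrt (n : ℕ) : F (√(n : ℝ)) = N n := by
  unfold F N
  congr 1
  apply Nat.card_congr
  refine Equiv.subtypeEquivRight (fun p => ?_)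
  rw [Real.sq_sqrt (Nat.cast_nonneg n)]
  constructor
  · intro h
    exact_mod_cast h
  · intro h
    exact_mod_cast h

lemma F_nat (n : ℕ) : F (n : ℝ) = N (n ^ 2) := by
  rw [← F_sqrt]
  congr 1
  push_cast
  rw [Real.sqrt_sq (Nat.cast_nonneg n)]

lemma P_sq (n : ℕ) (hn : 1 ≤ n) : P n ^ 2 = En (1 * √(n : ℝ)) ^ 2 * √(n : ℝ) := by
  have hn0 : (0 : ℝ) < n := by exact_mod_cast hn
  have hs : 0 < √(n : ℝ) := Real.sqrt_pos.2 hn0
  unfold En P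
  rw [one_mul, F_sqrt, Real.sq_sqrt hn0.le, div_pow, Real.sq_sqrt hs.le, div_mul_cancel₀ _ hs.ne']

lemma circ_ms : ∃ C : ℝ, 0 < C ∧ ∀ X : ℕ, 1 ≤ X → ∑ n ∈ Icc 1 X, En (1 * √(n : ℝ)) ^ 2 ≤ C * X :=
  Ms.ms_sqrt ag_Bdw ag_zero wg_Wt En_SandW one_pos

lemma circ_msR : ∃ C : ℝ, 0 < C ∧ ∀ X : ℕ, 1 ≤ X → ∑ n ∈ Icc 1 X, En (1 * (n : ℝ)) ^ 2 ≤ C * X :=
  Ms.ms_int ag_Bdw ag_zero wg_Wt En_SandW one_pos

lemma N_mono {m n : ℕ} (h : m ≤ n) : N m ≤ N n := by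
  have h1 := F_mono (Real.sqrt_nonneg (m : ℝ)) (Real.sqrt_le_sqrt (by exact_mod_cast h : (m : ℝ) ≤ n))
  rw [F_sqrt, F_sqrt] at h1
  exact_mod_cast h1

theorem err_P : Run7.h430.OT.Err P := by
  constructor
  · obtain ⟨C, hC, h⟩ := circ_ms
    refine ⟨C, hC, fun X hX => ?_⟩
    have hX0 : (0 : ℝ) < X := by exact_mod_cast hX
    calc ∑ n ∈ Icc 1 X, P n ^ 2 ≤ ∑ n ∈ Icc 1 X, En (1 * √(n : ℝ)) ^ 2 * √(X : ℝ) := by
          apply sum_le_sum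
          intro n hn
          rw [mem_Icc] at hn
          rw [P_sq n hn.1]
          apply mul_le_mul_of_nonneg_left _ (sq_nonneg _)
          apply Real.sqrt_le_sqrt
          exact_mod_cast hn.2
      _ = (∑ n ∈ Icc 1 X, En (1 * √(n : ℝ)) ^ 2) * √(X : ℝ) := by rw [sum_mul]
      _ ≤ C * X * √(X : ℝ) := mul_le_mul_of_nonneg_right (h X hX) (Real.sqrt_nonneg _)
      _ = C * (X : ℝ) ^ (3 / 2 : ℝ) := by
          rw [mul_assoc, Real.sqrt_eq_rpow]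
          congr 1
          rw [← Real.rpow_one_add' hX0.le (by norm_num)]
          norm_num
  · refine ⟨4, by norm_num, fun n d hn => ?_⟩
    have h1 : (N n : ℝ) ≤ N (n + d) := by exact_mod_cast N_mono (by omega)
    have hpi := Real.pi_lt_four
    have hpi0 := Real.pi_pos
    unfold P
    push_cast
    have h2 : 0 ≤ Real.log ((n : ℝ) + d) := by
      apply Real.log_nonneg
      have : (1 : ℝ) ≤ n := by exact_mod_cast hn
      have : (0 : ℝ) ≤ d := Nat.cast_nonneg d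
      linarith
    have h3 : (0 : ℝ) ≤ d := Nat.cast_nonneg d
    have h4 : Real.pi * d ≤ 4 * d := by gcongr
    have h5 : 4 * (d : ℝ) ≤ 4 * d * (1 + Real.log ((n : ℝ) + d)) := by
      have : 0 ≤ 4 * (d : ℝ) * Real.log ((n : ℝ) + d) := by positivity
      linarith
    have h6 : Real.pi * ((n : ℝ) + d) = Real.pi * n + Real.pi * d := by ring
    rw [h6]
    linarith

/-- the count of the exceptional `n` for the exponent `1/4 + η` -/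
theorem circ_count (η : ℝ) (hη : 0 < η) (hη1 : 2 * η ≤ 1) (ε : ℝ) (hε : 0 < ε) : ∃ C : ℝ, ∀ X : ℕ, 1 ≤ X →
    ({t : ℕ | 1 ≤ t ∧ t ≤ X ∧ True ∧ ¬ |P t| ≤ (t : ℝ) ^ (1 / 4 + η)}.ncard : ℝ) ≤ C * (X : ℝ) ^ (1 - 2 * η + ε) := by
  obtain ⟨C, hC, h⟩ := circ_ms
  obtain ⟨C', h'⟩ := count_of_mean (fun n => En (1 * √(n : ℝ)) ^ 2) (fun n => sq_nonneg _) hC h
    (β := 2 * η) (by positivity) hη1 hε
  refine ⟨C', fun X hX => le_trans ?_ (h' X hX)⟩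
  have hfin : {t : ℕ | 1 ≤ t ∧ t ≤ X ∧ True ∧ ¬ En (1 * √(t : ℝ)) ^ 2 ≤ (t : ℝ) ^ (2 * η)}.Finite :=
    (Set.finite_Iic X).subset (fun t ht => ht.2.1)
  have hsub : {t : ℕ | 1 ≤ t ∧ t ≤ X ∧ True ∧ ¬ |P t| ≤ (t : ℝ) ^ (1 / 4 + η)} ⊆
      {t : ℕ | 1 ≤ t ∧ t ≤ X ∧ True ∧ ¬ En (1 * √(t : ℝ)) ^ 2 ≤ (t : ℝ) ^ (2 * η)} := by
    rintro t ⟨g1, g2, -, g4⟩
    refine ⟨g1, g2, trivial, fun g5 => g4 ?_⟩
    have ht0 : (0 : ℝ) < t := by exact_mod_cast g1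
    have g6 : P t ^ 2 ≤ ((t : ℝ) ^ (1 / 4 + η)) ^ 2 := by
      rw [P_sq t g1]
      calc En (1 * √(t : ℝ)) ^ 2 * √(t : ℝ) ≤ (t : ℝ) ^ (2 * η) * √(t : ℝ) :=
            mul_le_mul_of_nonneg_right g5 (Real.sqrt_nonneg _)
        _ = ((t : ℝ) ^ (1 / 4 + η)) ^ 2 := by
            rw [Real.sqrt_eq_rpow, ← Real.rpow_add ht0, ← Real.rpow_natCast ((t : ℝ) ^ (1 / 4 + η)), ← Real.rpow_mul ht0.le]
            congr 1
            push_cast
            ring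
    exact abs_le_of_sq_le_sq g6 (by positivity)
  exact_mod_cast Set.ncard_le_ncard hsub hfin

/-- the count of the exceptional integral radii for the exponent `1/2 + η` -/
theorem circ_countR (η : ℝ) (hη : 0 < η) (hη1 : 2 * η ≤ 1) (ε : ℝ) (hε : 0 < ε) : ∃ C : ℝ, ∀ X : ℕ, 1 ≤ X →
    ({t : ℕ | 1 ≤ t ∧ t ≤ X ∧ True ∧ ¬ |P (t ^ 2)| ≤ (t : ℝ) ^ (1 / 2 + η)}.ncard : ℝ) ≤
      C * (X : ℝ) ^ (1 - 2 * η + ε) := by
  obtain ⟨C, hC, h⟩ := circ_msR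
  obtain ⟨C', h'⟩ := count_of_mean (fun n => En (1 * (n : ℝ)) ^ 2) (fun n => sq_nonneg _) hC h
    (β := 2 * η) (by positivity) hη1 hε
  refine ⟨C', fun X hX => le_trans ?_ (h' X hX)⟩
  have hfin : {t : ℕ | 1 ≤ t ∧ t ≤ X ∧ True ∧ ¬ En (1 * (t : ℝ)) ^ 2 ≤ (t : ℝ) ^ (2 * η)}.Finite :=
    (Set.finite_Iic X).subset (fun t ht => ht.2.1)
  have hsub : {t : ℕ | 1 ≤ t ∧ t ≤ X ∧ True ∧ ¬ |P (t ^ 2)| ≤ (t : ℝ) ^ (1 / 2 + η)} ⊆
      {t : ℕ | 1 ≤ t ∧ t ≤ X ∧ True ∧ ¬ En (1 * (t : ℝ)) ^ 2 ≤ (t : ℝ) ^ (2 * η)} := by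
    rintro t ⟨g1, g2, -, g4⟩
    refine ⟨g1, g2, trivial, fun g5 => g4 ?_⟩
    have ht0 : (0 : ℝ) < t := by exact_mod_cast g1
    have e1 : P (t ^ 2) ^ 2 = En (1 * (t : ℝ)) ^ 2 * t := by
      rw [P_sq (t ^ 2) (Nat.one_le_pow _ _ g1)]
      push_cast
      rw [Real.sqrt_sq ht0.le]
    have g6 : P (t ^ 2) ^ 2 ≤ ((t : ℝ) ^ (1 / 2 + η)) ^ 2 := by
      rw [e1]
      calc En (1 * (t : ℝ)) ^ 2 * t ≤ (t : ℝ) ^ (2 * η) * t := mul_le_mul_of_nonneg_right g5 ht0.le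
        _ = ((t : ℝ) ^ (1 / 2 + η)) ^ 2 := by
            rw [← Real.rpow_natCast ((t : ℝ) ^ (1 / 2 + η)), ← Real.rpow_mul ht0.le]
            nth_rewrite 2 [← Real.rpow_one (t : ℝ)]
            rw [← Real.rpow_add ht0]
            congr 1
            push_cast
            ring
    exact abs_le_of_sq_le_sq g6 (by positivity)
  exact_mod_cast Set.ncard_le_ncard hsub hfin

end circle

section divisor

open Pool.Agent.H387R2.Vor
open Pool.Agent.H383.AP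
open Pool.Agent.H383.Div

/-- the error term of the divisor problem at the integers -/
noncomputable def Dl (n : ℕ) : ℝ :=
  ∑ k ∈ Icc 1 n, (k.divisors.card : ℝ) - n * Real.log n - (2 * Real.eulerMascheroniConstant - 1) * n

lemma Del_nat (n : ℕ) : Del (n : ℝ) = Dl n := by
  unfold Del Dl Dsum dv
  rw [Nat.floor_natCast]

lemma Dl_sq (n : ℕ) (hn : 1 ≤ n) : Dl n ^ 2 = E2 (2 * √(n : ℝ)) ^ 2 * √(n : ℝ) := by
  have hn0 : (0 : ℝ) < n := by exact_mod_cast hn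
  have hs : 0 < √(n : ℝ) := Real.sqrt_pos.2 hn0
  have e1 : 2 * √(n : ℝ) / 2 = √(n : ℝ) := by ring
  unfold E2 Ed
  rw [e1, Real.sq_sqrt hn0.le, Del_nat, div_pow, Real.sq_sqrt hs.le, div_mul_cancel₀ _ hs.ne']

lemma div_ms : ∃ C : ℝ, 0 < C ∧ ∀ X : ℕ, 1 ≤ X → ∑ n ∈ Icc 1 X, E2 (2 * √(n : ℝ)) ^ 2 ≤ C * X :=
  Ms.ms_sqrt ad_Bdw2 ad_zero wd_Wt (E2_SandW vor) (by norm_num)

theorem err_D : Run7.h430.OT.Err Dl := by
  constructor
  · obtain ⟨C, hC, h⟩ := div_ms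
    refine ⟨C, hC, fun X hX => ?_⟩
    have hX0 : (0 : ℝ) < X := by exact_mod_cast hX
    calc ∑ n ∈ Icc 1 X, Dl n ^ 2 ≤ ∑ n ∈ Icc 1 X, E2 (2 * √(n : ℝ)) ^ 2 * √(X : ℝ) := by
          apply sum_le_sum
          intro n hn
          rw [mem_Icc] at hn
          rw [Dl_sq n hn.1]
          apply mul_le_mul_of_nonneg_left _ (sq_nonneg _)
          apply Real.sqrt_le_sqrt
          exact_mod_cast hn.2
      _ = (∑ n ∈ Icc 1 X, E2 (2 * √(n : ℝ)) ^ 2) * √(X : ℝ) := by rw [sum_mul]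
      _ ≤ C * X * √(X : ℝ) := mul_le_mul_of_nonneg_right (h X hX) (Real.sqrt_nonneg _)
      _ = C * (X : ℝ) ^ (3 / 2 : ℝ) := by
          rw [mul_assoc, Real.sqrt_eq_rpow]
          congr 1
          rw [← Real.rpow_one_add' hX0.le (by norm_num)]
          norm_num
  · refine ⟨2, by norm_num, fun n d hn => ?_⟩
    have hn1 : (1 : ℝ) ≤ n := by exact_mod_cast hn
    have hn0 : (0 : ℝ) < n := by linarith
    have hd0 : (0 : ℝ) ≤ d := Nat.cast_nonneg d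
    have hnd : (0 : ℝ) < n + d := by linarith
    have h1 : ∑ k ∈ Icc 1 n, (k.divisors.card : ℝ) ≤ ∑ k ∈ Icc 1 (n + d), (k.divisors.card : ℝ) :=
      sum_le_sum_of_subset_of_nonneg (Icc_subset_Icc_right (by omega)) (fun _ _ _ => by positivity)
    have h2 : 0 ≤ Real.log ((n : ℝ) + d) := Real.log_nonneg (by linarith)
    have h3 : ((n : ℝ) + d) * Real.log ((n : ℝ) + d) - n * Real.log n ≤ d * (Real.log ((n : ℝ) + d) + 1) := by
      have e1 : Real.log ((n : ℝ) + d) - Real.log n ≤ d / n := by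
        rw [← Real.log_div hnd.ne' hn0.ne']
        have e2 : ((n : ℝ) + d) / n = 1 + d / n := by field_simp
        rw [e2]
        have e3 : 0 < 1 + (d : ℝ) / n := by positivity
        linarith [Real.log_le_sub_one_of_pos e3]
      have e4 : (n : ℝ) * (Real.log ((n : ℝ) + d) - Real.log n) ≤ d := by
        calc (n : ℝ) * (Real.log ((n : ℝ) + d) - Real.log n) ≤ n * (d / n) := mul_le_mul_of_nonneg_left e1 hn0.le
          _ = d := by field_simp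
      linarith
    have h4 : (2 * Real.eulerMascheroniConstant - 1) * (d : ℝ) ≤ d := by
      have e1 := Real.eulerMascheroniConstant_lt_two_thirds
      nlinarith
    unfold Dl
    push_cast
    have h5 : 2 * (d : ℝ) * (1 + Real.log ((n : ℝ) + d)) = d * (Real.log ((n : ℝ) + d) + 1) + d + d * Real.log ((n : ℝ) + d) := by
      ring
    have h6 : 0 ≤ (d : ℝ) * Real.log ((n : ℝ) + d) := by positivity
    rw [h5]
    linarith

theorem div_count (η : ℝ) (hη : 0 < η) (hη1 : 2 * η ≤ 1) (ε : ℝ) (hε : 0 < ε) : ∃ C : ℝ, ∀ X : ℕ, 1 ≤ X →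
    ({t : ℕ | 1 ≤ t ∧ t ≤ X ∧ True ∧ ¬ |Dl t| ≤ (t : ℝ) ^ (1 / 4 + η)}.ncard : ℝ) ≤ C * (X : ℝ) ^ (1 - 2 * η + ε) := by
  obtain ⟨C, hC, h⟩ := div_ms
  obtain ⟨C', h'⟩ := count_of_mean (fun n => E2 (2 * √(n : ℝ)) ^ 2) (fun n => sq_nonneg _) hC h
    (β := 2 * η) (by positivity) hη1 hε
  refine ⟨C', fun X hX => le_trans ?_ (h' X hX)⟩
  have hfin : {t : ℕ | 1 ≤ t ∧ t ≤ X ∧ True ∧ ¬ E2 (2 * √(t : ℝ)) ^ 2 ≤ (t : ℝ) ^ (2 * η)}.Finite :=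
    (Set.finite_Iic X).subset (fun t ht => ht.2.1)
  have hsub : {t : ℕ | 1 ≤ t ∧ t ≤ X ∧ True ∧ ¬ |Dl t| ≤ (t : ℝ) ^ (1 / 4 + η)} ⊆
      {t : ℕ | 1 ≤ t ∧ t ≤ X ∧ True ∧ ¬ E2 (2 * √(t : ℝ)) ^ 2 ≤ (t : ℝ) ^ (2 * η)} := by
    rintro t ⟨g1, g2, -, g4⟩
    refine ⟨g1, g2, trivial, fun g5 => g4 ?_⟩
    have ht0 : (0 : ℝ) < t := by exact_mod_cast g1
    have g6 : Dl t ^ 2 ≤ ((t : ℝ) ^ (1 / 4 + η)) ^ 2 := by
      rw [Dl_sq t g1]
      calc E2 (2 * √(t : ℝ)) ^ 2 * √(t : ℝ) ≤ (t : ℝ) ^ (2 * η) * √(t : ℝ) :=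
            mul_le_mul_of_nonneg_right g5 (Real.sqrt_nonneg _)
        _ = ((t : ℝ) ^ (1 / 4 + η)) ^ 2 := by
            rw [Real.sqrt_eq_rpow, ← Real.rpow_add ht0, ← Real.rpow_natCast ((t : ℝ) ^ (1 / 4 + η)), ← Real.rpow_mul ht0.le]
            congr 1
            push_cast
            ring
    exact abs_le_of_sq_le_sq g6 (by positivity)
  exact_mod_cast Set.ncard_le_ncard hsub hfin

end divisor

end Run7.h430.TW
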