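import Mathlib

set_option autoImplicit false

/-!
# The 3x+1 map: numbers which enter a cycle soon, numbers whose trajectories stay high

Counts with power savings, uniformly in the exponents (helper430). The two inputs `Tail` and `Cyc` are theorems of the
starting files.
-/

namespace Run7.h430.TW.Coll

open Finset Classical Filter Topology

/-- The 3x+1 map on the integers. -/
def T (x : ℤ) : ℤ := if x % 2 = 0 then x / 2 else (3 * x + 1) / 2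

/-- `x` lies on a cycle of `T`. -/
def OnCycle (x : ℤ) : Prop := ∃ p : ℕ, 1 ≤ p ∧ T^[p] x = x

def Tail : Prop := ∃ A : ℝ, 0 < A ∧ ∀ X y : ℝ, 1 ≤ X → 1 ≤ y →
    ({x : ℤ | |(x : ℝ)| ≤ X ∧ ∀ n : ℕ, y < |((T^[n] x : ℤ) : ℝ)|}.ncard : ℝ) ≤ A * X / y ^ (6 / 100 : ℝ)

def Cyc : Prop := ∃ C : ℝ, 0 < C ∧ ∀ R : ℝ, 1 ≤ R → ∀ F : Finset ℤ, (∀ x ∈ F, OnCycle x ∧ |(x : ℝ)| ≤ R) →
    (F.card : ℝ) ≤ C * R ^ (94 / 100 : ℝ)

lemma T_abs (x : ℤ) : 2 * |T x| ≤ 3 * |x| + 1 := by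
  unfold T
  split_ifs with h
  · rcases abs_cases x with ⟨h1, h2⟩ | ⟨h1, h2⟩ <;> rcases abs_cases (x / 2) with ⟨h3, h4⟩ | ⟨h3, h4⟩ <;> omega
  · rcases abs_cases x with ⟨h1, h2⟩ | ⟨h1, h2⟩ <;> rcases abs_cases ((3 * x + 1) / 2) with ⟨h3, h4⟩ | ⟨h3, h4⟩ <;> omega

lemma Ti_abs (i : ℕ) (x : ℤ) : |((T^[i] x : ℤ) : ℝ)| + 1 ≤ (3 / 2) ^ i * (|(x : ℝ)| + 1) := by
  induction i generalizing x with
  | zero => simp
  | succ i ih =>
    rw [Function.iterate_succ_apply]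
    have h1 := ih (T x)
    have h2 : (2 : ℝ) * |((T x : ℤ) : ℝ)| ≤ 3 * |(x : ℝ)| + 1 := by exact_mod_cast T_abs x
    calc |((T^[i] (T x) : ℤ) : ℝ)| + 1 ≤ (3 / 2) ^ i * (|((T x : ℤ) : ℝ)| + 1) := h1
      _ ≤ (3 / 2) ^ i * ((3 / 2) * (|(x : ℝ)| + 1)) := mul_le_mul_of_nonneg_left (by linarith) (by positivity)
      _ = (3 / 2) ^ (i + 1) * (|(x : ℝ)| + 1) := by ring

lemma fiber (y : ℤ) (S : Finset ℤ) : (S.filter (fun x => T x = y)).card ≤ 2 := by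
  have h1 : S.filter (fun x => T x = y) ⊆ {2 * y, (2 * y - 1) / 3} := by
    intro x hx
    rw [mem_filter] at hx
    rw [mem_insert, mem_singleton]
    have h2 := hx.2
    unfold T at h2
    split_ifs at h2 with h3
    · left; omega
    · right; omega
  exact (card_le_card h1).trans card_le_two

lemma card_pre (i : ℕ) (S U : Finset ℤ) (h : ∀ x ∈ S, T^[i] x ∈ U) : S.card ≤ 2 ^ i * U.card := by
  induction i generalizing S with
  | zero =>
    rw [pow_zero, one_mul]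
    exact card_le_card (fun x hx => by simpa using h x hx)
  | succ i ih =>
    have h1 : S.card ≤ 2 * (S.image T).card := by
      apply card_le_mul_card_image
      intro a _
      exact fiber a S
    have h2 := ih (S.image T) (by
      intro y hy
      rw [mem_image] at hy
      obtain ⟨x, hx, rfl⟩ := hy
      rw [← Function.iterate_succ_apply]
      exact h x hx)
    calc S.card ≤ 2 * (S.image T).card := h1
      _ ≤ 2 * (2 ^ i * U.card) := by omega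
      _ = 2 ^ (i + 1) * U.card := by ring

lemma fin_box (X : ℝ) (P : ℤ → Prop) : {x : ℤ | P x ∧ |(x : ℝ)| ≤ X}.Finite := by
  apply (Set.finite_Icc (-⌈X⌉) ⌈X⌉).subset
  rintro x ⟨-, hx⟩
  have h1 := abs_le.1 hx
  have h2 := Int.le_ceil X
  rw [Set.mem_Icc]
  constructor
  · have : (-(⌈X⌉ : ℤ) : ℝ) ≤ x := by linarith
    exact_mod_cast this
  · have : (x : ℝ) ≤ (⌈X⌉ : ℤ) := by linarith
    exact_mod_cast this

/-- `log X + 2 ≤ C X ^ ε` -/
lemma log_bound (ε : ℝ) (hε : 0 < ε) (ρ : ℝ) (hρ : 0 ≤ ρ) : ∃ C : ℝ, 0 < C ∧ ∀ X : ℝ, 1 ≤ X → ρ * Real.log X + 2 ≤ C * X ^ ε := by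
  refine ⟨ρ / ε + 2, by positivity, fun X hX => ?_⟩
  have h1 := Real.log_le_rpow_div (by linarith : (0 : ℝ) ≤ X) hε
  have h2 : 1 ≤ X ^ ε := Real.one_le_rpow hX hε.le
  calc ρ * Real.log X + 2 ≤ ρ * (X ^ ε / ε) + 2 * X ^ ε := by
        have := mul_le_mul_of_nonneg_left h1 hρ
        linarith
    _ = (ρ / ε + 2) * X ^ ε := by ring

/-- the integers entering a cycle within `ρ log |x|` steps -/
theorem count_cyc (hC : Cyc) (ρ : ℝ) (hρ : 0 ≤ ρ) (ε : ℝ) (hε : 0 < ε) : ∃ C : ℝ, ∀ X : ℝ, 1 ≤ X →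
    {x : ℤ | (∃ i : ℕ, (i : ℝ) ≤ ρ * Real.log |(x : ℝ)| ∧ OnCycle (T^[i] x)) ∧ |(x : ℝ)| ≤ X}.Finite ∧
    ({x : ℤ | (∃ i : ℕ, (i : ℝ) ≤ ρ * Real.log |(x : ℝ)| ∧ OnCycle (T^[i] x)) ∧ |(x : ℝ)| ≤ X}.ncard : ℝ) ≤
      C * X ^ (94 / 100 + 108 / 100 * ρ + ε) := by
  obtain ⟨C, hC0, hC⟩ := hC
  obtain ⟨C', hC'0, hC'⟩ := log_bound ε hε ρ hρ
  refine ⟨C' * (C * 2), fun X hX => ⟨fin_box X _, ?_⟩⟩
  have hX0 : 0 < X := by linarith
  have hlX : 0 ≤ Real.log X := Real.log_nonneg hX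
  obtain ⟨F, hF⟩ : ∃ F : Finset ℤ, F = (fin_box X (fun x : ℤ =>
    ∃ i : ℕ, (i : ℝ) ≤ ρ * Real.log |(x : ℝ)| ∧ OnCycle (T^[i] x))).toFinset := ⟨_, rfl⟩
  have hFn : {x : ℤ | (∃ i : ℕ, (i : ℝ) ≤ ρ * Real.log |(x : ℝ)| ∧ OnCycle (T^[i] x)) ∧ |(x : ℝ)| ≤ X}.ncard = F.card := by
    rw [hF, Set.ncard_eq_toFinset_card _ (fin_box X _)]
  rw [hFn]
  have hFm : ∀ x ∈ F, (∃ i : ℕ, (i : ℝ) ≤ ρ * Real.log |(x : ℝ)| ∧ OnCycle (T^[i] x)) ∧ |(x : ℝ)| ≤ X := by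
    intro x hx
    rw [hF, Set.Finite.mem_toFinset] at hx
    exact hx
  obtain ⟨I, hI⟩ : ∃ I : ℕ, I = ⌊ρ * Real.log X⌋₊ := ⟨_, rfl⟩
  have hI1 : (I : ℝ) ≤ ρ * Real.log X := by
    rw [hI]
    exact Nat.floor_le (by positivity)
  have hpow : ∀ b : ℝ, 1 ≤ b → ∀ i : ℕ, i ≤ I → b ^ i ≤ X ^ (ρ * Real.log b) := by
    intro b hb i hi
    rw [Real.rpow_def_of_pos hX0, ← Real.rpow_natCast, Real.rpow_def_of_pos (by linarith)]
    apply Real.exp_le_exp.2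
    have h4 : 0 ≤ Real.log b := Real.log_nonneg hb
    have h5 : (i : ℝ) ≤ ρ * Real.log X := le_trans (by exact_mod_cast hi) hI1
    calc Real.log b * (i : ℝ) ≤ Real.log b * (ρ * Real.log X) := by gcongr
      _ = Real.log X * (ρ * Real.log b) := by ring
  have hlog2 := Real.log_two_lt_d9
  have hlog32 : Real.log (3 / 2 : ℝ) ≤ 0.411 := by
    have h1 : Real.log (3 / 2 : ℝ) = Real.log 3 - Real.log 2 := Real.log_div (by norm_num) (by norm_num)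
    have h2 := Real.log_two_gt_d9
    have h3 : Real.log 3 ≤ 1.104 := by
      rw [Real.log_le_iff_le_exp (by norm_num)]
      have h4 : (3 : ℝ) ≤ 2.7182818283 * (1 + 0.104 + 0.104 ^ 2 / 2) := by norm_num
      have h5 := Real.exp_one_gt_d9
      have h6 : (1 + 0.104 + 0.104 ^ 2 / 2 : ℝ) ≤ Real.exp 0.104 := Real.quadratic_le_exp_of_nonneg (by norm_num)
      have h7 : Real.exp 1.104 = Real.exp 1 * Real.exp 0.104 := by
        rw [← Real.exp_add]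
        norm_num
      rw [h7]
      refine h4.trans ?_
      gcongr
    rw [h1]
    linarith
  have hFi : ∀ i ∈ range (I + 1), ((F.filter (fun x : ℤ => OnCycle (T^[i] x))).card : ℝ) ≤
      C * 2 * X ^ (94 / 100 + 108 / 100 * ρ) := by
    intro i hi
    rw [mem_range] at hi
    obtain ⟨G, hG⟩ : ∃ G, G = F.filter (fun x : ℤ => OnCycle (T^[i] x)) := ⟨_, rfl⟩
    rw [← hG]
    obtain ⟨U, hU⟩ : ∃ U : Finset ℤ, U = G.image (fun x => T^[i] x) := ⟨_, rfl⟩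
    have hUc : (U.card : ℝ) ≤ C * ((3 / 2 : ℝ) ^ i * (2 * X)) ^ (94 / 100 : ℝ) := by
      apply hC
      · have : (1 : ℝ) ≤ (3 / 2) ^ i := one_le_pow₀ (by norm_num)
        nlinarith
      · intro y hy
        rw [hU, mem_image] at hy
        obtain ⟨x, hx, rfl⟩ := hy
        rw [hG, mem_filter] at hx
        refine ⟨hx.2, ?_⟩
        have q3 := Ti_abs i x
        have q4 := (hFm x hx.1).2
        have q5 : (3 / 2 : ℝ) ^ i * (|(x : ℝ)| + 1) ≤ (3 / 2) ^ i * (2 * X) :=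
          mul_le_mul_of_nonneg_left (by linarith) (by positivity)
        linarith
    have hcp := card_pre i G U (by
      intro x hx
      rw [hU]
      exact mem_image_of_mem _ hx)
    have h2i := hpow 2 (by norm_num) i (by omega)
    have h3i := hpow (3 / 2) (by norm_num) i (by omega)
    calc (G.card : ℝ) ≤ ((2 ^ i * U.card : ℕ) : ℝ) := by exact_mod_cast hcp
      _ = 2 ^ i * (U.card : ℝ) := by push_cast; ring
      _ ≤ X ^ (ρ * Real.log 2) * (C * (X ^ (ρ * Real.log (3 / 2)) * (2 * X)) ^ (94 / 100 : ℝ)) := by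
          apply mul_le_mul h2i _ (by positivity) (by positivity)
          refine hUc.trans ?_
          gcongr
      _ = C * (2 : ℝ) ^ (94 / 100 : ℝ) * X ^ (ρ * Real.log 2 + (ρ * Real.log (3 / 2) + 1) * (94 / 100) : ℝ) := by
          have e1 : X ^ (ρ * Real.log (3 / 2)) * (2 * X) = 2 * X ^ (ρ * Real.log (3 / 2) + 1) := by
            rw [Real.rpow_add hX0, Real.rpow_one]
            ring
          rw [e1, Real.mul_rpow (by norm_num) (by positivity), ← Real.rpow_mul hX0.le, Real.rpow_add hX0 (ρ * Real.log 2)]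
          ring
      _ ≤ C * (2 : ℝ) ^ (1 : ℝ) * X ^ (94 / 100 + 108 / 100 * ρ) := by
          apply mul_le_mul _ _ (by positivity) (by positivity)
          · apply mul_le_mul_of_nonneg_left _ hC0.le
            exact Real.rpow_le_rpow_of_exponent_le (by norm_num) (by norm_num)
          · apply Real.rpow_le_rpow_of_exponent_le hX
            nlinarith
      _ = C * 2 * X ^ (94 / 100 + 108 / 100 * ρ) := by rw [Real.rpow_one]
  have hsub : F ⊆ (range (I + 1)).biUnion (fun i => F.filter (fun x : ℤ => OnCycle (T^[i] x))) := by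
    intro x hx
    obtain ⟨⟨i, q3, q4⟩, q2⟩ := hFm x hx
    rw [mem_biUnion]
    refine ⟨i, ?_, mem_filter.2 ⟨hx, q4⟩⟩
    rw [mem_range]
    have q6 : i ≤ I := by
      rw [hI]
      apply Nat.le_floor
      refine q3.trans (mul_le_mul_of_nonneg_left ?_ hρ)
      rcases eq_or_ne |(x : ℝ)| 0 with h0 | h0
      · rw [h0, Real.log_zero]
        exact hlX
      · exact Real.log_le_log (lt_of_le_of_ne (abs_nonneg _) (Ne.symm h0)) q2
    omega
  calc (F.card : ℝ) ≤ (((range (I + 1)).biUnion (fun i => F.filter (fun x : ℤ => OnCycle (T^[i] x)))).card : ℝ) := by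
        exact_mod_cast card_le_card hsub
    _ ≤ ∑ i ∈ range (I + 1), ((F.filter (fun x : ℤ => OnCycle (T^[i] x))).card : ℝ) := by
        exact_mod_cast card_biUnion_le
    _ ≤ ∑ i ∈ range (I + 1), C * 2 * X ^ (94 / 100 + 108 / 100 * ρ) := sum_le_sum hFi
    _ = ((I : ℝ) + 1) * (C * 2 * X ^ (94 / 100 + 108 / 100 * ρ)) := by
        rw [sum_const, card_range, nsmul_eq_mul]
        push_cast
        ring
    _ ≤ (C' * X ^ ε) * (C * 2 * X ^ (94 / 100 + 108 / 100 * ρ)) := by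
        apply mul_le_mul_of_nonneg_right _ (by positivity)
        have := hC' X hX
        linarith
    _ = C' * (C * 2) * X ^ (94 / 100 + 108 / 100 * ρ + ε) := by
        rw [Real.rpow_add hX0 _ ε]
        ring

/-- the integers whose trajectory stays above `|x| ^ δ` -/
theorem count_tail (hT : Tail) (δ : ℝ) (hδ : 0 < δ) (hδ1 : δ ≤ 1) (ε : ℝ) (hε : 0 < ε) : ∃ C : ℝ, ∀ X : ℝ, 1 ≤ X →
    {x : ℤ | (∀ i : ℕ, |(x : ℝ)| ^ δ < |((T^[i] x : ℤ) : ℝ)|) ∧ |(x : ℝ)| ≤ X}.Finite ∧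
    ({x : ℤ | (∀ i : ℕ, |(x : ℝ)| ^ δ < |((T^[i] x : ℤ) : ℝ)|) ∧ |(x : ℝ)| ≤ X}.ncard : ℝ) ≤
      C * X ^ (1 - 6 / 100 * δ + ε) := by
  obtain ⟨A, hA0, hA⟩ := hT
  obtain ⟨C', hC'0, hC'⟩ := log_bound ε hε (1 / Real.log 2) (by
    have := Real.log_pos (by norm_num : (1 : ℝ) < 2)
    positivity)
  refine ⟨C' * (2 * A + 1), fun X hX => ⟨fin_box X _, ?_⟩⟩
  have hX0 : 0 < X := by linarith
  have hlX : 0 ≤ Real.log X := Real.log_nonneg hX
  have hlog2 : 0 < Real.log 2 := Real.log_pos (by norm_num)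
  obtain ⟨F, hF⟩ : ∃ F : Finset ℤ, F = (fin_box X (fun x : ℤ =>
    ∀ i : ℕ, |(x : ℝ)| ^ δ < |((T^[i] x : ℤ) : ℝ)|)).toFinset := ⟨_, rfl⟩
  have hFn : {x : ℤ | (∀ i : ℕ, |(x : ℝ)| ^ δ < |((T^[i] x : ℤ) : ℝ)|) ∧ |(x : ℝ)| ≤ X}.ncard = F.card := by
    rw [hF, Set.ncard_eq_toFinset_card _ (fin_box X _)]
  rw [hFn]
  have hFm : ∀ x ∈ F, (∀ i : ℕ, |(x : ℝ)| ^ δ < |((T^[i] x : ℤ) : ℝ)|) ∧ |(x : ℝ)| ≤ X := by
    intro x hx
    rw [hF, Set.Finite.mem_toFinset] at hx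
    exact hx
  obtain ⟨J, hJ⟩ : ∃ J : ℕ, J = Nat.log 2 ⌊X⌋₊ := ⟨_, rfl⟩
  have hXf : 1 ≤ ⌊X⌋₊ := Nat.le_floor (by exact_mod_cast hX)
  have h2J : (2 : ℝ) ^ J ≤ X := by
    have h1 : 2 ^ J ≤ ⌊X⌋₊ := by
      rw [hJ]
      exact Nat.pow_log_le_self 2 (by omega)
    calc (2 : ℝ) ^ J = ((2 ^ J : ℕ) : ℝ) := by push_cast; rfl
      _ ≤ (⌊X⌋₊ : ℝ) := by exact_mod_cast h1
      _ ≤ X := Nat.floor_le hX0.le
  have hs : 0 ≤ 1 - 6 / 100 * δ := by linarith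
  have hFj : ∀ j ∈ range (J + 1), ((F.filter (fun x : ℤ => 2 ^ j ≤ x.natAbs ∧ x.natAbs < 2 ^ (j + 1))).card : ℝ) ≤
      2 * A * X ^ (1 - 6 / 100 * δ) := by
    intro j hj
    rw [mem_range] at hj
    have h2j : (2 : ℝ) ^ j ≤ X := (pow_le_pow_right₀ (by norm_num) (by omega)).trans h2J
    have h1 := hA ((2 : ℝ) ^ (j + 1)) (((2 : ℝ) ^ j) ^ δ) (one_le_pow₀ (by norm_num))
      (Real.one_le_rpow (one_le_pow₀ (by norm_num)) hδ.le)
    have h3 : (((F.filter (fun x : ℤ => 2 ^ j ≤ x.natAbs ∧ x.natAbs < 2 ^ (j + 1)) : Finset ℤ)) : Set ℤ) ⊆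
        {x : ℤ | |(x : ℝ)| ≤ (2 : ℝ) ^ (j + 1) ∧ ∀ n : ℕ, ((2 : ℝ) ^ j) ^ δ < |((T^[n] x : ℤ) : ℝ)|} := by
      intro x hx
      rw [mem_coe, mem_filter] at hx
      obtain ⟨q1, q2, q3⟩ := hx
      obtain ⟨q4, q5⟩ := hFm x q1
      have e1 : ((x.natAbs : ℕ) : ℝ) = |(x : ℝ)| := by
        rw [Nat.cast_natAbs, Int.cast_abs]
      refine ⟨?_, fun n => lt_of_le_of_lt ?_ (q4 n)⟩
      · rw [← e1]
        exact_mod_cast q3.le
      · apply Real.rpow_le_rpow (by positivity) _ hδ.le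
        rw [← e1]
        exact_mod_cast q2
    have hfin : {x : ℤ | |(x : ℝ)| ≤ (2 : ℝ) ^ (j + 1) ∧ ∀ n : ℕ, ((2 : ℝ) ^ j) ^ δ < |((T^[n] x : ℤ) : ℝ)|}.Finite := by
      apply (fin_box ((2 : ℝ) ^ (j + 1)) (fun x => ∀ n : ℕ, ((2 : ℝ) ^ j) ^ δ < |((T^[n] x : ℤ) : ℝ)|)).subset
      rintro x ⟨g1, g2⟩
      exact ⟨g2, g1⟩
    have h4 := Set.ncard_le_ncard h3 hfin
    rw [Set.ncard_coe_finset] at h4
    calc ((F.filter (fun x : ℤ => 2 ^ j ≤ x.natAbs ∧ x.natAbs < 2 ^ (j + 1))).card : ℝ) ≤ _ := by exact_mod_cast h4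
      _ ≤ A * (2 : ℝ) ^ (j + 1) / (((2 : ℝ) ^ j) ^ δ) ^ (6 / 100 : ℝ) := h1
      _ = 2 * A * ((2 : ℝ) ^ j) ^ (1 - 6 / 100 * δ) := by
          have h2j0 : (0 : ℝ) < 2 ^ j := by positivity
          rw [← Real.rpow_mul h2j0.le, pow_succ, Real.rpow_sub h2j0, Real.rpow_one]
          have e1 : δ * (6 / 100 : ℝ) = 6 / 100 * δ := by ring
          rw [e1]
          ring
      _ ≤ 2 * A * X ^ (1 - 6 / 100 * δ) := by gcongr
  have hsub : F ⊆ insert 0 ((range (J + 1)).biUnion (fun j =>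
      F.filter (fun x : ℤ => 2 ^ j ≤ x.natAbs ∧ x.natAbs < 2 ^ (j + 1)))) := by
    intro x hx
    rw [mem_insert]
    rcases eq_or_ne x 0 with h0 | h0
    · left; exact h0
    · right
      rw [mem_biUnion]
      refine ⟨Nat.log 2 x.natAbs, ?_, mem_filter.2 ⟨hx, Nat.pow_log_le_self 2 (by omega),
        Nat.lt_pow_succ_log_self (by norm_num) _⟩⟩
      rw [mem_range, hJ, Nat.lt_succ_iff]
      apply Nat.log_mono_right
      apply Nat.le_floor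
      rw [Nat.cast_natAbs, Int.cast_abs]
      exact (hFm x hx).2
  have hJ1 : (J : ℝ) ≤ 1 / Real.log 2 * Real.log X := by
    rw [div_mul_eq_mul_div, one_mul, le_div_iff₀ hlog2]
    have h5 := Real.log_le_log (by positivity) h2J
    rw [Real.log_pow] at h5
    exact h5
  have hX1 : 1 ≤ X ^ (1 - 6 / 100 * δ) := Real.one_le_rpow hX hs
  calc (F.card : ℝ) ≤ ((insert 0 ((range (J + 1)).biUnion (fun j =>
      F.filter (fun x : ℤ => 2 ^ j ≤ x.natAbs ∧ x.natAbs < 2 ^ (j + 1)))) : Finset ℤ).card : ℝ) := by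
        exact_mod_cast card_le_card hsub
    _ ≤ (((range (J + 1)).biUnion (fun j =>
      F.filter (fun x : ℤ => 2 ^ j ≤ x.natAbs ∧ x.natAbs < 2 ^ (j + 1)))).card : ℝ) + 1 := by
        exact_mod_cast card_insert_le _ _
    _ ≤ ∑ j ∈ range (J + 1), ((F.filter (fun x : ℤ => 2 ^ j ≤ x.natAbs ∧ x.natAbs < 2 ^ (j + 1))).card : ℝ) + 1 := by
        have h6 : (((range (J + 1)).biUnion (fun j =>
          F.filter (fun x : ℤ => 2 ^ j ≤ x.natAbs ∧ x.natAbs < 2 ^ (j + 1)))).card : ℝ) ≤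
          ∑ j ∈ range (J + 1), ((F.filter (fun x : ℤ => 2 ^ j ≤ x.natAbs ∧ x.natAbs < 2 ^ (j + 1))).card : ℝ) := by
            exact_mod_cast card_biUnion_le
        linarith
    _ ≤ ∑ j ∈ range (J + 1), 2 * A * X ^ (1 - 6 / 100 * δ) + 1 := by linarith [sum_le_sum hFj]
    _ = ((J : ℝ) + 1) * (2 * A * X ^ (1 - 6 / 100 * δ)) + 1 := by
        rw [sum_const, card_range, nsmul_eq_mul]
        push_cast
        ring
    _ ≤ (C' * X ^ ε) * ((2 * A + 1) * X ^ (1 - 6 / 100 * δ)) := by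
        have h7 := hC' X hX
        have h8 : (J : ℝ) + 2 ≤ C' * X ^ ε := by linarith
        have h9 : 0 ≤ 2 * A * X ^ (1 - 6 / 100 * δ) := by positivity
        have hJ0 : (0 : ℝ) ≤ J := Nat.cast_nonneg J
        have h10 : ((J : ℝ) + 1) * (2 * A * X ^ (1 - 6 / 100 * δ)) + 1 ≤ ((J : ℝ) + 2) * ((2 * A + 1) * X ^ (1 - 6 / 100 * δ)) := by
          nlinarith
        exact h10.trans (mul_le_mul_of_nonneg_right h8 (by positivity))
    _ = C' * (2 * A + 1) * X ^ (1 - 6 / 100 * δ + ε) := by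
        rw [Real.rpow_add hX0 _ ε]
        ring

end Run7.h430.TW.Coll
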