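import Pool.Agent.R437.FC.Count
import Pool.Agent.TH863.Cover

set_option autoImplicit false

/-!
# The Fermat-Catalan equation: thin sets of divisors and of bases (helper430)
-/

namespace Run7.h430.TW.FC

open Finset Filter Topology
open Pool.Agent.R437.FC (Hit count fin_le)

/-- The theorem of Darmon and Granville for the equation `x ^ p + y ^ q = z ^ r` with fixed exponents. -/
def DarmonGranville : Prop :=
  ∀ p q r : ℕ, 2 ≤ p → 2 ≤ q → 2 ≤ r → (1 : ℚ) / p + 1 / q + 1 / r < 1 →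
    {u : ℕ × ℕ × ℕ | 0 < u.1 ∧ 0 < u.2.1 ∧ 0 < u.2.2 ∧ Nat.gcd u.1 (Nat.gcd u.2.1 u.2.2) = 1 ∧
      u.1 ^ p + u.2.1 ^ q = u.2.2 ^ r}.Finite

/-- the values of the solutions with bounded exponents are bounded -/
theorem bounded_exponents (hDG : DarmonGranville) (R : ℕ) : ∃ B : ℕ,
    ∀ x y z p q r : ℕ, 0 < x → 0 < y → 0 < z → Nat.gcd x (Nat.gcd y z) = 1 →
    2 ≤ p → 2 ≤ q → 2 ≤ r → (1 : ℚ) / p + 1 / q + 1 / r < 1 → p < R → q < R → r < R →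
      x ^ p + y ^ q = z ^ r → x ^ p * y ^ q * z ^ r ≤ B := by
  classical
  have hfin : (⋃ w ∈ (range R ×ˢ range R ×ˢ range R : Finset (ℕ × ℕ × ℕ)),
      (fun u : ℕ × ℕ × ℕ => u.1 ^ w.1 * u.2.1 ^ w.2.1 * u.2.2 ^ w.2.2) ''
      {u : ℕ × ℕ × ℕ | (2 ≤ w.1 ∧ 2 ≤ w.2.1 ∧ 2 ≤ w.2.2 ∧
          (1 : ℚ) / w.1 + 1 / w.2.1 + 1 / w.2.2 < 1) ∧
        0 < u.1 ∧ 0 < u.2.1 ∧ 0 < u.2.2 ∧ Nat.gcd u.1 (Nat.gcd u.2.1 u.2.2) = 1 ∧
        u.1 ^ w.1 + u.2.1 ^ w.2.1 = u.2.2 ^ w.2.2}).Finite := by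
    refine Set.Finite.biUnion (Finset.finite_toSet _) fun w _ => Set.Finite.image _ ?_
    by_cases h : 2 ≤ w.1 ∧ 2 ≤ w.2.1 ∧ 2 ≤ w.2.2 ∧ (1 : ℚ) / w.1 + 1 / w.2.1 + 1 / w.2.2 < 1
    · exact (hDG w.1 w.2.1 w.2.2 h.1 h.2.1 h.2.2.1 h.2.2.2).subset fun u hu => hu.2
    · convert Set.finite_empty
      ext u
      simp only [Set.mem_ofPred_eq, Set.mem_empty_iff_false, iff_false]
      exact fun hu => h hu.1
  obtain ⟨B, hB⟩ := hfin.bddAbove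
  refine ⟨B, fun x y z p q r hx hy hz hg hp hq hr hpqr hpR hqR hrR he => ?_⟩
  apply hB
  simp only [Set.mem_iUnion]
  exact ⟨(p, q, r), by simp [hpR, hqR, hrR], (x, y, z), ⟨⟨hp, hq, hr, hpqr⟩, hx, hy, hz, hg, he⟩, rfl⟩

/-- `D` divides the product of the terms of a coprime solution `x ^ p + y ^ q = z ^ r ≤ D ^ A`, `1/p + 1/q + 1/r < 1` -/
def DividesSolution (A : ℝ) (D : ℕ) : Prop :=
  ∃ x y z p q r : ℕ, 0 < x ∧ 0 < y ∧ 0 < z ∧ Nat.gcd x (Nat.gcd y z) = 1 ∧ 2 ≤ p ∧ 2 ≤ q ∧ 2 ≤ r ∧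
    (1 : ℚ) / p + 1 / q + 1 / r < 1 ∧ x ^ p + y ^ q = z ^ r ∧ D ∣ x ^ p * y ^ q * z ^ r ∧ ((z ^ r : ℕ) : ℝ) ≤ (D : ℝ) ^ A

theorem divides_cases (hDG : DarmonGranville) (R : ℕ) : ∃ B : ℕ, ∀ A : ℝ, ∀ D : ℕ, 1 ≤ D → DividesSolution A D →
    Hit R A D ∨ D ≤ B := by
  obtain ⟨B, hB⟩ := bounded_exponents hDG R
  refine ⟨B, fun A D hD1 hD => ?_⟩
  obtain ⟨x, y, z, p, q, r, hx, hy, hz, hg, hp, hq, hr, hpqr, he, hdvd, hle⟩ := hD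
  by_cases h : p < R ∧ q < R ∧ r < R
  · right
    have h1 := hB x y z p q r hx hy hz hg hp hq hr hpqr h.1 h.2.1 h.2.2 he
    exact (Nat.le_of_dvd (by positivity) hdvd).trans h1
  · left
    have hrad : ((Pool.Agent.W232.FC.rad 1 : ℕ) : ℝ) ≤ (D : ℝ) ^ (1 / (R : ℝ)) := by
      have e1 : Pool.Agent.W232.FC.rad 1 = 1 := by simp [Pool.Agent.W232.FC.rad]
      rw [e1, Nat.cast_one]
      exact Real.one_le_rpow (by exact_mod_cast hD1) (by positivity)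
    refine ⟨1, 1, 1, x, y, z, p, q, r, ⟨one_pos, one_pos, one_pos, hx, hy, hz⟩, ⟨hp, hq, hr⟩, by omega,
      ⟨hrad, hrad, hrad⟩, ?_, ?_, ?_⟩
    · rw [one_mul, one_mul, one_mul]; exact he
    · rw [one_mul, one_mul, one_mul]; exact hdvd
    · rw [one_mul]; exact hle

theorem hit_count {A : ℝ} (hA : 0 < A) {s : ℝ} (hs : 0 < s) : ∃ R : ℕ, 1 ≤ R ∧ ∀ B : ℕ, ∀ ε : ℝ, 0 < ε → ∃ C : ℝ,
    ∀ X : ℝ, 1 ≤ X → {D : ℕ | (Hit R A D ∨ D ≤ B) ∧ (D : ℝ) ≤ X}.Finite ∧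
      ({D : ℕ | (Hit R A D ∨ D ≤ B) ∧ (D : ℝ) ≤ X}.ncard : ℝ) ≤ C * X ^ (s + ε) := by
  obtain ⟨R, hR, C, hC, h⟩ := count A s hA hs
  refine ⟨R, hR, fun B ε hε => ⟨C + (B + 1), fun X hX => ⟨fin_le _ X, ?_⟩⟩⟩
  have h1 := h X hX
  have hsub : {D : ℕ | (Hit R A D ∨ D ≤ B) ∧ (D : ℝ) ≤ X} ⊆ {D : ℕ | Hit R A D ∧ (D : ℝ) ≤ X} ∪ Set.Iic B := by
    rintro D ⟨h2 | h2, h3⟩
    · exact Or.inl ⟨h2, h3⟩
    · exact Or.inr h2
  have hfin : ({D : ℕ | Hit R A D ∧ (D : ℝ) ≤ X} ∪ Set.Iic B).Finite := (fin_le _ X).union (Set.finite_Iic B)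
  have h2 : (({D : ℕ | (Hit R A D ∨ D ≤ B) ∧ (D : ℝ) ≤ X}.ncard : ℕ) : ℝ) ≤
      ({D : ℕ | Hit R A D ∧ (D : ℝ) ≤ X}.ncard : ℝ) + (B + 1) := by
    have h3 := (Set.ncard_le_ncard hsub hfin).trans (Set.ncard_union_le _ _)
    have h4 : (Set.Iic B).ncard = B + 1 := by
      rw [← Finset.coe_Iic, Set.ncard_coe_finset, Nat.card_Iic]
    rw [h4] at h3
    exact_mod_cast h3
  have h3 : X ^ s ≤ X ^ (s + ε) := Real.rpow_le_rpow_of_exponent_le hX (by linarith)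
  have h4 : 1 ≤ X ^ (s + ε) := Real.one_le_rpow hX (by linarith)
  have h5 : (0 : ℝ) ≤ B + 1 := by positivity
  calc (({D : ℕ | (Hit R A D ∨ D ≤ B) ∧ (D : ℝ) ≤ X}.ncard : ℕ) : ℝ) ≤ C * X ^ s + (B + 1) * 1 := by linarith
    _ ≤ C * X ^ (s + ε) + (B + 1) * X ^ (s + ε) := by gcongr
    _ = (C + (B + 1)) * X ^ (s + ε) := by ring

/-- `z` is the third base of a coprime solution `x ^ p + y ^ p = z ^ r` with primes `p`, `r`, `2/p + 1/r ≤ 1` -/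
def ThirdBase (z : ℕ) : Prop :=
  ∃ x y p r : ℕ, 0 < x ∧ 0 < y ∧ p.Prime ∧ r.Prime ∧ Nat.Coprime x y ∧ (1 : ℚ) / p + 1 / p + 1 / r ≤ 1 ∧
    x ^ p + y ^ p = z ^ r

theorem base_count (ε : ℝ) (hε : 0 < ε) : ∃ C : ℝ, ∀ X : ℝ, 1 ≤ X → {z : ℕ | ThirdBase z ∧ (z : ℝ) ≤ X}.Finite ∧
    ({z : ℕ | ThirdBase z ∧ (z : ℝ) ≤ X}.ncard : ℝ) ≤ C * X ^ (5 / 6 + ε) := by
  obtain ⟨C, h⟩ := Pool.Agent.TH863.final
  have h2 : Tendsto (fun x : ℝ => Real.log (x + 2) ^ 5 / x ^ ε) atTop (𝓝 0) := by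
    have e1 := (isLittleO_log_rpow_rpow_atTop (s := ε) (5 : ℝ) hε)
    have e2 : Tendsto (fun x : ℝ => Real.log x ^ (5 : ℝ) / x ^ ε) atTop (𝓝 0) := e1.tendsto_div_nhds_zero
    have e3 : Tendsto (fun x : ℝ => Real.log (x + 2) ^ (5 : ℝ) / (x + 2) ^ ε) atTop (𝓝 0) :=
      e2.comp (tendsto_atTop_add_const_right _ 2 tendsto_id)
    have e4 : Tendsto (fun x : ℝ => (2 : ℝ) ^ ε * (Real.log (x + 2) ^ (5 : ℝ) / (x + 2) ^ ε)) atTop (𝓝 0) := by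
      simpa using e3.const_mul ((2 : ℝ) ^ ε)
    refine squeeze_zero' ?_ ?_ e4
    · filter_upwards [eventually_ge_atTop (2 : ℝ)] with x hx
      have := Real.log_nonneg (by linarith : (1 : ℝ) ≤ x + 2)
      positivity
    · filter_upwards [eventually_ge_atTop (2 : ℝ)] with x hx
      have hl := Real.log_nonneg (by linarith : (1 : ℝ) ≤ x + 2)
      have hx0 : 0 < x := by linarith
      have e5 : (x + 2) ^ ε ≤ (2 : ℝ) ^ ε * x ^ ε := by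
        rw [← Real.mul_rpow (by norm_num) hx0.le]
        exact Real.rpow_le_rpow (by linarith) (by linarith) hε.le
      rw [← mul_div_assoc, div_le_div_iff₀ (by positivity) (by positivity)]
      have e6 : Real.log (x + 2) ^ (5 : ℝ) = Real.log (x + 2) ^ 5 := by
        rw [← Real.rpow_natCast]
        norm_num
      rw [e6]
      calc Real.log (x + 2) ^ 5 * (x + 2) ^ ε ≤ Real.log (x + 2) ^ 5 * ((2 : ℝ) ^ ε * x ^ ε) := by gcongr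
        _ = (2 : ℝ) ^ ε * Real.log (x + 2) ^ 5 * x ^ ε := by ring
  have h3 : ∃ D : ℝ, 0 < D ∧ ∀ x : ℝ, 1 ≤ x → Real.log (x + 2) ^ 5 ≤ D * x ^ ε := by
    obtain ⟨x₀, hx₀⟩ := eventually_atTop.1 ((h2.eventually_lt_const one_pos).and (eventually_ge_atTop (1 : ℝ)))
    refine ⟨Real.log (x₀ + 2) ^ 5 + 1, ?_, fun x hx => ?_⟩
    · have hx1 := (hx₀ x₀ le_rfl).2
      have := Real.log_nonneg (by linarith : (1 : ℝ) ≤ x₀ + 2)
      positivity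
    · have hx1 := (hx₀ x₀ le_rfl).2
      have hl0 := Real.log_nonneg (by linarith : (1 : ℝ) ≤ x₀ + 2)
      have h1x : 1 ≤ x ^ ε := Real.one_le_rpow hx hε.le
      have h0x : 0 < x ^ ε := by linarith
      rcases le_total x₀ x with hle | hle
      · have h4 := (hx₀ x hle).1
        rw [div_lt_one h0x] at h4
        calc Real.log (x + 2) ^ 5 ≤ 1 * x ^ ε := by linarith
          _ ≤ _ := mul_le_mul_of_nonneg_right (by have := pow_nonneg hl0 5; linarith) h0x.le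
      · have h4 : Real.log (x + 2) ^ 5 ≤ Real.log (x₀ + 2) ^ 5 := by
          apply pow_le_pow_left₀ (Real.log_nonneg (by linarith))
          exact Real.log_le_log (by linarith) (by linarith)
        have h5 : 0 ≤ Real.log (x₀ + 2) ^ 5 := pow_nonneg hl0 5
        nlinarith
  obtain ⟨D, hD0, hD⟩ := h3
  refine ⟨|C| * D, fun X hX => ⟨fin_le _ X, ?_⟩⟩
  have hX0 : 0 < X := by linarith
  have hN1 : 1 ≤ ⌊X⌋₊ := Nat.le_floor (by exact_mod_cast hX)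
  have hNX : (⌊X⌋₊ : ℝ) ≤ X := Nat.floor_le hX0.le
  have hset : {z : ℕ | ThirdBase z ∧ (z : ℝ) ≤ X} = {z : ℕ | z ≤ ⌊X⌋₊ ∧ ∃ x y p r : ℕ, 0 < x ∧ 0 < y ∧ p.Prime ∧ r.Prime ∧
      Nat.Coprime x y ∧ (1 : ℚ) / p + 1 / p + 1 / r ≤ 1 ∧ x ^ p + y ^ p = z ^ r} := by
    ext z
    simp only [Set.mem_ofPred_eq]
    rw [← Nat.le_floor_iff hX0.le]
    exact and_comm
  rw [hset]
  have hlN : 0 ≤ Real.log ((⌊X⌋₊ : ℝ) + 2) := Real.log_nonneg (by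
    have : (0 : ℝ) ≤ ⌊X⌋₊ := Nat.cast_nonneg _
    linarith)
  calc _ ≤ C * ((⌊X⌋₊ : ℕ) : ℝ) ^ (5 / 6 : ℝ) * (Real.log (((⌊X⌋₊ : ℕ) : ℝ) + 2)) ^ 5 := h _ hN1
    _ ≤ |C| * X ^ (5 / 6 : ℝ) * (Real.log (X + 2)) ^ 5 := by
        apply mul_le_mul _ _ (by positivity) (by positivity)
        · exact mul_le_mul (le_abs_self C) (Real.rpow_le_rpow (Nat.cast_nonneg _) hNX (by norm_num)) (by positivity)
            (abs_nonneg C)
        · apply pow_le_pow_left₀ hlN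
          exact Real.log_le_log (by positivity) (by linarith)
    _ ≤ |C| * X ^ (5 / 6 : ℝ) * (D * X ^ ε) := mul_le_mul_of_nonneg_left (hD X hX) (by positivity)
    _ = |C| * D * X ^ (5 / 6 + ε) := by
        rw [Real.rpow_add hX0]
        ring

end Run7.h430.TW.FC
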