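import Pool.Agent.Run7.h430.TW.Slow

set_option autoImplicit false

/-!
Multiples and enlarged windows along almost all orbits of Euler's function (helper430).
-/

namespace Run7.h430.TW

open Finset Filter Topology
open Pool.Agent.N733.TG (LM Expanding)
open Pool.Agent.N826.IT.Orb (AlmostAll almostAll_mono almostAll_iff almostAll_finset diagonal card_mono')
open Pool.Agent.N760.IT (orb orbit_windows)

theorem expanding_mul {G : ℕ → ℝ} {d : ℝ} (hG : Expanding G d) {a : ℕ} (ha : 1 ≤ a) : Expanding (fun v => (a : ℝ) * G v) d := by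
  have ha1 : (1 : ℝ) ≤ a := by exact_mod_cast ha
  obtain ⟨hd, ⟨b, hb, hstep⟩, ⟨C, hC⟩⟩ := hG
  refine ⟨hd, ⟨b, hb, fun v hv => ?_⟩, ⟨a * C, fun v hv => ?_⟩⟩
  · have h1 := hstep v hv
    rw [← mul_sub]
    nlinarith
  · have h1 := hC v hv
    rw [mul_assoc]
    exact mul_le_mul_of_nonneg_left h1 (by linarith)

/-- the values along almost all orbits are large -/
theorem orbit_large {f : ℕ → ℕ} (hf : LM f) (B : ℕ) : ∃ K : ℕ → ℕ, Tendsto K atTop atTop ∧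
    AlmostAll (fun m => ∀ k ≤ K m, B < orb f k m) := by
  obtain ⟨K, hK, hK2⟩ := orbit_windows {n : ℕ | n ≤ B} (fun n : ℕ => (n : ℝ)) hf (expanding_lin (le_refl 1) 0) (s := 0)
    (κ := 0) le_rfl le_rfl (by norm_num) (fun ε hε => by
      refine ⟨(B : ℝ) + 1, fun X hX => ⟨(Set.finite_Iic B).subset (fun t ht => ht.1), ?_⟩⟩
      have h1 : {t : ℕ | t ∈ {n : ℕ | n ≤ B} ∧ (t : ℝ) ≤ X}.ncard ≤ B + 1 := by
        calc _ ≤ (Set.Iic B).ncard := Set.ncard_le_ncard (fun t ht => ht.1) (Set.finite_Iic B)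
          _ = B + 1 := by
            rw [← Finset.coe_Iic, Set.ncard_coe_finset, Nat.card_Iic]
      have h2 : (1 : ℝ) ≤ X ^ (0 + ε) := Real.one_le_rpow hX (by linarith)
      calc _ ≤ ((B : ℝ) + 1) := by exact_mod_cast h1
        _ ≤ ((B : ℝ) + 1) * X ^ (0 + ε) := le_mul_of_one_le_right (by positivity) h2)
  refine ⟨K, hK, almostAll_mono hK2 (fun m hm k hk => ?_)⟩
  by_contra hcon
  rw [not_lt] at hcon
  refine hm k hk (orb f k m) hcon ?_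
  simp

/-- **Multiples and enlarged windows.** -/
theorem kit {T : Type*} (S : Set T) (h : T → ℝ) {f : ℕ → ℕ} (hf : LM f) {G : ℕ → ℝ} {d : ℝ}
    (hG : Expanding G d) {s κ : ℝ} (hs : 0 ≤ s) (hκ : 0 ≤ κ) (h1 : d * s + κ < 1)
    (hS : ∀ ε : ℝ, 0 < ε → ∃ C : ℝ, ∀ X : ℝ, 1 ≤ X →
      {t | t ∈ S ∧ h t ≤ X}.Finite ∧ ({t | t ∈ S ∧ h t ≤ X}.ncard : ℝ) ≤ C * X ^ (s + ε)) :
    ∃ K : ℕ → ℕ, Tendsto K atTop atTop ∧
      AlmostAll (fun m => ∀ k ≤ K m, ∀ a : ℕ, 1 ≤ a → a ≤ K m → ∀ t ∈ S,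
        (K m : ℝ) * (orb f k m : ℝ) ^ κ < |h t - a * G (orb f k m)|) := by
  classical
  refine diagonal (P := fun j m => ∀ k ≤ j, ∀ a : ℕ, 1 ≤ a → a ≤ j → ∀ t ∈ S,
        (j : ℝ) * (orb f k m : ℝ) ^ κ < |h t - a * G (orb f k m)|) ?_ (fun j => ?_)
  · intro i j m hij hj k hk a ha1 ha t ht
    refine lt_of_le_of_lt ?_ (hj k (hk.trans hij) a ha1 (ha.trans hij) t ht)
    exact mul_le_mul_of_nonneg_right (by exact_mod_cast hij) (by positivity)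
  · obtain ⟨κ', hκ'⟩ : ∃ κ', κ' = (κ + (1 - d * s)) / 2 := ⟨_, rfl⟩
    have hlt : κ < κ' := by rw [hκ']; linarith
    have hlt1 : d * s + κ' < 1 := by rw [hκ']; linarith
    obtain ⟨B, hB⟩ := exists_nat_ge ((j : ℝ) ^ (1 / (κ' - κ)))
    obtain ⟨K₀, hK₀, hK₀2⟩ := orbit_large hf B
    have e0 : AlmostAll (fun m => ∀ k ≤ j, B < orb f k m) := by
      have h2 := Pool.Agent.N826.IT.Orb.almostAll_and hK₀2 (almostAll_ev (hK₀.eventually_ge_atTop j))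
      exact almostAll_mono h2 (fun m hm k hk => hm.1 k (hk.trans hm.2))
    have e1 : AlmostAll (fun m => ∀ a ∈ Icc 1 j, ∀ k ≤ j, ∀ t ∈ S, ¬ |h t - a * G (orb f k m)| ≤ (orb f k m : ℝ) ^ κ') := by
      refine almostAll_finset (Icc 1 j) (P := fun a m => ∀ k ≤ j, ∀ t ∈ S,
        ¬ |h t - a * G (orb f k m)| ≤ (orb f k m : ℝ) ^ κ') (fun a ha => ?_)
      rw [mem_Icc] at ha
      obtain ⟨K₁, hK₁, hK₁2⟩ := orbit_windows S h hf (expanding_mul hG ha.1) hs (hκ.trans hlt.le) hlt1 hS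
      have h2 := Pool.Agent.N826.IT.Orb.almostAll_and hK₁2 (almostAll_ev (hK₁.eventually_ge_atTop j))
      exact almostAll_mono h2 (fun m hm k hk => hm.1 k (hk.trans hm.2))
    refine almostAll_mono (Pool.Agent.N826.IT.Orb.almostAll_and e0 e1) (fun m hm k hk a ha1 ha t ht => ?_)
    have h3 := hm.2 a (mem_Icc.2 ⟨ha1, ha⟩) k hk t ht
    rw [not_le] at h3
    refine lt_of_le_of_lt ?_ h3
    have h4 : ((j : ℝ) ^ (1 / (κ' - κ))) ≤ (orb f k m : ℝ) :=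
      hB.trans (by exact_mod_cast (hm.1 k hk).le)
    have hv : (1 : ℝ) ≤ (orb f k m : ℝ) := by
      have := hm.1 k hk
      exact_mod_cast (by omega : 1 ≤ orb f k m)
    have h5 : (j : ℝ) ≤ (orb f k m : ℝ) ^ (κ' - κ) := by
      calc (j : ℝ) = ((j : ℝ) ^ (1 / (κ' - κ))) ^ (κ' - κ) := by
            rw [← Real.rpow_mul (Nat.cast_nonneg _), one_div, inv_mul_cancel₀ (by linarith), Real.rpow_one]
        _ ≤ (orb f k m : ℝ) ^ (κ' - κ) := Real.rpow_le_rpow (by positivity) h4 (by linarith)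
    calc (j : ℝ) * (orb f k m : ℝ) ^ κ ≤ (orb f k m : ℝ) ^ (κ' - κ) * (orb f k m : ℝ) ^ κ :=
          mul_le_mul_of_nonneg_right h5 (by positivity)
      _ = (orb f k m : ℝ) ^ κ' := by
          rw [← Real.rpow_add (by linarith)]
          congr 1
          ring

/-- the same for an exact exponent -/
theorem kit' {T : Type*} (S : Set T) (h : T → ℝ) {f : ℕ → ℕ} (hf : LM f) {G : ℕ → ℝ} {d : ℝ}
    (hG : Expanding G d) {s κ : ℝ} (hs : 0 ≤ s) (hκ : 0 ≤ κ) (h1 : d * s + κ < 1)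
    (hS : ∃ C : ℝ, ∀ X : ℝ, 1 ≤ X →
      {t | t ∈ S ∧ h t ≤ X}.Finite ∧ ({t | t ∈ S ∧ h t ≤ X}.ncard : ℝ) ≤ C * X ^ s) :
    ∃ K : ℕ → ℕ, Tendsto K atTop atTop ∧
      AlmostAll (fun m => ∀ k ≤ K m, ∀ a : ℕ, 1 ≤ a → a ≤ K m → ∀ t ∈ S,
        (K m : ℝ) * (orb f k m : ℝ) ^ κ < |h t - a * G (orb f k m)|) := by
  refine kit S h hf hG hs hκ h1 (fun ε hε => ?_)
  obtain ⟨C, hC⟩ := hS
  refine ⟨|C|, fun X hX => ⟨(hC X hX).1, (hC X hX).2.trans ?_⟩⟩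
  calc C * X ^ s ≤ |C| * X ^ s := mul_le_mul_of_nonneg_right (le_abs_self C) (by positivity)
    _ ≤ |C| * X ^ (s + ε) :=
        mul_le_mul_of_nonneg_left (Real.rpow_le_rpow_of_exponent_le hX (by linarith)) (abs_nonneg C)

end Run7.h430.TW
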