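import Pool.Agent.Run7.h430.TW.Kit

/-!
# The kit for increasing families of sets
-/

set_option autoImplicit false

namespace Run7.h430.TW

open Finset Filter Topology
open Pool.Agent.N733.TG (LM Expanding)
open Pool.Agent.N826.IT.Orb (AlmostAll diagonal almostAll_mono almostAll_and)
open Pool.Agent.N760.IT (orb)

theorem kit_slow {T : Type*} (S : ℕ → Set T) (hmono : ∀ i j, i ≤ j → S i ⊆ S j) (h : T → ℝ) {f : ℕ → ℕ} (hf : LM f)
    {G : ℕ → ℝ} {d : ℝ} (hG : Expanding G d) {s κ : ℝ} (hs : 0 ≤ s) (hκ : 0 ≤ κ) (h1 : d * s + κ < 1)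
    (hS : ∀ j, ∀ ε : ℝ, 0 < ε → ∃ C : ℝ, ∀ X : ℝ, 1 ≤ X →
      {t | t ∈ S j ∧ h t ≤ X}.Finite ∧ ({t | t ∈ S j ∧ h t ≤ X}.ncard : ℝ) ≤ C * X ^ (s + ε)) :
    ∃ K : ℕ → ℕ, Tendsto K atTop atTop ∧
      AlmostAll (fun m => ∀ k ≤ K m, ∀ a : ℕ, 1 ≤ a → a ≤ K m → ∀ t ∈ S (K m),
        (K m : ℝ) * (orb f k m : ℝ) ^ κ < |h t - a * G (orb f k m)|) := by
  classical
  refine diagonal (P := fun j m => ∀ k ≤ j, ∀ a : ℕ, 1 ≤ a → a ≤ j → ∀ t ∈ S j,
        (j : ℝ) * (orb f k m : ℝ) ^ κ < |h t - a * G (orb f k m)|) ?_ (fun j => ?_)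
  · intro i j m hij hj k hk a ha1 ha t ht
    refine lt_of_le_of_lt ?_ (hj k (hk.trans hij) a ha1 (ha.trans hij) t (hmono i j hij ht))
    exact mul_le_mul_of_nonneg_right (by exact_mod_cast hij) (by positivity)
  · obtain ⟨K, hK, hK2⟩ := kit (S j) h hf hG hs hκ h1 (hS j)
    refine almostAll_mono (almostAll_and hK2 (almostAll_ev (hK.eventually (eventually_ge_atTop j)))) ?_
    intro m hm k hk a ha1 ha t ht
    refine lt_of_le_of_lt ?_ (hm.1 k (hk.trans hm.2) a ha1 (ha.trans hm.2) t ht)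
    exact mul_le_mul_of_nonneg_right (by exact_mod_cast hm.2) (by positivity)

end Run7.h430.TW
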