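import Mathlib

set_option autoImplicit false

/-!
Pairs of bases of solutions of the Fermat-Catalan equation: from the power saving for pairs in boxes to exceptional first
bases (helper430).
-/

namespace Run7.h430.TW.Pairs

open Finset

/-- `(x, y, z, C)` is a solution with the bases `A` and `B` -/
def Solves (A B x y z C : ℕ) : Prop :=
  0 < x ∧ 0 < y ∧ 2 ≤ z ∧ 0 < C ∧
    (A ^ x + B ^ y = C ^ z ∨ A ^ x + C ^ z = B ^ y ∨ B ^ y + C ^ z = A ^ x)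

/-- a pair of bases, polynomially related, with a solution such that `A B` has a small prime factor or an exponent is not too
large -/
def Bad (L A B : ℕ) : Prop :=
  Nat.Coprime A B ∧ A ≤ B ^ L ∧ B ≤ A ^ L ∧ ∃ x y z C : ℕ, Solves A B x y z C ∧
    (2 ∣ A * B ∨ (∃ r : ℕ, r.Prime ∧ r ∣ A * B ∧ r ^ (40 * (L + 2)) ≤ A * B) ∨
      ((min x y : ℕ) : ℝ) ≤ Real.exp (Real.log A ^ L))

/-- the count for pairs in boxes (to be taken from the starting files) -/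
def Count (δ : ℝ) : Prop := ∀ K : ℕ, ∃ N₀ : ℕ, ∀ N : ℕ, N₀ ≤ N → ∀ X Y : ℕ,
  N ≤ X → N ≤ Y → X ≤ N ^ K → Y ≤ N ^ K →
  (({p : ℕ × ℕ | (0 < p.1 ∧ p.1 ≤ X) ∧ (0 < p.2 ∧ p.2 ≤ Y) ∧ Nat.Coprime p.1 p.2 ∧
      ∃ x y z C : ℕ, Solves p.1 p.2 x y z C ∧
        ((∃ r : ℕ, r.Prime ∧ (r : ℝ) ≤ (N : ℝ) ^ (1 / 40 : ℝ) ∧ r ∣ p.1 * p.2) ∨
          ((min x y : ℕ) : ℝ) ≤ Real.exp (Real.log N ^ K))}.ncard : ℕ) : ℝ) ≤
    (N : ℝ) ^ (-δ) * ((X : ℝ) * Y)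

open Classical in
/-- the number of the bad `B ≤ Y` -/
noncomputable def cnt (L A Y : ℕ) : ℕ := ((Icc 1 Y).filter (fun B => Bad L A B)).card

theorem small_prime {L A B N X Y r : ℕ} (hN : N ≤ X) (hA : A ≤ X) (hB : B ≤ Y) (hXY : X * Y ≤ N ^ (L + 2))
    (hr : r ^ (40 * (L + 2)) ≤ A * B) : (r : ℝ) ≤ (N : ℝ) ^ (1 / 40 : ℝ) := by
  have h1 : (r ^ 40) ^ (L + 2) ≤ N ^ (L + 2) := by
    rw [← pow_mul]
    exact hr.trans ((Nat.mul_le_mul hA hB).trans hXY)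
  have h2 : r ^ 40 ≤ N := (Nat.pow_le_pow_iff_left (by omega)).1 h1
  have h3 : ((r : ℝ)) ^ (40 : ℕ) ≤ N := by exact_mod_cast h2
  calc (r : ℝ) = (((r : ℝ)) ^ (40 : ℕ)) ^ ((40 : ℕ) : ℝ)⁻¹ := by
        rw [Real.pow_rpow_inv_natCast (Nat.cast_nonneg _) (by norm_num)]
    _ ≤ (N : ℝ) ^ ((40 : ℕ) : ℝ)⁻¹ := Real.rpow_le_rpow (by positivity) h3 (by positivity)
    _ = (N : ℝ) ^ (1 / 40 : ℝ) := by norm_num

theorem exp_bound (L : ℕ) : ∃ N₀ : ℕ, ∀ N : ℕ, N₀ ≤ N → ∀ X A : ℕ, 1 ≤ A → A ≤ X → X ≤ N ^ (L + 1) →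
    Real.exp (Real.log A ^ L) ≤ Real.exp (Real.log N ^ (L + 1)) := by
  obtain ⟨N₀, hN₀⟩ := exists_nat_ge (Real.exp (((L : ℝ) + 1) ^ L))
  refine ⟨max N₀ 1, fun N hN X A hA1 hA hX => ?_⟩
  apply Real.exp_le_exp.2
  have hN1 : (1 : ℝ) ≤ N := by exact_mod_cast (le_max_right N₀ 1).trans hN
  have hNN : Real.exp (((L : ℝ) + 1) ^ L) ≤ N := hN₀.trans (by exact_mod_cast (le_max_left N₀ 1).trans hN)
  have hl : ((L : ℝ) + 1) ^ L ≤ Real.log N := by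
    rw [Real.le_log_iff_exp_le (by linarith)]
    exact hNN
  have hA1r : (1 : ℝ) ≤ A := by exact_mod_cast hA1
  have h1 : Real.log A ≤ (L + 1) * Real.log N := by
    calc Real.log A ≤ Real.log ((N : ℝ) ^ (L + 1)) := Real.log_le_log (by linarith) (by exact_mod_cast hA.trans hX)
      _ = (L + 1) * Real.log N := by
        rw [Real.log_pow]
        push_cast
        ring
  have hl0 : 0 ≤ Real.log N := Real.log_nonneg hN1
  calc Real.log A ^ L ≤ ((L + 1) * Real.log N) ^ L := pow_le_pow_left₀ (Real.log_nonneg hA1r) h1 L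
    _ = ((L : ℝ) + 1) ^ L * Real.log N ^ L := by rw [mul_pow]
    _ ≤ Real.log N * Real.log N ^ L := mul_le_mul_of_nonneg_right hl (by positivity)
    _ = Real.log N ^ (L + 1) := by ring

/-- the bad pairs in a box -/
theorem box_count {δ : ℝ} (hC : Count δ) (L : ℕ) : ∃ X₀ : ℕ, 2 ≤ X₀ ∧ ∀ X Y : ℕ, X₀ ≤ X → X₀ ≤ Y → X ≤ Y ^ (L + 1) →
    Y ≤ X ^ (L + 1) → ((∑ A ∈ Icc 1 X, cnt L A Y : ℕ) : ℝ) ≤ ((min X Y : ℕ) : ℝ) ^ (-δ) * ((X : ℝ) * Y) := by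
  classical
  obtain ⟨N₀, h0⟩ := hC (L + 1)
  obtain ⟨N₁, h1⟩ := exp_bound L
  refine ⟨max (max N₀ N₁) (2 ^ 40), (by norm_num : 2 ≤ 2 ^ 40).trans (le_max_right _ _), fun X Y hX hY hXY hYX => ?_⟩
  obtain ⟨N, hN⟩ : ∃ N, N = min X Y := ⟨_, rfl⟩
  have hNX : N ≤ X := by rw [hN]; exact min_le_left _ _
  have hNY : N ≤ Y := by rw [hN]; exact min_le_right _ _
  have hN0 : max (max N₀ N₁) (2 ^ 40) ≤ N := by rw [hN]; exact le_min hX hY
  have hN1 : 1 ≤ N := le_trans (by norm_num) ((le_max_right (max N₀ N₁) (2 ^ 40)).trans hN0)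
  have hXN : X ≤ N ^ (L + 1) := by
    rcases le_total X Y with h | h
    · rw [hN, min_eq_left h]
      exact Nat.le_self_pow (by omega) X
    · rw [hN, min_eq_right h]
      exact hXY
  have hYN : Y ≤ N ^ (L + 1) := by
    rcases le_total X Y with h | h
    · rw [hN, min_eq_left h]
      exact hYX
    · rw [hN, min_eq_right h]
      exact Nat.le_self_pow (by omega) Y
  have hprod : X * Y ≤ N ^ (L + 2) := by
    rcases le_total X Y with h | h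
    · have e : N = X := by rw [hN, min_eq_left h]
      calc X * Y ≤ N * N ^ (L + 1) := Nat.mul_le_mul (by rw [e]) hYN
        _ = N ^ (L + 2) := by ring
    · have e : N = Y := by rw [hN, min_eq_right h]
      calc X * Y ≤ N ^ (L + 1) * N := Nat.mul_le_mul hXN (by rw [e])
        _ = N ^ (L + 2) := by ring
  have h2 := h0 N ((le_max_left _ _).trans ((le_max_left _ _).trans hN0)) X Y hNX hNY hXN hYN
  rw [← hN]
  refine le_trans ?_ h2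
  -- the sum is the number of the pairs
  have e1 : ∑ A ∈ Icc 1 X, cnt L A Y = ((Icc 1 X).sigma (fun A => (Icc 1 Y).filter (fun B => Bad L A B))).card := by
    rw [card_sigma]
    rfl
  rw [e1]
  have hfin : {p : ℕ × ℕ | (0 < p.1 ∧ p.1 ≤ X) ∧ (0 < p.2 ∧ p.2 ≤ Y) ∧ Nat.Coprime p.1 p.2 ∧
      ∃ x y z C : ℕ, Solves p.1 p.2 x y z C ∧
        ((∃ r : ℕ, r.Prime ∧ (r : ℝ) ≤ (N : ℝ) ^ (1 / 40 : ℝ) ∧ r ∣ p.1 * p.2) ∨
          ((min x y : ℕ) : ℝ) ≤ Real.exp (Real.log N ^ (L + 1)))}.Finite :=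
    ((Set.finite_Iic X).prod (Set.finite_Iic Y)).subset (fun p hp => ⟨hp.1.2, hp.2.1.2⟩)
  rw [Set.ncard_eq_toFinset_card _ hfin]
  apply Nat.cast_le.2
  refine card_le_card_of_injOn (fun q => (q.1, q.2)) ?_ ?_
  · rintro ⟨A, B⟩ hq
    rw [mem_coe, mem_sigma, mem_Icc, mem_filter, mem_Icc] at hq
    obtain ⟨⟨a1, a2⟩, ⟨b1, b2⟩, hco, hAB, hBA, x, y, z, C, hs, hcase⟩ := hq
    rw [mem_coe, Set.Finite.mem_toFinset]
    refine ⟨⟨by simp only at a1 ⊢; omega, a2⟩, ⟨by simp only at b1 ⊢; omega, b2⟩, hco, x, y, z, C, hs, ?_⟩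
    rcases hcase with h | ⟨r, hr, hrd, hrp⟩ | h
    · left
      refine ⟨2, Nat.prime_two, ?_, h⟩
      have h40 : (2 : ℝ) ^ 40 ≤ N := by exact_mod_cast (le_max_right (max N₀ N₁) (2 ^ 40)).trans hN0
      calc ((2 : ℕ) : ℝ) = ((2 : ℝ) ^ (40 : ℕ)) ^ ((40 : ℕ) : ℝ)⁻¹ := by
            rw [Real.pow_rpow_inv_natCast (by norm_num) (by norm_num)]
            norm_num
        _ ≤ (N : ℝ) ^ ((40 : ℕ) : ℝ)⁻¹ := Real.rpow_le_rpow (by positivity) h40 (by positivity)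
        _ = (N : ℝ) ^ (1 / 40 : ℝ) := by norm_num
    · left
      exact ⟨r, hr, small_prime hNX a2 b2 hprod hrp, hrd⟩
    · right
      exact h.trans (h1 N ((le_max_right _ _).trans ((le_max_left _ _).trans hN0)) X A a1 a2 hXN)
  · rintro ⟨A, B⟩ _ ⟨A', B'⟩ _ h
    simp only [Prod.mk.injEq] at h
    obtain ⟨rfl, rfl⟩ := h
    rfl

end Run7.h430.TW.Pairs
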