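import Pool.Agent.Run7.h430.TW.PairsA

set_option autoImplicit false

/-!
Pairs of bases of solutions of the Fermat-Catalan equation: the exceptional first bases are thin, and the other first bases
have uniformly few bad second bases (helper430).
-/

namespace Run7.h430.TW.Pairs

open Finset

/-- the exceptional first bases -/
def Ex (L : ℕ) (η : ℝ) (A₀ : ℕ) : Set ℕ :=
  {A | A < A₀ ∨ ∃ i j : ℕ, A ≤ 2 ^ i ∧ 2 ^ i ≤ 2 * A ∧ 2 ^ i ≤ (2 ^ j) ^ (L + 1) ∧ 2 ^ j ≤ (2 ^ i) ^ (L + 1) ∧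
    ((2 ^ j : ℕ) : ℝ) ^ (1 - η) < (cnt L A (2 ^ j) : ℝ)}

theorem cnt_mono (L A : ℕ) {Y Y' : ℕ} (h : Y ≤ Y') : cnt L A Y ≤ cnt L A Y' := by
  classical
  unfold cnt
  apply card_le_card
  intro B hB
  rw [mem_filter, mem_Icc] at hB ⊢
  exact ⟨⟨hB.1.1, hB.1.2.trans h⟩, hB.2⟩

/-- away from the exceptional set there are few bad second bases -/
theorem good_cnt {L : ℕ} {η : ℝ} (hη0 : 0 ≤ η) (hη1 : η ≤ 1) {A₀ : ℕ} (hA₀ : 2 ≤ A₀) {A : ℕ} (hA : A ∉ Ex L η A₀)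
    (Y : ℕ) (hY : 1 ≤ Y) : (cnt L A Y : ℝ) ≤ 2 * (Y : ℝ) ^ (1 - η) := by
  classical
  have hYr : (1 : ℝ) ≤ Y := by exact_mod_cast hY
  by_cases h0 : cnt L A Y = 0
  · rw [h0]
    simp only [CharP.cast_eq_zero]
    positivity
  have hA2 : 2 ≤ A := by
    by_contra hcon
    exact hA (Or.inl (by omega))
  obtain ⟨B, hB⟩ : ((Icc 1 Y).filter (fun B => Bad L A B)).Nonempty := card_pos.1 (Nat.pos_of_ne_zero h0)
  rw [mem_filter, mem_Icc] at hB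
  obtain ⟨⟨hB1, hBY⟩, hbad⟩ := hB
  have hAB := hbad.2.1
  have hBA := hbad.2.2.1
  have hL : 1 ≤ L := by
    by_contra hcon
    have : L = 0 := by omega
    rw [this, pow_zero] at hAB
    omega
  have hB2 : 2 ≤ B := by
    by_contra hcon
    have : B = 1 := by omega
    rw [this, one_pow] at hAB
    omega
  obtain ⟨Y', hY'⟩ : ∃ Y', Y' = min Y (A ^ L) := ⟨_, rfl⟩
  have hAL : A ≤ A ^ L := Nat.le_self_pow (by omega) A
  have hY'2 : 2 ≤ Y' := by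
    rw [hY']
    exact le_min (hB2.trans hBY) (hA2.trans hAL)
  have hY'Y : Y' ≤ Y := by rw [hY']; exact min_le_left _ _
  have hY'A : Y' ≤ A ^ L := by rw [hY']; exact min_le_right _ _
  have hAY' : A ≤ Y' ^ L := by
    rcases le_total Y (A ^ L) with h | h
    · rw [hY', min_eq_left h]
      exact hAB.trans (Nat.pow_le_pow_left hBY L)
    · rw [hY', min_eq_right h]
      exact hAL.trans (Nat.le_self_pow (by omega) _)
  have hcnt : cnt L A Y ≤ cnt L A Y' := by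
    unfold cnt
    apply card_le_card
    intro b hb
    rw [mem_filter, mem_Icc] at hb ⊢
    refine ⟨⟨hb.1.1, ?_⟩, hb.2⟩
    rw [hY']
    exact le_min hb.1.2 hb.2.2.2.1
  obtain ⟨i, hi⟩ : ∃ i, i = Nat.clog 2 A := ⟨_, rfl⟩
  obtain ⟨j, hj⟩ : ∃ j, j = Nat.clog 2 Y' := ⟨_, rfl⟩
  have hclog : ∀ n : ℕ, 2 ≤ n → n ≤ 2 ^ Nat.clog 2 n ∧ 2 ^ Nat.clog 2 n ≤ 2 * n ∧ 2 ≤ 2 ^ Nat.clog 2 n := by
    intro n hn
    have h1 : n ≤ 2 ^ Nat.clog 2 n := Nat.le_pow_clog (by norm_num) n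
    have h2 : 2 ^ (Nat.clog 2 n).pred < n := Nat.pow_pred_clog_lt_self (by norm_num) (by omega)
    have h3 : 0 < Nat.clog 2 n := Nat.clog_pos (by norm_num) hn
    obtain ⟨c, hc⟩ : ∃ c, Nat.clog 2 n = c + 1 := ⟨Nat.clog 2 n - 1, by omega⟩
    rw [hc] at h2 ⊢
    rw [Nat.pred_succ] at h2
    refine ⟨by rw [← hc]; exact h1, ?_, ?_⟩
    · rw [pow_succ]
      omega
    · rw [pow_succ]
      have : 1 ≤ 2 ^ c := Nat.one_le_two_pow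
      omega
  obtain ⟨i1, i2, i3⟩ := hclog A hA2
  obtain ⟨j1, j2, j3⟩ := hclog Y' hY'2
  rw [← hi] at i1 i2 i3
  rw [← hj] at j1 j2 j3
  have c1 : 2 ^ i ≤ (2 ^ j) ^ (L + 1) := by
    calc 2 ^ i ≤ 2 * A := i2
      _ ≤ 2 ^ j * (2 ^ j) ^ L := Nat.mul_le_mul j3 (hAY'.trans (Nat.pow_le_pow_left j1 L))
      _ = (2 ^ j) ^ (L + 1) := by rw [pow_succ, mul_comm]
  have c2 : 2 ^ j ≤ (2 ^ i) ^ (L + 1) := by
    calc 2 ^ j ≤ 2 * Y' := j2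
      _ ≤ 2 ^ i * (2 ^ i) ^ L := Nat.mul_le_mul i3 (hY'A.trans (Nat.pow_le_pow_left i1 L))
      _ = (2 ^ i) ^ (L + 1) := by rw [pow_succ, mul_comm]
  have h5 : (cnt L A (2 ^ j) : ℝ) ≤ ((2 ^ j : ℕ) : ℝ) ^ (1 - η) := by
    by_contra hcon
    rw [not_le] at hcon
    exact hA (Or.inr ⟨i, j, i1, i2, c1, c2, hcon⟩)
  have h6 : ((2 ^ j : ℕ) : ℝ) ≤ 2 * (Y : ℝ) := by exact_mod_cast j2.trans (Nat.mul_le_mul_left 2 hY'Y)
  calc (cnt L A Y : ℝ) ≤ cnt L A (2 ^ j) := by exact_mod_cast hcnt.trans (cnt_mono L A j1)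
    _ ≤ ((2 ^ j : ℕ) : ℝ) ^ (1 - η) := h5
    _ ≤ (2 * (Y : ℝ)) ^ (1 - η) := Real.rpow_le_rpow (by positivity) h6 (by linarith)
    _ = 2 ^ (1 - η) * (Y : ℝ) ^ (1 - η) := Real.mul_rpow (by norm_num) (by positivity)
    _ ≤ 2 ^ (1 : ℝ) * (Y : ℝ) ^ (1 - η) := mul_le_mul_of_nonneg_right
        (Real.rpow_le_rpow_of_exponent_le (by norm_num) (by linarith)) (by positivity)
    _ = 2 * (Y : ℝ) ^ (1 - η) := by rw [Real.rpow_one]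

open Classical in
/-- Markov's inequality in one box -/
theorem box_ex {δ : ℝ} (hδ : 0 < δ) (L : ℕ) {X₀ : ℕ} (hX₀ : 2 ≤ X₀)
    (h : ∀ X Y : ℕ, X₀ ≤ X → X₀ ≤ Y → X ≤ Y ^ (L + 1) →
      Y ≤ X ^ (L + 1) → ((∑ A ∈ Icc 1 X, cnt L A Y : ℕ) : ℝ) ≤ ((min X Y : ℕ) : ℝ) ^ (-δ) * ((X : ℝ) * Y))
    {X Y : ℕ} (hX : X₀ ≤ X) (hY : X₀ ≤ Y) (hXY : X ≤ Y ^ (L + 1)) (hYX : Y ≤ X ^ (L + 1)) :
    ((((Icc 1 X).filter (fun A => (Y : ℝ) ^ (1 - δ / (2 * ((L : ℝ) + 1) ^ 2)) < (cnt L A Y : ℝ))).card : ℕ) : ℝ) ≤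
      (X : ℝ) ^ (1 - δ / (2 * ((L : ℝ) + 1))) := by
  have hL0 : (0 : ℝ) < (L : ℝ) + 1 := by positivity
  have hX1 : (1 : ℝ) ≤ X := by exact_mod_cast (by omega : 1 ≤ X)
  have hY1 : (1 : ℝ) ≤ Y := by exact_mod_cast (by omega : 1 ≤ Y)
  have hX0 : (0 : ℝ) < X := by linarith
  have hY0 : (0 : ℝ) < Y := by linarith
  obtain ⟨η, hη⟩ : ∃ η, η = δ / (2 * ((L : ℝ) + 1) ^ 2) := ⟨_, rfl⟩
  have hη0 : 0 < η := by rw [hη]; positivity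
  rw [← hη]
  obtain ⟨N, hN⟩ : ∃ N, N = min X Y := ⟨_, rfl⟩
  have h1 := h X Y hX hY hXY hYX
  rw [← hN] at h1
  have hN1 : 1 ≤ N := by rw [hN]; exact le_min (by omega) (by omega)
  have hN1r : (1 : ℝ) ≤ N := by exact_mod_cast hN1
  have hXN : X ≤ N ^ (L + 1) := by
    rcases le_total X Y with h | h
    · rw [hN, min_eq_left h]
      exact Nat.le_self_pow (by omega) X
    · rw [hN, min_eq_right h]
      exact hXY
  -- `N ^ (-δ) ≤ X ^ (-δ / (L + 1))`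
  have h2 : (N : ℝ) ^ (-δ) ≤ (X : ℝ) ^ (-(δ / ((L : ℝ) + 1))) := by
    have h3 : (X : ℝ) ≤ (N : ℝ) ^ ((L : ℝ) + 1) := by
      calc (X : ℝ) ≤ ((N ^ (L + 1) : ℕ) : ℝ) := by exact_mod_cast hXN
        _ = (N : ℝ) ^ ((L : ℝ) + 1) := by
          push_cast
          rw [← Real.rpow_natCast]
          push_cast
          rfl
    have h4 : (X : ℝ) ^ (δ / ((L : ℝ) + 1)) ≤ (N : ℝ) ^ δ := by
      calc (X : ℝ) ^ (δ / ((L : ℝ) + 1)) ≤ ((N : ℝ) ^ ((L : ℝ) + 1)) ^ (δ / ((L : ℝ) + 1)) :=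
            Real.rpow_le_rpow hX0.le h3 (by positivity)
        _ = (N : ℝ) ^ δ := by
          rw [← Real.rpow_mul (by linarith)]
          congr 1
          field_simp
    rw [Real.rpow_neg (by linarith), Real.rpow_neg hX0.le]
    exact inv_anti₀ (by positivity) h4
  have h5 : (Y : ℝ) ^ η ≤ (X : ℝ) ^ (((L : ℝ) + 1) * η) := by
    rw [Real.rpow_mul hX0.le]
    refine Real.rpow_le_rpow hY0.le ?_ hη0.le
    calc (Y : ℝ) ≤ ((X ^ (L + 1) : ℕ) : ℝ) := by exact_mod_cast hYX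
      _ = (X : ℝ) ^ ((L : ℝ) + 1) := by
        push_cast
        rw [← Real.rpow_natCast]
        push_cast
        rfl
  -- Markov
  have h6 : ((((Icc 1 X).filter (fun A => (Y : ℝ) ^ (1 - η) < (cnt L A Y : ℝ))).card : ℕ) : ℝ) * (Y : ℝ) ^ (1 - η) ≤
      ((∑ A ∈ Icc 1 X, cnt L A Y : ℕ) : ℝ) := by
    rw [← nsmul_eq_mul]
    push_cast
    calc _ ≤ ∑ A ∈ (Icc 1 X).filter (fun A => (Y : ℝ) ^ (1 - η) < (cnt L A Y : ℝ)), (cnt L A Y : ℝ) :=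
          card_nsmul_le_sum _ _ _ (fun A hA => ((mem_filter.1 hA).2).le)
      _ ≤ ∑ A ∈ Icc 1 X, (cnt L A Y : ℝ) :=
          sum_le_sum_of_subset_of_nonneg (filter_subset _ _) (fun _ _ _ => Nat.cast_nonneg _)
  have hYη : 0 < (Y : ℝ) ^ (1 - η) := by positivity
  rw [← le_div_iff₀ hYη] at h6
  refine h6.trans ?_
  rw [div_le_iff₀ hYη]
  refine h1.trans ?_
  have e1 : (Y : ℝ) = (Y : ℝ) ^ η * (Y : ℝ) ^ (1 - η) := by
    rw [← Real.rpow_add hY0]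
    norm_num
  calc (N : ℝ) ^ (-δ) * ((X : ℝ) * Y) ≤ (X : ℝ) ^ (-(δ / ((L : ℝ) + 1))) * ((X : ℝ) * Y) :=
        mul_le_mul_of_nonneg_right h2 (by positivity)
    _ = (X : ℝ) ^ (-(δ / ((L : ℝ) + 1))) * ((X : ℝ) * ((Y : ℝ) ^ η * (Y : ℝ) ^ (1 - η))) := by rw [← e1]
    _ ≤ (X : ℝ) ^ (-(δ / ((L : ℝ) + 1))) * ((X : ℝ) * ((X : ℝ) ^ (((L : ℝ) + 1) * η) * (Y : ℝ) ^ (1 - η))) := by
        gcongr
    _ = ((X : ℝ) ^ (-(δ / ((L : ℝ) + 1))) * (X : ℝ) ^ (1 : ℝ) * (X : ℝ) ^ (((L : ℝ) + 1) * η)) * (Y : ℝ) ^ (1 - η) := by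
        rw [Real.rpow_one]
        ring
    _ = (X : ℝ) ^ (1 - δ / (2 * ((L : ℝ) + 1))) * (Y : ℝ) ^ (1 - η) := by
        congr 1
        rw [← Real.rpow_add hX0, ← Real.rpow_add hX0]
        congr 1
        rw [hη]
        field_simp
        ring

/-- a logarithmic factor -/
theorem log_factor {θ : ℝ} (hθ : 0 < θ) (X I : ℕ) (hX : 1 ≤ X) (hI : 2 ^ I ≤ 2 * X) :
    (I : ℝ) + 1 ≤ (1 / (θ * Real.log 2) + 1) * (2 * (X : ℝ)) ^ θ := by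
  have hl2 : 0 < Real.log 2 := Real.log_pos (by norm_num)
  have h1 : θ * Real.log 2 * I ≤ (2 * (X : ℝ)) ^ θ := by
    calc θ * Real.log 2 * I ≤ Real.exp (θ * Real.log 2 * I) := by
          have := Real.add_one_le_exp (θ * Real.log 2 * I)
          linarith
      _ = ((2 : ℝ) ^ I) ^ θ := by
          rw [← Real.rpow_natCast, ← Real.rpow_mul (by norm_num), Real.rpow_def_of_pos (by norm_num)]
          congr 1
          ring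
      _ ≤ (2 * (X : ℝ)) ^ θ := Real.rpow_le_rpow (by positivity) (by exact_mod_cast hI) hθ.le
  have hX1 : (1 : ℝ) ≤ X := by exact_mod_cast hX
  have h2 : (1 : ℝ) ≤ (2 * (X : ℝ)) ^ θ := Real.one_le_rpow (by linarith) hθ.le
  have h3 : (I : ℝ) ≤ 1 / (θ * Real.log 2) * (2 * (X : ℝ)) ^ θ := by
    rw [one_div, inv_mul_eq_div, le_div_iff₀ (by positivity)]
    linarith
  rw [add_mul, one_mul]
  linarith

open Classical in
/-- the exceptional first bases are thin -/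
theorem ex_count {δ : ℝ} (hδ : 0 < δ) (hδ1 : δ ≤ 1) (L : ℕ) {X₀ : ℕ} (hX₀ : 2 ≤ X₀)
    (h : ∀ X Y : ℕ, X₀ ≤ X → X₀ ≤ Y → X ≤ Y ^ (L + 1) →
      Y ≤ X ^ (L + 1) → ((∑ A ∈ Icc 1 X, cnt L A Y : ℕ) : ℝ) ≤ ((min X Y : ℕ) : ℝ) ^ (-δ) * ((X : ℝ) * Y)) :
    ∃ C : ℝ, 0 < C ∧ ∀ X : ℕ, 1 ≤ X →
      ((((Icc 1 X).filter (fun A => A ∈ Ex L (δ / (2 * ((L : ℝ) + 1) ^ 2)) (X₀ ^ (L + 1)))).card : ℕ) : ℝ) ≤
        C * (X : ℝ) ^ (1 - δ / (4 * ((L : ℝ) + 1))) := by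
  have hL0 : (0 : ℝ) < (L : ℝ) + 1 := by positivity
  obtain ⟨η, hη⟩ : ∃ η, η = δ / (2 * ((L : ℝ) + 1) ^ 2) := ⟨_, rfl⟩
  obtain ⟨θ, hθ⟩ : ∃ θ, θ = δ / (8 * ((L : ℝ) + 1)) := ⟨_, rfl⟩
  have hθ0 : 0 < θ := by rw [hθ]; positivity
  have hL1 : (1 : ℝ) ≤ (L : ℝ) + 1 := by
    have : (0 : ℝ) ≤ L := Nat.cast_nonneg _
    linarith
  have hθ1 : 4 * θ ≤ 1 := by
    rw [hθ]
    rw [show 4 * (δ / (8 * ((L : ℝ) + 1))) = δ / (2 * ((L : ℝ) + 1)) by field_simp; ring]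
    rw [div_le_one (by positivity)]
    linarith
  have e4 : δ / (2 * ((L : ℝ) + 1)) = 4 * θ := by rw [hθ]; field_simp; ring
  have e2 : δ / (4 * ((L : ℝ) + 1)) = 2 * θ := by rw [hθ]; field_simp; ring
  rw [← hη, e2]
  obtain ⟨c₁, hc₁⟩ : ∃ c₁, c₁ = 1 / (θ * Real.log 2) + 1 := ⟨_, rfl⟩
  have hl2 : 0 < Real.log 2 := Real.log_pos (by norm_num)
  have hc₁0 : 0 < c₁ := by rw [hc₁]; positivity
  refine ⟨((X₀ ^ (L + 1) : ℕ) : ℝ) + 2 * (((L : ℝ) + 1) * c₁ ^ 2), by positivity, fun X hX => ?_⟩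
  have hX1 : (1 : ℝ) ≤ X := by exact_mod_cast hX
  obtain ⟨I, hI⟩ : ∃ I, I = Nat.log 2 (2 * X) := ⟨_, rfl⟩
  have hI2 : 2 ^ I ≤ 2 * X := by rw [hI]; exact Nat.pow_log_le_self 2 (by omega)
  obtain ⟨J, hJ⟩ : ∃ J : Finset (ℕ × ℕ), J = ((range (I + 1)) ×ˢ (range (I * (L + 1) + 1))).filter (fun p =>
    X₀ ≤ 2 ^ p.1 ∧ X₀ ≤ 2 ^ p.2 ∧ 2 ^ p.1 ≤ (2 ^ p.2) ^ (L + 1) ∧ 2 ^ p.2 ≤ (2 ^ p.1) ^ (L + 1)) := ⟨_, rfl⟩
  have hsub : (Icc 1 X).filter (fun A => A ∈ Ex L η (X₀ ^ (L + 1))) ⊆ range (X₀ ^ (L + 1)) ∪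
      J.biUnion (fun p => (Icc 1 (2 ^ p.1)).filter (fun A => ((2 ^ p.2 : ℕ) : ℝ) ^ (1 - η) < (cnt L A (2 ^ p.2) : ℝ))) := by
    intro A hA
    rw [mem_filter, mem_Icc] at hA
    obtain ⟨⟨hA1, hAX⟩, hE⟩ := hA
    rw [mem_union, mem_range]
    by_cases hlt : A < X₀ ^ (L + 1)
    · exact Or.inl hlt
    right
    rw [not_lt] at hlt
    rcases hE with hE | ⟨i, j, h1, h2, h3, h4, h5⟩
    · omega
    rw [mem_biUnion]
    have hA2i : 2 ^ i ≤ 2 * X := h2.trans (by omega)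
    have hiI : i ≤ I := by
      rw [hI]
      exact Nat.le_log_of_pow_le (by norm_num) hA2i
    have hji : j ≤ i * (L + 1) := by
      rw [← pow_mul] at h4
      exact (Nat.pow_le_pow_iff_right (by norm_num)).1 h4
    refine ⟨(i, j), ?_, ?_⟩
    · rw [hJ, mem_filter, mem_product, mem_range, mem_range]
      refine ⟨⟨by simp only; omega, ?_⟩, ?_, ?_, h3, h4⟩
      · have : i * (L + 1) ≤ I * (L + 1) := Nat.mul_le_mul_right _ hiI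
        simp only
        omega
      · exact (Nat.le_self_pow (by omega) X₀).trans (hlt.trans h1)
      · have h6 : X₀ ^ (L + 1) ≤ (2 ^ j) ^ (L + 1) := hlt.trans (h1.trans h3)
        exact (Nat.pow_le_pow_iff_left (by omega)).1 h6
    · rw [mem_filter, mem_Icc]
      exact ⟨⟨hA1, h1⟩, h5⟩
  have hcard : ((Icc 1 X).filter (fun A => A ∈ Ex L η (X₀ ^ (L + 1)))).card ≤ X₀ ^ (L + 1) +
      ∑ p ∈ J, ((Icc 1 (2 ^ p.1)).filter (fun A => ((2 ^ p.2 : ℕ) : ℝ) ^ (1 - η) < (cnt L A (2 ^ p.2) : ℝ))).card := by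
    refine (card_le_card hsub).trans ((card_union_le _ _).trans ?_)
    rw [card_range]
    exact Nat.add_le_add_left card_biUnion_le _
  have hterm : ∀ p ∈ J, ((((Icc 1 (2 ^ p.1)).filter
      (fun A => ((2 ^ p.2 : ℕ) : ℝ) ^ (1 - η) < (cnt L A (2 ^ p.2) : ℝ))).card : ℕ) : ℝ) ≤ (2 * (X : ℝ)) ^ (1 - 4 * θ) := by
    intro p hp
    rw [hJ, mem_filter, mem_product, mem_range, mem_range] at hp
    obtain ⟨⟨p1, p2⟩, p3, p4, p5, p6⟩ := hp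
    have h7 := box_ex hδ L hX₀ h p3 p4 p5 p6
    rw [← hη, e4] at h7
    refine h7.trans (Real.rpow_le_rpow (Nat.cast_nonneg _) ?_ (by linarith))
    have : 2 ^ p.1 ≤ 2 * X := (Nat.pow_le_pow_right (by norm_num) (by omega)).trans hI2
    exact_mod_cast this
  have hJcard : (J.card : ℝ) ≤ ((L : ℝ) + 1) * c₁ ^ 2 * (2 * (X : ℝ)) ^ (2 * θ) := by
    have h8 : J.card ≤ (I + 1) * (I * (L + 1) + 1) := by
      rw [hJ]
      refine (card_filter_le _ _).trans ?_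
      rw [card_product, card_range, card_range]
    have h9 := log_factor hθ0 X I hX hI2
    rw [← hc₁] at h9
    have hI0 : (0 : ℝ) ≤ I := Nat.cast_nonneg _
    have hLI : (I : ℝ) * ((L : ℝ) + 1) + 1 ≤ ((L : ℝ) + 1) * ((I : ℝ) + 1) := by nlinarith
    calc (J.card : ℝ) ≤ ((I : ℝ) + 1) * ((I : ℝ) * ((L : ℝ) + 1) + 1) := by exact_mod_cast h8
      _ ≤ ((I : ℝ) + 1) * (((L : ℝ) + 1) * ((I : ℝ) + 1)) := mul_le_mul_of_nonneg_left hLI (by positivity)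
      _ = ((L : ℝ) + 1) * ((I : ℝ) + 1) ^ 2 := by ring
      _ ≤ ((L : ℝ) + 1) * (c₁ * (2 * (X : ℝ)) ^ θ) ^ 2 :=
          mul_le_mul_of_nonneg_left (pow_le_pow_left₀ (by positivity) h9 2) (by positivity)
      _ = ((L : ℝ) + 1) * c₁ ^ 2 * (2 * (X : ℝ)) ^ (2 * θ) := by
          rw [mul_pow, ← Real.rpow_natCast ((2 * (X : ℝ)) ^ θ), ← Real.rpow_mul (by positivity), mul_assoc]
          congr 3
          push_cast
          ring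
  have h10 : (1 : ℝ) ≤ (X : ℝ) ^ (1 - 2 * θ) := Real.one_le_rpow hX1 (by linarith)
  have h11 : (2 * (X : ℝ)) ^ (1 - 2 * θ) ≤ 2 * (X : ℝ) ^ (1 - 2 * θ) := by
    rw [Real.mul_rpow (by norm_num) (by positivity)]
    refine mul_le_mul_of_nonneg_right ?_ (by positivity)
    calc (2 : ℝ) ^ (1 - 2 * θ) ≤ 2 ^ (1 : ℝ) := Real.rpow_le_rpow_of_exponent_le (by norm_num) (by linarith)
      _ = 2 := Real.rpow_one 2
  calc _ ≤ (((X₀ ^ (L + 1) : ℕ) : ℝ) + ∑ p ∈ J, ((((Icc 1 (2 ^ p.1)).filter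
          (fun A => ((2 ^ p.2 : ℕ) : ℝ) ^ (1 - η) < (cnt L A (2 ^ p.2) : ℝ))).card : ℕ) : ℝ)) := by exact_mod_cast hcard
    _ ≤ ((X₀ ^ (L + 1) : ℕ) : ℝ) + J.card * (2 * (X : ℝ)) ^ (1 - 4 * θ) := by
        gcongr
        rw [← nsmul_eq_mul]
        exact sum_le_card_nsmul _ _ _ hterm
    _ ≤ ((X₀ ^ (L + 1) : ℕ) : ℝ) + (((L : ℝ) + 1) * c₁ ^ 2 * (2 * (X : ℝ)) ^ (2 * θ)) * (2 * (X : ℝ)) ^ (1 - 4 * θ) := by
        gcongr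
    _ = ((X₀ ^ (L + 1) : ℕ) : ℝ) + ((L : ℝ) + 1) * c₁ ^ 2 * (2 * (X : ℝ)) ^ (1 - 2 * θ) := by
        rw [mul_assoc, ← Real.rpow_add (by positivity)]
        congr 3
        ring
    _ ≤ ((X₀ ^ (L + 1) : ℕ) : ℝ) * (X : ℝ) ^ (1 - 2 * θ) + ((L : ℝ) + 1) * c₁ ^ 2 * (2 * (X : ℝ) ^ (1 - 2 * θ)) := by
        refine add_le_add (le_mul_of_one_le_right (Nat.cast_nonneg _) h10) (mul_le_mul_of_nonneg_left h11 (by positivity))
    _ = (((X₀ ^ (L + 1) : ℕ) : ℝ) + 2 * (((L : ℝ) + 1) * c₁ ^ 2)) * (X : ℝ) ^ (1 - 2 * θ) := by ring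

end Run7.h430.TW.Pairs
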