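import Pool.Agent.Run7.h430.TW.PairsB
import Pool.Agent.Run7.h430.TW.Unif

set_option autoImplicit false

/-!
Pairs of bases of solutions of the Fermat-Catalan equation: pairs of orbits of Euler's function (helper430).
-/

namespace Run7.h430.TW.Pairs

open Finset Filter Topology
open Pool.Agent.N733.TG (LM Expanding)
open Pool.Agent.N826.IT.Orb (card_mono')
open Pool.Agent.N760.IT (orb)

open Classical in
/-- `P m m'` holds for almost all pairs `(m, m')` (in all boxes with large sides) -/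
def PairAA (P : ℕ → ℕ → Prop) : Prop :=
  ∀ δ : ℝ, 0 < δ → ∃ N₀ : ℕ, ∀ N N' : ℕ, N₀ ≤ N → N₀ ≤ N' →
    ((((Icc 1 N) ×ˢ (Icc 1 N')).filter (fun p => ¬ P p.1 p.2)).card : ℝ) ≤ δ * ((N : ℝ) * N')

theorem card_mono2 {N N' : ℕ} {P Q : ℕ × ℕ → Prop} {dP : DecidablePred P} {dQ : DecidablePred Q}
    (h : ∀ p, p ∈ (Icc 1 N) ×ˢ (Icc 1 N') → P p → Q p) :
    (@Finset.filter _ P dP ((Icc 1 N) ×ˢ (Icc 1 N'))).card ≤ (@Finset.filter _ Q dQ ((Icc 1 N) ×ˢ (Icc 1 N'))).card :=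
  card_le_card (fun p hp => Finset.mem_filter.2 ⟨(Finset.mem_filter.1 hp).1,
    h p (Finset.mem_filter.1 hp).1 (Finset.mem_filter.1 hp).2⟩)

theorem PairAA.mono {P Q : ℕ → ℕ → Prop} (hP : PairAA P) (h : ∀ m m', P m m' → Q m m') : PairAA Q := by
  classical
  intro δ hδ
  obtain ⟨N₀, h0⟩ := hP δ hδ
  refine ⟨N₀, fun N N' hN hN' => le_trans (Nat.cast_le.2 (card_mono2 ?_)) (h0 N N' hN hN')⟩
  intro p _ hp h1
  exact hp (h _ _ h1)

theorem PairAA.and {P Q : ℕ → ℕ → Prop} (hP : PairAA P) (hQ : PairAA Q) : PairAA (fun m m' => P m m' ∧ Q m m') := by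
  classical
  intro δ hδ
  obtain ⟨N₁, h₁⟩ := hP (δ / 2) (by positivity)
  obtain ⟨N₂, h₂⟩ := hQ (δ / 2) (by positivity)
  refine ⟨max N₁ N₂, fun N N' hN hN' => ?_⟩
  have b1 := h₁ N N' (le_trans (le_max_left _ _) hN) (le_trans (le_max_left _ _) hN')
  have b2 := h₂ N N' (le_trans (le_max_right _ _) hN) (le_trans (le_max_right _ _) hN')
  have hsub : ((Icc 1 N) ×ˢ (Icc 1 N')).filter (fun p => ¬ (P p.1 p.2 ∧ Q p.1 p.2)) ⊆
      ((Icc 1 N) ×ˢ (Icc 1 N')).filter (fun p => ¬ P p.1 p.2) ∪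
        ((Icc 1 N) ×ˢ (Icc 1 N')).filter (fun p => ¬ Q p.1 p.2) := by
    intro p hp
    rw [mem_filter] at hp
    rw [mem_union, mem_filter, mem_filter]
    by_cases h3 : P p.1 p.2
    · exact Or.inr ⟨hp.1, fun h4 => hp.2 ⟨h3, h4⟩⟩
    · exact Or.inl ⟨hp.1, h3⟩
  have h3 : ((((Icc 1 N) ×ˢ (Icc 1 N')).filter (fun p => ¬ (P p.1 p.2 ∧ Q p.1 p.2))).card : ℝ) ≤
      (((Icc 1 N) ×ˢ (Icc 1 N')).filter (fun p => ¬ P p.1 p.2)).card +
        (((Icc 1 N) ×ˢ (Icc 1 N')).filter (fun p => ¬ Q p.1 p.2)).card := by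
    exact_mod_cast (card_le_card hsub).trans (card_union_le _ _)
  have h4 : ((((Icc 1 N) ×ˢ (Icc 1 N')).filter (fun p => ¬ (P p.1 p.2 ∧ Q p.1 p.2))).card : ℝ) ≤ δ * ((N : ℝ) * N') := by
    refine h3.trans ((add_le_add b1 b2).trans (le_of_eq (by ring)))
  exact le_trans (Nat.cast_le.2 (card_mono2 fun _ _ hm => hm)) h4

theorem PairAA.of_true {P : ℕ → ℕ → Prop} (h : ∀ m m', P m m') : PairAA P := by
  classical
  intro δ hδ
  refine ⟨0, fun N N' _ _ => ?_⟩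
  rw [filter_eq_empty_iff.2 (fun p _ h1 => h1 (h _ _))]
  simp only [card_empty, Nat.cast_zero]
  positivity

theorem PairAA.finset {β : Type*} (s : Finset β) {P : β → ℕ → ℕ → Prop} (h : ∀ b ∈ s, PairAA (P b)) :
    PairAA (fun m m' => ∀ b ∈ s, P b m m') := by
  classical
  induction s using Finset.induction_on with
  | empty => exact PairAA.of_true (fun m m' b hb => absurd hb (notMem_empty b))
  | insert b s _ ih =>
    refine PairAA.mono (PairAA.and (h b (mem_insert_self b s))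
      (ih (fun j hj => h j (mem_insert_of_mem hj)))) (fun m m' hm j hj => ?_)
    rcases mem_insert.1 hj with rfl | hj
    · exact hm.1
    · exact hm.2 j hj

/-- diagonal argument for pairs -/
theorem PairAA.diagonal {P : ℕ → ℕ → ℕ → Prop} (hmono : ∀ a b m m', a ≤ b → P b m m' → P a m m')
    (h : ∀ j, PairAA (P j)) : ∃ κ : ℕ → ℕ, Tendsto κ atTop atTop ∧ PairAA (fun m m' => P (κ (min m m')) m m') := by
  classical
  have h1 : ∀ j : ℕ, ∃ N₀ : ℕ, ∀ N N' : ℕ, N₀ ≤ N → N₀ ≤ N' →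
      ((((Icc 1 N) ×ˢ (Icc 1 N')).filter (fun p => ¬ P j p.1 p.2)).card : ℝ) ≤ 1 / ((j : ℝ) + 1) * ((N : ℝ) * N') := by
    intro j
    obtain ⟨N₀, hN₀⟩ := h j (1 / ((j : ℝ) + 1)) (by positivity)
    exact ⟨N₀, fun N N' hN hN' => le_trans (Nat.cast_le.2 (card_mono2 fun _ _ hm => hm)) (hN₀ N N' hN hN')⟩
  choose A hA using h1
  set κ : ℕ → ℕ := fun m => Nat.findGreatest (fun j => A j ≤ m) m with hκ
  have hκmono : Monotone κ := by
    intro m n hmn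
    rw [hκ]
    simp only
    exact Nat.findGreatest_mono (fun j hj => le_trans hj hmn) hmn
  have hκge : ∀ j : ℕ, ∀ m, max (A j) j ≤ m → j ≤ κ m := by
    intro j m hm
    rw [hκ]
    simp only
    exact Nat.le_findGreatest (le_trans (le_max_right _ _) hm) (le_trans (le_max_left _ _) hm)
  have hκt : Tendsto κ atTop atTop := by
    rw [tendsto_atTop_atTop]
    intro j
    exact ⟨max (A j) j, fun m hm => hκge j m hm⟩
  refine ⟨κ, hκt, ?_⟩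
  intro ε hε
  obtain ⟨j, hj⟩ := exists_nat_gt (1 / ε)
  refine ⟨max (max (A (j + 1)) (j + 1)) 1, fun N N' hN hN' => ?_⟩
  obtain ⟨M, hM⟩ : ∃ M, M = min N N' := ⟨_, rfl⟩
  have hMN : M ≤ N := by rw [hM]; exact min_le_left _ _
  have hMN' : M ≤ N' := by rw [hM]; exact min_le_right _ _
  have hMge : max (max (A (j + 1)) (j + 1)) 1 ≤ M := by rw [hM]; exact le_min hN hN'
  have b1 : j + 1 ≤ κ M := hκge (j + 1) M (le_trans (le_max_left _ _) hMge)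
  have b2 : A (κ M) ≤ M := by
    have h3 : κ M ≠ 0 := by omega
    exact Nat.findGreatest_of_ne_zero (P := fun j => A j ≤ M) (n := M) rfl h3
  have h4 := hA (κ M) N N' (b2.trans hMN) (b2.trans hMN')
  have h6 : 1 / (((κ M : ℕ) : ℝ) + 1) ≤ ε := by
    rw [div_le_iff₀ (by positivity)]
    rw [div_lt_iff₀ hε] at hj
    have : (j : ℝ) + 1 ≤ ((κ M : ℕ) : ℝ) := by exact_mod_cast b1
    nlinarith
  refine le_trans (Nat.cast_le.2 (card_mono2 ?_)) (h4.trans (mul_le_mul_of_nonneg_right h6 (by positivity)))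
  rintro ⟨m, m'⟩ hp hcon h5
  rw [mem_product, mem_Icc, mem_Icc] at hp
  refine hcon (hmono _ _ _ _ (hκmono ?_) h5)
  rw [hM]
  exact min_le_min hp.1.2 hp.2.2

theorem totient_iter_pos (k : ℕ) : ∀ m : ℕ, 1 ≤ m → 1 ≤ Nat.totient^[k] m := by
  induction k with
  | zero => exact fun m hm => hm
  | succ k ih =>
    intro m hm
    rw [Function.iterate_succ_apply]
    exact ih _ (Nat.totient_pos.2 hm)

theorem orb_pos {f : ℕ → ℕ} (hf : LM f) (k m : ℕ) (hm : 1 ≤ m) : 1 ≤ orb f k m := hf.pos _ (totient_iter_pos k m hm)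

/-- natural numbers in an interval -/
theorem interval_card (s : Finset ℕ) (a r : ℝ) (hr : 0 ≤ r) (h : ∀ A ∈ s, |(A : ℝ) - a| ≤ r) : (s.card : ℝ) ≤ 2 * r + 1 := by
  rcases s.eq_empty_or_nonempty with rfl | hne
  · simp only [card_empty, Nat.cast_zero]
    positivity
  have hmin := h _ (s.min'_mem hne)
  have hmax := h _ (s.max'_mem hne)
  rw [abs_le] at hmin hmax
  have hsub : s ⊆ Icc (s.min' hne) (s.max' hne) := fun A hA => mem_Icc.2 ⟨s.min'_le A hA, s.le_max' A hA⟩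
  have h1 := card_le_card hsub
  rw [Nat.card_Icc] at h1
  have h2 : s.min' hne ≤ s.max' hne := s.min'_le _ (s.max'_mem hne)
  have h3 : (s.card : ℝ) ≤ ((s.max' hne : ℕ) : ℝ) + 1 - ((s.min' hne : ℕ) : ℝ) := by
    have : s.card + s.min' hne ≤ s.max' hne + 1 := by omega
    have h4 : (s.card : ℝ) + ((s.min' hne : ℕ) : ℝ) ≤ ((s.max' hne : ℕ) : ℝ) + 1 := by exact_mod_cast this
    linarith
  linarith

/-- `v` is at most a multiple of the integers near `F v` -/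
theorem le_mul_near {F : ℕ → ℝ} {d : ℝ} (hF : Expanding F d) {κ : ℝ} (hκ : κ ≤ 1 / 2) : ∃ C : ℝ, 1 ≤ C ∧
    ∀ v A : ℕ, 1 ≤ v → 1 ≤ A → |(A : ℝ) - F v| ≤ (v : ℝ) ^ κ → (v : ℝ) ≤ C * A := by
  obtain ⟨hd, ⟨a, ha, hstep⟩, -⟩ := hF
  obtain ⟨c₂, hc₂⟩ : ∃ c₂ : ℝ, c₂ = 1 / (2 * a) + |F 1| + a := ⟨_, rfl⟩
  have hc₂0 : 0 < c₂ := by rw [hc₂]; positivity
  refine ⟨max 1 (2 / a * (1 + c₂)), le_max_left _ _, fun v A hv hA hw => ?_⟩
  have hv1 : (1 : ℝ) ≤ v := by exact_mod_cast hv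
  have hA1 : (1 : ℝ) ≤ A := by exact_mod_cast hA
  have h1 : F 1 + a * ((v : ℝ) - 1) ≤ F v := by
    have : ∀ n : ℕ, F 1 + a * (((n + 1 : ℕ) : ℝ) - 1) ≤ F (n + 1) := by
      intro n
      induction n with
      | zero => simp
      | succ n ih =>
        have := hstep (n + 1) (by omega)
        push_cast at ih ⊢
        linarith
    obtain ⟨n, rfl⟩ : ∃ n, v = n + 1 := ⟨v - 1, by omega⟩
    exact this n
  have h2 : (v : ℝ) ^ κ ≤ a / 2 * v + 1 / (2 * a) := by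
    have h3 : (v : ℝ) ^ κ ≤ Real.sqrt v := by
      rw [Real.sqrt_eq_rpow]
      exact Real.rpow_le_rpow_of_exponent_le hv1 hκ
    have h4 : Real.sqrt v ≤ a / 2 * v + 1 / (2 * a) := by
      have h5 : Real.sqrt v ^ 2 = v := Real.sq_sqrt (by linarith)
      have h6 : 0 ≤ (a * Real.sqrt v - 1) ^ 2 / (2 * a) := by positivity
      have h7 : (a * Real.sqrt v - 1) ^ 2 / (2 * a) = a / 2 * Real.sqrt v ^ 2 - Real.sqrt v + 1 / (2 * a) := by
        field_simp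
        ring
      rw [h7, h5] at h6
      linarith
    exact h3.trans h4
  rw [abs_le] at hw
  have h8 : a / 2 * v ≤ A + c₂ := by
    have := neg_abs_le (F 1)
    rw [hc₂]
    linarith [hw.1]
  have h9 : (v : ℝ) ≤ 2 / a * (A + c₂) := by
    rw [div_mul_eq_mul_div, le_div_iff₀ ha]
    linarith
  calc (v : ℝ) ≤ 2 / a * (A + c₂) := h9
    _ ≤ 2 / a * ((1 + c₂) * A) := by
        apply mul_le_mul_of_nonneg_left _ (by positivity)
        nlinarith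
    _ = 2 / a * (1 + c₂) * A := by ring
    _ ≤ max 1 (2 / a * (1 + c₂)) * A := mul_le_mul_of_nonneg_right (le_max_right _ _) (by linarith)

/-- the bad second bases for the first bases near `F v` -/
def W (L : ℕ) (η : ℝ) (A₀ : ℕ) (F : ℕ → ℝ) (κ : ℝ) (v : ℕ) : Set ℕ :=
  {B | 1 ≤ v ∧ ∃ A : ℕ, A ∉ Ex L η A₀ ∧ |(A : ℝ) - F v| ≤ (v : ℝ) ^ κ ∧ Bad L A B}

theorem w_count {L : ℕ} {η : ℝ} (hη0 : 0 ≤ η) (hη1 : η ≤ 1) {A₀ : ℕ} (hA₀ : 2 ≤ A₀) {F : ℕ → ℝ} {d : ℝ}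
    (hF : Expanding F d) {κ : ℝ} (hκ0 : 0 ≤ κ) (hκ : κ ≤ 1 / 2) : ∃ C : ℝ, 0 < C ∧ ∀ v : ℕ, ∀ X : ℝ, 1 ≤ X →
      {t | t ∈ W L η A₀ F κ v ∧ (t : ℝ) ≤ X}.Finite ∧
        ({t | t ∈ W L η A₀ F κ v ∧ (t : ℝ) ≤ X}.ncard : ℝ) ≤ C * X ^ (1 - η + L * κ) := by
  classical
  obtain ⟨C, hC1, hC⟩ := le_mul_near hF hκ
  refine ⟨6 * C, by positivity, fun v X hX => ?_⟩
  have hfin : {t | t ∈ W L η A₀ F κ v ∧ (t : ℝ) ≤ X}.Finite :=
    (Set.finite_Iic ⌊X⌋₊).subset (fun t ht => Nat.le_floor ht.2)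
  refine ⟨hfin, ?_⟩
  obtain ⟨Y, hY⟩ : ∃ Y, Y = ⌊X⌋₊ := ⟨_, rfl⟩
  have hY1 : 1 ≤ Y := by rw [hY]; exact Nat.le_floor (by exact_mod_cast hX)
  have hYX : (Y : ℝ) ≤ X := by rw [hY]; exact Nat.floor_le (by linarith)
  have hY1r : (1 : ℝ) ≤ Y := by exact_mod_cast hY1
  obtain ⟨S, hS⟩ : ∃ S : Finset ℕ, S = (Icc 1 (Y ^ L)).filter
    (fun A => A ∉ Ex L η A₀ ∧ 1 ≤ v ∧ |(A : ℝ) - F v| ≤ (v : ℝ) ^ κ) := ⟨_, rfl⟩
  have hsub : hfin.toFinset ⊆ S.biUnion (fun A => (Icc 1 Y).filter (fun B => Bad L A B)) := by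
    intro B hB
    rw [Set.Finite.mem_toFinset] at hB
    obtain ⟨⟨hv, A, hA, hw, hbad⟩, hBX⟩ := hB
    have hA2 : 2 ≤ A := by
      by_contra hcon
      exact hA (Or.inl (by omega))
    have hB0 : B ≠ 0 := by
      rintro rfl
      have := hbad.1
      rw [Nat.coprime_zero_right] at this
      omega
    have hBY : B ≤ Y := by rw [hY]; exact Nat.le_floor hBX
    rw [mem_biUnion]
    refine ⟨A, ?_, ?_⟩
    · rw [hS, mem_filter, mem_Icc]
      exact ⟨⟨by omega, hbad.2.1.trans (Nat.pow_le_pow_left hBY L)⟩, hA, hv, hw⟩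
    · rw [mem_filter, mem_Icc]
      exact ⟨⟨by omega, hBY⟩, hbad⟩
  rw [Set.ncard_eq_toFinset_card _ hfin]
  have h1 : (hfin.toFinset.card : ℝ) ≤ S.card * (2 * (Y : ℝ) ^ (1 - η)) := by
    calc (hfin.toFinset.card : ℝ) ≤ ∑ A ∈ S, (((Icc 1 Y).filter (fun B => Bad L A B)).card : ℝ) := by
          exact_mod_cast (card_le_card hsub).trans card_biUnion_le
      _ ≤ ∑ A ∈ S, (2 * (Y : ℝ) ^ (1 - η)) := by
          refine sum_le_sum (fun A hA => ?_)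
          rw [hS, mem_filter] at hA
          have := good_cnt hη0 hη1 hA₀ hA.2.1 Y hY1
          unfold cnt at this
          exact this
      _ = S.card * (2 * (Y : ℝ) ^ (1 - η)) := by rw [sum_const, nsmul_eq_mul]
  have h2 : (S.card : ℝ) ≤ 3 * C * (Y : ℝ) ^ (L * κ) := by
    rcases S.eq_empty_or_nonempty with h0 | ⟨A, hA⟩
    · rw [h0]
      simp only [card_empty, Nat.cast_zero]
      positivity
    · have hA' := hA
      rw [hS, mem_filter, mem_Icc] at hA'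
      obtain ⟨⟨a1, a2⟩, a3, a4, a5⟩ := hA'
      have hv1 : (1 : ℝ) ≤ v := by exact_mod_cast a4
      have h3 : (v : ℝ) ≤ C * (Y : ℝ) ^ L := by
        refine (hC v A a4 a1 a5).trans (mul_le_mul_of_nonneg_left ?_ (by linarith))
        exact_mod_cast a2
      have h4 : (S.card : ℝ) ≤ 2 * (v : ℝ) ^ κ + 1 := interval_card S (F v) _ (by positivity) (by
        intro A' hA'
        rw [hS, mem_filter] at hA'
        exact hA'.2.2.2)
      have h5 : (v : ℝ) ^ κ ≤ C * (Y : ℝ) ^ (L * κ) := by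
        calc (v : ℝ) ^ κ ≤ (C * (Y : ℝ) ^ L) ^ κ := Real.rpow_le_rpow (by linarith) h3 hκ0
          _ = C ^ κ * ((Y : ℝ) ^ L) ^ κ := Real.mul_rpow (by linarith) (by positivity)
          _ ≤ C ^ (1 : ℝ) * ((Y : ℝ) ^ L) ^ κ := mul_le_mul_of_nonneg_right
              (Real.rpow_le_rpow_of_exponent_le hC1 (by linarith)) (by positivity)
          _ = C * (Y : ℝ) ^ (L * κ) := by
              rw [Real.rpow_one, ← Real.rpow_natCast (Y : ℝ) L, ← Real.rpow_mul (by positivity)]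
      have h6 : (1 : ℝ) ≤ C * (Y : ℝ) ^ (L * κ) :=
        one_le_mul_of_one_le_of_one_le hC1 (Real.one_le_rpow hY1r (by positivity))
      linarith
  calc (hfin.toFinset.card : ℝ) ≤ S.card * (2 * (Y : ℝ) ^ (1 - η)) := h1
    _ ≤ 3 * C * (Y : ℝ) ^ (L * κ) * (2 * (Y : ℝ) ^ (1 - η)) := mul_le_mul_of_nonneg_right h2 (by positivity)
    _ = 6 * C * ((Y : ℝ) ^ (1 - η) * (Y : ℝ) ^ (L * κ)) := by ring
    _ = 6 * C * (Y : ℝ) ^ (1 - η + L * κ) := by rw [← Real.rpow_add (by linarith)]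
    _ ≤ 6 * C * X ^ (1 - η + L * κ) := by
        apply mul_le_mul_of_nonneg_left _ (by positivity)
        exact Real.rpow_le_rpow (by linarith) hYX (by
          have : 0 ≤ (L : ℝ) * κ := by positivity
          linarith)

/-- the exceptional first bases as a thin set for the height -/
theorem ex_few {E : Set ℕ} {C s : ℝ} (hC : 0 < C) (hs : 0 ≤ s) (h : ∀ X : ℕ, 1 ≤ X → ∀ S : Finset ℕ,
      (∀ A ∈ S, 1 ≤ A ∧ A ≤ X ∧ A ∈ E) → (S.card : ℝ) ≤ C * (X : ℝ) ^ s) (X : ℝ) (hX : 1 ≤ X) :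
    {t | t ∈ E ∧ (t : ℝ) ≤ X}.Finite ∧ ({t | t ∈ E ∧ (t : ℝ) ≤ X}.ncard : ℝ) ≤ (C + 1) * X ^ s := by
  classical
  have hfin : {t | t ∈ E ∧ (t : ℝ) ≤ X}.Finite := (Set.finite_Iic ⌊X⌋₊).subset (fun t ht => Nat.le_floor ht.2)
  refine ⟨hfin, ?_⟩
  have hX1 : 1 ≤ ⌊X⌋₊ := Nat.le_floor (by exact_mod_cast hX)
  have h1 := h ⌊X⌋₊ hX1 (hfin.toFinset.erase 0) (fun A hA => by
    rw [mem_erase, Set.Finite.mem_toFinset] at hA
    exact ⟨by omega, Nat.le_floor hA.2.2, hA.2.1⟩)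
  rw [Set.ncard_eq_toFinset_card _ hfin]
  have h2 : hfin.toFinset.card ≤ (hfin.toFinset.erase 0).card + 1 := by
    have := pred_card_le_card_erase (s := hfin.toFinset) (a := 0)
    omega
  have h3 : ((⌊X⌋₊ : ℕ) : ℝ) ^ s ≤ X ^ s := Real.rpow_le_rpow (Nat.cast_nonneg _) (Nat.floor_le (by linarith)) hs
  have h4 : (1 : ℝ) ≤ X ^ s := Real.one_le_rpow hX hs
  calc (hfin.toFinset.card : ℝ) ≤ ((hfin.toFinset.erase 0).card : ℝ) + 1 := by exact_mod_cast h2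
    _ ≤ C * X ^ s + 1 * X ^ s := by
        have := mul_le_mul_of_nonneg_left h3 hC.le
        linarith
    _ = (C + 1) * X ^ s := by ring

/-- two fixed numbers `k`, `l` of iterates -/
theorem pair_kl {L : ℕ} {η : ℝ} (hη0 : 0 ≤ η) (hη1 : η ≤ 1) {A₀ : ℕ} (hA₀ : 2 ≤ A₀) {s : ℝ} (hs : 0 ≤ s) {CE : ℝ}
    (hE : ∀ X : ℝ, 1 ≤ X → {t | t ∈ Ex L η A₀ ∧ (t : ℝ) ≤ X}.Finite ∧
      ({t | t ∈ Ex L η A₀ ∧ (t : ℝ) ≤ X}.ncard : ℝ) ≤ CE * X ^ s)
    {f g : ℕ → ℕ} (hf : LM f) (hg : LM g) {F G : ℕ → ℝ} {d d' : ℝ} (hF : Expanding F d) (hG : Expanding G d') {κ : ℝ}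
    (hκ0 : 0 ≤ κ) (hκ : κ ≤ 1 / 2) (h1 : d * s + κ < 1) (h2 : d' * (1 - η + L * κ) + κ < 1) (k l : ℕ) :
    PairAA (fun m m' => ∀ A B : ℕ, |(A : ℝ) - F (orb f k m)| ≤ (orb f k m : ℝ) ^ κ →
      |(B : ℝ) - G (orb g l m')| ≤ (orb g l m' : ℝ) ^ κ → ¬ Bad L A B) := by
  classical
  obtain ⟨C, hC0, hC⟩ := w_count (L := L) hη0 hη1 hA₀ hF hκ0 hκ
  have u1 := windows_k (fun n : ℕ => (n : ℝ)) hf hF hs hκ0 h1 CE k
  have u2 := windows_k (fun n : ℕ => (n : ℝ)) hg hG (s := 1 - η + L * κ) (by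
    have : 0 ≤ (L : ℝ) * κ := by positivity
    linarith) hκ0 h2 C l
  intro δ hδ
  obtain ⟨N₁, g1⟩ := u1 (δ / 2) (by positivity)
  obtain ⟨N₂, g2⟩ := u2 (δ / 2) (by positivity)
  refine ⟨max N₁ N₂, fun N N' hN hN' => ?_⟩
  have b1 := g1 N ((le_max_left _ _).trans hN) ⟨Ex L η A₀, hE⟩
  have b2 : ∀ v : ℕ, _ := fun v => g2 N' ((le_max_right _ _).trans hN') ⟨W L η A₀ F κ v, hC v⟩
  obtain ⟨S₁, hS₁⟩ : ∃ S₁ : Finset ℕ, S₁ = (Icc 1 N).filter (fun m => ¬ ∀ t ∈ Ex L η A₀,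
    ¬ |(t : ℝ) - F (orb f k m)| ≤ (orb f k m : ℝ) ^ κ) := ⟨_, rfl⟩
  obtain ⟨S₂, hS₂⟩ : ∃ S₂ : ℕ → Finset ℕ, S₂ = fun v => (Icc 1 N').filter (fun m' => ¬ ∀ t ∈ W L η A₀ F κ v,
    ¬ |(t : ℝ) - G (orb g l m')| ≤ (orb g l m' : ℝ) ^ κ) := ⟨_, rfl⟩
  have c1 : (S₁.card : ℝ) ≤ δ / 2 * N := by
    rw [hS₁]
    exact le_trans (Nat.cast_le.2 (card_mono' fun _ hm => hm)) b1
  have c2 : ∀ v, ((S₂ v).card : ℝ) ≤ δ / 2 * N' := by
    intro v
    rw [hS₂]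
    exact le_trans (Nat.cast_le.2 (card_mono' fun _ hm => hm)) (b2 v)
  have hsub : ((Icc 1 N) ×ˢ (Icc 1 N')).filter (fun p => ¬ ∀ A B : ℕ, |(A : ℝ) - F (orb f k p.1)| ≤ (orb f k p.1 : ℝ) ^ κ →
      |(B : ℝ) - G (orb g l p.2)| ≤ (orb g l p.2 : ℝ) ^ κ → ¬ Bad L A B) ⊆
      (S₁ ×ˢ (Icc 1 N')) ∪ ((Icc 1 N).biUnion (fun m => (S₂ (orb f k m)).image (fun m' => (m, m')))) := by
    rintro ⟨m, m'⟩ hp
    rw [mem_filter, mem_product] at hp
    obtain ⟨⟨hm, hm'⟩, hcon⟩ := hp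
    push Not at hcon
    obtain ⟨A, B, hA, hB, hbad⟩ := hcon
    simp only at hA hB hm hm'
    rw [mem_union]
    by_cases hAE : A ∈ Ex L η A₀
    · left
      rw [mem_product, hS₁, mem_filter]
      refine ⟨⟨hm, fun h => h A hAE hA⟩, hm'⟩
    · right
      rw [mem_biUnion]
      refine ⟨m, hm, ?_⟩
      rw [mem_image]
      refine ⟨m', ?_, rfl⟩
      rw [hS₂]
      simp only
      rw [mem_filter]
      exact ⟨hm', fun h => h B ⟨orb_pos hf k m (mem_Icc.1 hm).1, A, hAE, hA, hbad⟩ hB⟩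
  have h3 : ((((Icc 1 N) ×ˢ (Icc 1 N')).filter (fun p => ¬ ∀ A B : ℕ,
      |(A : ℝ) - F (orb f k p.1)| ≤ (orb f k p.1 : ℝ) ^ κ →
      |(B : ℝ) - G (orb g l p.2)| ≤ (orb g l p.2 : ℝ) ^ κ → ¬ Bad L A B)).card : ℝ) ≤ δ * ((N : ℝ) * N') := by
    calc _ ≤ ((S₁ ×ˢ (Icc 1 N')).card : ℝ) + ∑ m ∈ Icc 1 N, (((S₂ (orb f k m)).image (fun m' => (m, m'))).card : ℝ) := by
          exact_mod_cast (card_le_card hsub).trans ((card_union_le _ _).trans (Nat.add_le_add_left card_biUnion_le _))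
      _ ≤ δ / 2 * N * N' + ∑ m ∈ Icc 1 N, δ / 2 * (N' : ℝ) := by
          refine add_le_add ?_ (sum_le_sum (fun m _ => ?_))
          · rw [card_product, Nat.card_Icc]
            rw [Nat.add_sub_cancel]
            push_cast
            exact mul_le_mul_of_nonneg_right c1 (Nat.cast_nonneg _)
          · exact le_trans (Nat.cast_le.2 card_image_le) (c2 _)
      _ = δ * ((N : ℝ) * N') := by
          rw [sum_const, Nat.card_Icc, nsmul_eq_mul, Nat.add_sub_cancel]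
          ring
  exact le_trans (Nat.cast_le.2 (card_mono2 fun _ _ hm => hm)) h3

end Run7.h430.TW.Pairs
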