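import Pool.Agent.Run7.h430.TW.PairsC
import Pool.Agent.Results.MP_2738db_nt.PowerSavingPairs

set_option autoImplicit false

/-!
Pairs of bases of solutions of the Fermat-Catalan equation and pairs of orbits of Euler's function: the constants (helper430).
-/

namespace Run7.h430.TW.Pairs

open Finset Filter Topology
open Pool.Agent.N733.TG (LM Expanding)
open Pool.Agent.N826.IT.Orb (AlmostAll almostAll_mono)
open Pool.Agent.N760.IT (orb orbit_windows)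

theorem count_mono {δ δ' : ℝ} (h : δ' ≤ δ) (hC : Count δ) : Count δ' := by
  intro K
  obtain ⟨N₀, h0⟩ := hC K
  refine ⟨max N₀ 1, fun N hN X Y hX hY hXK hYK => (h0 N ((le_max_left _ _).trans hN) X Y hX hY hXK hYK).trans ?_⟩
  have hN1 : (1 : ℝ) ≤ N := by exact_mod_cast (le_max_right N₀ 1).trans hN
  exact mul_le_mul_of_nonneg_right (Real.rpow_le_rpow_of_exponent_le hN1 (by linarith)) (by positivity)

theorem count_start : ∃ δ : ℝ, 0 < δ ∧ δ ≤ 1 ∧ Count δ := by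
  obtain ⟨⟨δ, c, hδ, -, h⟩, -⟩ := Pool.Agent.Results.MP_2738db_nt.PowerSavingPairs.result
  refine ⟨min δ 1, lt_min hδ one_pos, min_le_right _ _, count_mono (min_le_left _ _) ?_⟩
  intro K
  obtain ⟨N₀, h0⟩ := h K
  refine ⟨N₀, fun N hN X Y hX hY hXK hYK => ?_⟩
  have h1 := (h0 N hN X Y 0 0 hX hY (by rw [zero_add]; exact hXK) (by rw [zero_add]; exact hYK)).1
  refine le_trans (le_of_eq ?_) h1
  congr 2
  ext p
  simp only [Pool.Agent.Results.MP_2738db_nt.PowerSavingPairs.Box, Set.mem_ofPred_eq,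
    zero_add]
  constructor
  · rintro ⟨h1, h2, h3, x, y, z, C, h4, h5⟩
    exact ⟨⟨h1, h2, h3⟩, x, y, z, C, h4, h5⟩
  · rintro ⟨⟨h1, h2, h3⟩, x, y, z, C, h4, h5⟩
    exact ⟨h1, h2, h3, x, y, z, C, h4, h5⟩

/-- all constants -/
theorem consts (L : ℕ) : ∃ (c η s CE : ℝ) (A₀ : ℕ), 0 < c ∧ c ≤ 1 / 4 ∧ 0 ≤ η ∧ η ≤ 1 ∧ 2 ≤ A₀ ∧ 0 ≤ s ∧ s ≤ 1 - c ∧ 2 * c ≤ η ∧
    2 * L * c ≤ η ∧ ∀ X : ℝ, 1 ≤ X → {t | t ∈ Ex L η A₀ ∧ (t : ℝ) ≤ X}.Finite ∧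
      ({t | t ∈ Ex L η A₀ ∧ (t : ℝ) ≤ X}.ncard : ℝ) ≤ CE * X ^ s := by
  classical
  obtain ⟨δ, hδ, hδ1, hC⟩ := count_start
  obtain ⟨X₀, hX₀, hbox⟩ := box_count hC L
  obtain ⟨C, hC0, hex⟩ := ex_count hδ hδ1 L hX₀ hbox
  have hL : (0 : ℝ) ≤ L := Nat.cast_nonneg _
  have hL1 : (1 : ℝ) ≤ (L : ℝ) + 1 := by linarith
  have hL2 : (1 : ℝ) ≤ ((L : ℝ) + 1) ^ 2 := one_le_pow₀ hL1
  have hL3 : (1 : ℝ) ≤ ((L : ℝ) + 1) ^ 3 := one_le_pow₀ hL1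
  have hc : δ / (4 * ((L : ℝ) + 1) ^ 3) * (4 * ((L : ℝ) + 1) ^ 3) = δ := by field_simp
  have hc0 : 0 < δ / (4 * ((L : ℝ) + 1) ^ 3) := by positivity
  have e1 : δ / (2 * ((L : ℝ) + 1) ^ 2) = 2 * ((L : ℝ) + 1) * (δ / (4 * ((L : ℝ) + 1) ^ 3)) := by
    field_simp
    norm_num
  have e2 : δ / (4 * ((L : ℝ) + 1)) = ((L : ℝ) + 1) ^ 2 * (δ / (4 * ((L : ℝ) + 1) ^ 3)) := by
    field_simp
  have hη1 : δ / (2 * ((L : ℝ) + 1) ^ 2) ≤ 1 := by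
    rw [div_le_one (by positivity)]
    nlinarith
  have hs1 : δ / (4 * ((L : ℝ) + 1)) ≤ 1 := by
    rw [div_le_one (by positivity)]
    nlinarith
  refine ⟨δ / (4 * ((L : ℝ) + 1) ^ 3), δ / (2 * ((L : ℝ) + 1) ^ 2), 1 - δ / (4 * ((L : ℝ) + 1)), C + 1, X₀ ^ (L + 1), hc0, ?_,
    by positivity, hη1, ?_, by linarith, ?_, ?_, ?_, ?_⟩
  · rw [div_le_iff₀ (by positivity)]
    nlinarith
  · exact hX₀.trans (Nat.le_self_pow (by omega) _)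
  · rw [e2]
    have := mul_le_mul_of_nonneg_right hL2 hc0.le
    linarith
  · rw [e1]
    have := mul_le_mul_of_nonneg_right hL1 hc0.le
    linarith
  · rw [e1]
    have : (L : ℝ) * (δ / (4 * ((L : ℝ) + 1) ^ 3)) ≤ ((L : ℝ) + 1) * (δ / (4 * ((L : ℝ) + 1) ^ 3)) :=
      mul_le_mul_of_nonneg_right (by linarith) hc0.le
    linarith
  · refine ex_few hC0 (by linarith) (fun X hX S hS => le_trans ?_ (hex X hX))
    apply Nat.cast_le.2 (card_le_card _)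
    intro A hA
    obtain ⟨a1, a2, a3⟩ := hS A hA
    rw [mem_filter, mem_Icc]
    exact ⟨⟨a1, a2⟩, a3⟩

/-- **The theorem on orbits.** -/
theorem main (L : ℕ) : ∃ c : ℝ, 0 < c ∧
    (∀ f : ℕ → ℕ, LM f → ∀ (G : ℕ → ℝ) (d : ℝ), Expanding G d → ∀ κ : ℝ, 0 ≤ κ → d * (1 - c) + κ < 1 →
      ∃ K : ℕ → ℕ, Tendsto K atTop atTop ∧ AlmostAll (fun m => ∀ k ≤ K m, ∀ A : ℕ,
        |(A : ℝ) - G (orb f k m)| ≤ (orb f k m : ℝ) ^ κ → ∀ Y : ℕ, 1 ≤ Y → (cnt L A Y : ℝ) ≤ 2 * (Y : ℝ) ^ (1 - c))) ∧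
    (∀ f g : ℕ → ℕ, LM f → LM g → ∀ (F G : ℕ → ℝ) (d d' : ℝ), Expanding F d → Expanding G d' → ∀ κ : ℝ, 0 ≤ κ →
      d * (1 - c) + κ < 1 → d' * (1 - c) + κ < 1 → ∀ k l : ℕ,
      PairAA (fun m m' => ∀ A B : ℕ, |(A : ℝ) - F (orb f k m)| ≤ (orb f k m : ℝ) ^ κ →
        |(B : ℝ) - G (orb g l m')| ≤ (orb g l m' : ℝ) ^ κ → ¬ Bad L A B)) := by
  obtain ⟨c, η, s, CE, A₀, hc, hc4, hη0, hη1, hA₀, hs0, hs1, hcη, hLc, hE⟩ := consts L
  refine ⟨c, hc, fun f hf G d hG κ hκ h1 => ?_, fun f g hf hg F G d d' hF hG κ hκ h1 h2 k l => ?_⟩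
  · have hd := hG.one_le
    have hds : d * s + κ < 1 := lt_of_le_of_lt (by
      have := mul_le_mul_of_nonneg_left hs1 (by linarith : 0 ≤ d)
      linarith) h1
    obtain ⟨K, hK, hK2⟩ := orbit_windows (Ex L η A₀) (fun n : ℕ => (n : ℝ)) hf hG hs0 hκ hds (fun ε hε =>
      ⟨|CE|, fun X hX => ⟨(hE X hX).1, (hE X hX).2.trans (by
        calc CE * X ^ s ≤ |CE| * X ^ s := mul_le_mul_of_nonneg_right (le_abs_self CE) (by positivity)
          _ ≤ |CE| * X ^ (s + ε) := mul_le_mul_of_nonneg_left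
              (Real.rpow_le_rpow_of_exponent_le hX (by linarith)) (abs_nonneg CE))⟩⟩)
    refine ⟨K, hK, almostAll_mono hK2 (fun m hm k hk A hA Y hY => ?_)⟩
    have hAE : A ∉ Ex L η A₀ := fun h => hm k hk A h hA
    refine (good_cnt hη0 hη1 hA₀ hAE Y hY).trans ?_
    have hY1 : (1 : ℝ) ≤ Y := by exact_mod_cast hY
    exact mul_le_mul_of_nonneg_left (Real.rpow_le_rpow_of_exponent_le hY1 (by linarith)) (by norm_num)
  · have hd := hF.one_le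
    have hd' := hG.one_le
    have hκc : κ ≤ c := by nlinarith
    have hL : (0 : ℝ) ≤ L := Nat.cast_nonneg _
    have hLκ : (L : ℝ) * κ ≤ η / 2 := by
      have := mul_le_mul_of_nonneg_left hκc hL
      linarith
    refine pair_kl hη0 hη1 hA₀ hs0 hE hf hg hF hG hκ (by linarith) ?_ ?_ k l
    · refine lt_of_le_of_lt ?_ h1
      have := mul_le_mul_of_nonneg_left hs1 (by linarith : 0 ≤ d)
      linarith
    · refine lt_of_le_of_lt ?_ h2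
      have h3 : 1 - η + L * κ ≤ 1 - c := by linarith
      have := mul_le_mul_of_nonneg_left h3 (by linarith : 0 ≤ d')
      linarith

/-- the version with `L` tending to infinity -/
def Bad3 (L A B : ℕ) : Prop :=
  3 ≤ A ∧ Nat.Coprime A B ∧ A ≤ B ^ L ∧ B ≤ A ^ L ∧ ∃ x y z C : ℕ, Solves A B x y z C ∧
    (2 ∣ A * B ∨ ((min x y : ℕ) : ℝ) ≤ Real.exp (Real.log A ^ L))

theorem bad3_mono {i j A B : ℕ} (hij : i ≤ j) (h : Bad3 i A B) : Bad3 j A B := by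
  obtain ⟨hA, hco, hAB, hBA, x, y, z, C, hs, hc⟩ := h
  have hB : 1 ≤ B := by
    by_contra hcon
    have : B = 0 := by omega
    rw [this, Nat.coprime_zero_right] at hco
    omega
  refine ⟨hA, hco, hAB.trans (Nat.pow_le_pow_right hB hij), hBA.trans (Nat.pow_le_pow_right (by omega) hij), x, y, z, C, hs, ?_⟩
  rcases hc with h | h
  · exact Or.inl h
  · right
    refine h.trans (Real.exp_le_exp.2 ?_)
    have hA3 : (3 : ℝ) ≤ A := by exact_mod_cast hA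
    have h1 : 1 ≤ Real.log A := by
      rw [Real.le_log_iff_exp_le (by linarith)]
      have := Real.exp_one_lt_d9
      linarith
    exact pow_le_pow_right₀ h1 hij

theorem bad_of_bad3 {L A B : ℕ} (h : Bad3 L A B) : Bad L A B := by
  obtain ⟨-, hco, hAB, hBA, x, y, z, C, hs, hc⟩ := h
  refine ⟨hco, hAB, hBA, x, y, z, C, hs, ?_⟩
  rcases hc with h | h
  · exact Or.inl h
  · exact Or.inr (Or.inr h)

theorem pairs_windows (L : ℕ) {c : ℝ} (hmain : ∀ f g : ℕ → ℕ, LM f → LM g → ∀ (F G : ℕ → ℝ) (d d' : ℝ), Expanding F d →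
      Expanding G d' → ∀ κ : ℝ, 0 ≤ κ → d * (1 - c) + κ < 1 → d' * (1 - c) + κ < 1 → ∀ k l : ℕ,
      PairAA (fun m m' => ∀ A B : ℕ, |(A : ℝ) - F (orb f k m)| ≤ (orb f k m : ℝ) ^ κ →
        |(B : ℝ) - G (orb g l m')| ≤ (orb g l m' : ℝ) ^ κ → ¬ Bad L A B))
    {f g : ℕ → ℕ} (hf : LM f) (hg : LM g) {F G : ℕ → ℝ} {d d' : ℝ} (hF : Expanding F d) (hG : Expanding G d') {κ : ℝ}
    (hκ : 0 ≤ κ) (h1 : d * (1 - c) + κ < 1) (h2 : d' * (1 - c) + κ < 1) :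
    ∃ K : ℕ → ℕ, Tendsto K atTop atTop ∧ PairAA (fun m m' => ∀ k ≤ K (min m m'), ∀ l ≤ K (min m m'), ∀ A B : ℕ,
      |(A : ℝ) - F (orb f k m)| ≤ (orb f k m : ℝ) ^ κ →
        |(B : ℝ) - G (orb g l m')| ≤ (orb g l m' : ℝ) ^ κ → ¬ Bad L A B) := by
  refine PairAA.diagonal (P := fun j m m' => ∀ k ≤ j, ∀ l ≤ j, ∀ A B : ℕ,
      |(A : ℝ) - F (orb f k m)| ≤ (orb f k m : ℝ) ^ κ →
        |(B : ℝ) - G (orb g l m')| ≤ (orb g l m' : ℝ) ^ κ → ¬ Bad L A B)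
    (fun a b m m' hab h k hk l hl => h k (hk.trans hab) l (hl.trans hab)) (fun j => ?_)
  refine (PairAA.finset ((range (j + 1)) ×ˢ (range (j + 1))) (P := fun p m m' => ∀ A B : ℕ,
      |(A : ℝ) - F (orb f p.1 m)| ≤ (orb f p.1 m : ℝ) ^ κ →
        |(B : ℝ) - G (orb g p.2 m')| ≤ (orb g p.2 m' : ℝ) ^ κ → ¬ Bad L A B)
    (fun p _ => hmain f g hf hg F G d d' hF hG κ hκ h1 h2 p.1 p.2)).mono (fun m m' hm k hk l hl => ?_)
  exact hm (k, l) (mem_product.2 ⟨mem_range.2 (by simp only; omega), mem_range.2 (by simp only; omega)⟩)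

theorem pairs_slow {f g : ℕ → ℕ} (hf : LM f) (hg : LM g) :
    ∃ K : ℕ → ℕ, Tendsto K atTop atTop ∧ PairAA (fun m m' => ∀ k l a b : ℕ, ∀ h h' : ℤ, k ≤ K (min m m') → l ≤ K (min m m') →
      1 ≤ a → a ≤ K (min m m') → 1 ≤ b → b ≤ K (min m m') → |h| ≤ K (min m m') → |h'| ≤ K (min m m') → ∀ A B : ℕ,
      (A : ℤ) = a * orb f k m + h → (B : ℤ) = b * orb g l m' + h' → ¬ Bad3 (K (min m m')) A B) := by
  refine PairAA.diagonal (P := fun j m m' => ∀ k l a b : ℕ, ∀ h h' : ℤ, k ≤ j → l ≤ j → 1 ≤ a → a ≤ j → 1 ≤ b → b ≤ j →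
      |h| ≤ j → |h'| ≤ j → ∀ A B : ℕ, (A : ℤ) = a * orb f k m + h → (B : ℤ) = b * orb g l m' + h' → ¬ Bad3 j A B)
    ?_ (fun j => ?_)
  · intro i j m m' hij h k l a b u u' h1 h2 h3 h4 h5 h6 h7 h8 A B hA hB hbad
    exact h k l a b u u' (h1.trans hij) (h2.trans hij) h3 (h4.trans hij) h5 (h6.trans hij)
      (h7.trans (by exact_mod_cast hij)) (h8.trans (by exact_mod_cast hij)) A B hA hB (bad3_mono hij hbad)
  · obtain ⟨c, hc, -, hmain⟩ := main j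
    have hset : ∀ p ∈ ((range (j + 1)) ×ˢ (range (j + 1))) ×ˢ (((Icc 1 j) ×ˢ (Icc 1 j)) ×ˢ
        ((Icc (-(j : ℤ)) j) ×ˢ (Icc (-(j : ℤ)) j))), PairAA (fun m m' => ∀ A B : ℕ,
        |(A : ℝ) - ((p.2.1.1 : ℝ) * (orb f p.1.1 m : ℝ) + p.2.2.1)| ≤ (orb f p.1.1 m : ℝ) ^ (0 : ℝ) →
        |(B : ℝ) - ((p.2.1.2 : ℝ) * (orb g p.1.2 m' : ℝ) + p.2.2.2)| ≤ (orb g p.1.2 m' : ℝ) ^ (0 : ℝ) → ¬ Bad j A B) := by
      rintro ⟨⟨k, l⟩, ⟨a, b⟩, ⟨h, h'⟩⟩ hp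
      simp only [mem_product, mem_range, mem_Icc] at hp
      exact hmain f g hf hg _ _ 1 1 (expanding_lin hp.2.1.1.1 h) (expanding_lin hp.2.1.2.1 h') 0 le_rfl (by linarith)
        (by linarith) k l
    refine (PairAA.finset _ hset).mono (fun m m' hm k l a b h h' h1 h2 h3 h4 h5 h6 h7 h8 A B hA hB hbad => ?_)
    rw [abs_le] at h7 h8
    refine hm ((k, l), (a, b), (h, h')) ?_ A B ?_ ?_ (bad_of_bad3 hbad)
    · simp only [mem_product, mem_range, mem_Icc]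
      exact ⟨⟨by omega, by omega⟩, ⟨⟨h3, h4⟩, ⟨h5, h6⟩⟩, h7, h8⟩
    · have e1 : (A : ℝ) = a * orb f k m + h := by exact_mod_cast hA
      simp only
      rw [e1, sub_self, abs_zero, Real.rpow_zero]
      exact zero_le_one
    · have e1 : (B : ℝ) = b * orb g l m' + h' := by exact_mod_cast hB
      simp only
      rw [e1, sub_self, abs_zero, Real.rpow_zero]
      exact zero_le_one

end Run7.h430.TW.Pairs
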