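import Pool.Agent.Run7.h430.TW.PairsC
import Pool.Agent.Run7.h430.TW.Kit

set_option autoImplicit false

/-!
A relation between integers of polynomially related size with a power saving in boxes, and pairs of orbits of Euler's
function (helper430). The argument of `PairsA`, `PairsB`, `PairsC`, `PairsD` for a general relation.
-/

namespace Run7.h430.TW.RPairs

open Finset Filter Topology
open Pool.Agent.N733.TG (LM Expanding)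
open Pool.Agent.N826.IT.Orb (AlmostAll almostAll_mono card_mono')
open Pool.Agent.N760.IT (orb orbit_windows)
open Run7.h430.TW.Pairs (PairAA card_mono2 log_factor ex_few interval_card le_mul_near orb_pos)

/-- `R A B` holds only for integers of polynomially related size -/
structure Rel (R : ℕ → ℕ → Prop) (L : ℕ) : Prop where
  one_le : ∀ A B, R A B → 1 ≤ B
  left : ∀ A B, R A B → A ≤ B ^ L
  right : ∀ A B, R A B → B ≤ A ^ L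

open Classical in
/-- the number of the bad `B ≤ Y` -/
noncomputable def cnt (R : ℕ → ℕ → Prop) (A Y : ℕ) : ℕ := ((Icc 1 Y).filter (fun B => R A B)).card

/-- a power saving in boxes -/
def BoxCount (R : ℕ → ℕ → Prop) (L : ℕ) (δ : ℝ) (X₀ : ℕ) : Prop := ∀ X Y : ℕ, X₀ ≤ X → X₀ ≤ Y → X ≤ Y ^ (L + 1) →
  Y ≤ X ^ (L + 1) → ((∑ A ∈ Icc 1 X, cnt R A Y : ℕ) : ℝ) ≤ ((min X Y : ℕ) : ℝ) ^ (-δ) * ((X : ℝ) * Y)

/-- a property of almost all `m` and a property of almost all `m'` -/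
theorem pair_of_both {P Q : ℕ → Prop} (hP : AlmostAll P) (hQ : AlmostAll Q) : PairAA (fun m m' => P m ∧ Q m') := by
  classical
  intro δ hδ
  rw [Pool.Agent.N826.IT.Orb.almostAll_iff] at hP hQ
  obtain ⟨N₁, h₁⟩ := hP (δ / 2) (by positivity)
  obtain ⟨N₂, h₂⟩ := hQ (δ / 2) (by positivity)
  refine ⟨max N₁ N₂, fun N N' hN hN' => ?_⟩
  obtain ⟨S, hS⟩ : ∃ S : Finset ℕ, S = (Icc 1 N).filter (fun m => ¬ P m) := ⟨_, rfl⟩
  obtain ⟨T, hT⟩ : ∃ T : Finset ℕ, T = (Icc 1 N').filter (fun m => ¬ Q m) := ⟨_, rfl⟩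
  have b1 : (S.card : ℝ) ≤ δ / 2 * N := by
    rw [hS]
    exact le_trans (Nat.cast_le.2 (card_mono' fun _ hm => hm)) (h₁ N ((le_max_left _ _).trans hN))
  have b2 : (T.card : ℝ) ≤ δ / 2 * N' := by
    rw [hT]
    exact le_trans (Nat.cast_le.2 (card_mono' fun _ hm => hm)) (h₂ N' ((le_max_right _ _).trans hN'))
  have hsub : ((Icc 1 N) ×ˢ (Icc 1 N')).filter (fun p => ¬ (P p.1 ∧ Q p.2)) ⊆ (S ×ˢ (Icc 1 N')) ∪ ((Icc 1 N) ×ˢ T) := by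
    rintro ⟨m, m'⟩ hp
    rw [mem_filter, mem_product] at hp
    obtain ⟨⟨hm, hm'⟩, hcon⟩ := hp
    rw [mem_union, mem_product, mem_product, hS, hT, mem_filter, mem_filter]
    by_cases h3 : P m
    · exact Or.inr ⟨hm, hm', fun h4 => hcon ⟨h3, h4⟩⟩
    · exact Or.inl ⟨⟨hm, h3⟩, hm'⟩
  have h3 : ((((Icc 1 N) ×ˢ (Icc 1 N')).filter (fun p => ¬ (P p.1 ∧ Q p.2))).card : ℝ) ≤ δ * ((N : ℝ) * N') := by
    calc _ ≤ ((S ×ˢ (Icc 1 N')).card : ℝ) + ((Icc 1 N) ×ˢ T).card := by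
          exact_mod_cast (card_le_card hsub).trans (card_union_le _ _)
      _ = (S.card : ℝ) * N' + N * T.card := by
          rw [card_product, card_product, Nat.card_Icc, Nat.card_Icc, Nat.add_sub_cancel, Nat.add_sub_cancel]
          push_cast
          ring
      _ ≤ δ / 2 * N * N' + N * (δ / 2 * N') := add_le_add (mul_le_mul_of_nonneg_right b1 (Nat.cast_nonneg _))
          (mul_le_mul_of_nonneg_left b2 (Nat.cast_nonneg _))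
      _ = δ * ((N : ℝ) * N') := by ring
  exact le_trans (Nat.cast_le.2 (card_mono2 fun _ _ hm => hm)) h3

/-- the exceptional first members -/
def Ex (R : ℕ → ℕ → Prop) (L : ℕ) (η : ℝ) (A₀ : ℕ) : Set ℕ :=
  {A | A < A₀ ∨ ∃ i j : ℕ, A ≤ 2 ^ i ∧ 2 ^ i ≤ 2 * A ∧ 2 ^ i ≤ (2 ^ j) ^ (L + 1) ∧ 2 ^ j ≤ (2 ^ i) ^ (L + 1) ∧
    ((2 ^ j : ℕ) : ℝ) ^ (1 - η) < (cnt R A (2 ^ j) : ℝ)}

theorem cnt_mono (R : ℕ → ℕ → Prop) (A : ℕ) {Y Y' : ℕ} (h : Y ≤ Y') : cnt R A Y ≤ cnt R A Y' := by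
  classical
  unfold cnt
  apply card_le_card
  intro B hB
  rw [mem_filter, mem_Icc] at hB ⊢
  exact ⟨⟨hB.1.1, hB.1.2.trans h⟩, hB.2⟩

/-- away from the exceptional set there are few bad second members -/
theorem good_cnt {R : ℕ → ℕ → Prop} {L : ℕ} (hR : Rel R L) {η : ℝ} (hη0 : 0 ≤ η) (hη1 : η ≤ 1) {A₀ : ℕ} (hA₀ : 2 ≤ A₀) {A : ℕ} (hA : A ∉ Ex R L η A₀)
    (Y : ℕ) (hY : 1 ≤ Y) : (cnt R A Y : ℝ) ≤ 2 * (Y : ℝ) ^ (1 - η) := by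
  classical
  have hYr : (1 : ℝ) ≤ Y := by exact_mod_cast hY
  by_cases h0 : cnt R A Y = 0
  · rw [h0]
    simp only [CharP.cast_eq_zero]
    positivity
  have hA2 : 2 ≤ A := by
    by_contra hcon
    exact hA (Or.inl (by omega))
  obtain ⟨B, hB⟩ : ((Icc 1 Y).filter (fun B => R A B)).Nonempty := card_pos.1 (Nat.pos_of_ne_zero h0)
  rw [mem_filter, mem_Icc] at hB
  obtain ⟨⟨hB1, hBY⟩, hbad⟩ := hB
  have hAB := hR.left _ _ hbad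
  have hBA := hR.right _ _ hbad
  have hL : 1 ≤ L := by
    by_contra hcon
    have : L = 0 := by omega
    rw [this, pow_zero] at hAB
    omega
  have hB2 : 2 ≤ B := by
    by_contra hcon
    have : B = 1 := by omega
    rw [this, one_pow] at hAB
    omega
  obtain ⟨Y', hY'⟩ : ∃ Y', Y' = min Y (A ^ L) := ⟨_, rfl⟩
  have hAL : A ≤ A ^ L := Nat.le_self_pow (by omega) A
  have hY'2 : 2 ≤ Y' := by
    rw [hY']
    exact le_min (hB2.trans hBY) (hA2.trans hAL)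
  have hY'Y : Y' ≤ Y := by rw [hY']; exact min_le_left _ _
  have hY'A : Y' ≤ A ^ L := by rw [hY']; exact min_le_right _ _
  have hAY' : A ≤ Y' ^ L := by
    rcases le_total Y (A ^ L) with h | h
    · rw [hY', min_eq_left h]
      exact hAB.trans (Nat.pow_le_pow_left hBY L)
    · rw [hY', min_eq_right h]
      exact hAL.trans (Nat.le_self_pow (by omega) _)
  have hcnt : cnt R A Y ≤ cnt R A Y' := by
    unfold cnt
    apply card_le_card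
    intro b hb
    rw [mem_filter, mem_Icc] at hb ⊢
    refine ⟨⟨hb.1.1, ?_⟩, hb.2⟩
    rw [hY']
    exact le_min hb.1.2 (hR.right _ _ hb.2)
  obtain ⟨i, hi⟩ : ∃ i, i = Nat.clog 2 A := ⟨_, rfl⟩
  obtain ⟨j, hj⟩ : ∃ j, j = Nat.clog 2 Y' := ⟨_, rfl⟩
  have hclog : ∀ n : ℕ, 2 ≤ n → n ≤ 2 ^ Nat.clog 2 n ∧ 2 ^ Nat.clog 2 n ≤ 2 * n ∧ 2 ≤ 2 ^ Nat.clog 2 n := by
    intro n hn
    have h1 : n ≤ 2 ^ Nat.clog 2 n := Nat.le_pow_clog (by norm_num) n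
    have h2 : 2 ^ (Nat.clog 2 n).pred < n := Nat.pow_pred_clog_lt_self (by norm_num) (by omega)
    have h3 : 0 < Nat.clog 2 n := Nat.clog_pos (by norm_num) hn
    obtain ⟨c, hc⟩ : ∃ c, Nat.clog 2 n = c + 1 := ⟨Nat.clog 2 n - 1, by omega⟩
    rw [hc] at h2 ⊢
    rw [Nat.pred_succ] at h2
    refine ⟨by rw [← hc]; exact h1, ?_, ?_⟩
    · rw [pow_succ]
      omega
    · rw [pow_succ]
      have : 1 ≤ 2 ^ c := Nat.one_le_two_pow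
      omega
  obtain ⟨i1, i2, i3⟩ := hclog A hA2
  obtain ⟨j1, j2, j3⟩ := hclog Y' hY'2
  rw [← hi] at i1 i2 i3
  rw [← hj] at j1 j2 j3
  have c1 : 2 ^ i ≤ (2 ^ j) ^ (L + 1) := by
    calc 2 ^ i ≤ 2 * A := i2
      _ ≤ 2 ^ j * (2 ^ j) ^ L := Nat.mul_le_mul j3 (hAY'.trans (Nat.pow_le_pow_left j1 L))
      _ = (2 ^ j) ^ (L + 1) := by rw [pow_succ, mul_comm]
  have c2 : 2 ^ j ≤ (2 ^ i) ^ (L + 1) := by
    calc 2 ^ j ≤ 2 * Y' := j2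
      _ ≤ 2 ^ i * (2 ^ i) ^ L := Nat.mul_le_mul i3 (hY'A.trans (Nat.pow_le_pow_left i1 L))
      _ = (2 ^ i) ^ (L + 1) := by rw [pow_succ, mul_comm]
  have h5 : (cnt R A (2 ^ j) : ℝ) ≤ ((2 ^ j : ℕ) : ℝ) ^ (1 - η) := by
    by_contra hcon
    rw [not_le] at hcon
    exact hA (Or.inr ⟨i, j, i1, i2, c1, c2, hcon⟩)
  have h6 : ((2 ^ j : ℕ) : ℝ) ≤ 2 * (Y : ℝ) := by exact_mod_cast j2.trans (Nat.mul_le_mul_left 2 hY'Y)
  calc (cnt R A Y : ℝ) ≤ cnt R A (2 ^ j) := by exact_mod_cast hcnt.trans (cnt_mono R A j1)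
    _ ≤ ((2 ^ j : ℕ) : ℝ) ^ (1 - η) := h5
    _ ≤ (2 * (Y : ℝ)) ^ (1 - η) := Real.rpow_le_rpow (by positivity) h6 (by linarith)
    _ = 2 ^ (1 - η) * (Y : ℝ) ^ (1 - η) := Real.mul_rpow (by norm_num) (by positivity)
    _ ≤ 2 ^ (1 : ℝ) * (Y : ℝ) ^ (1 - η) := mul_le_mul_of_nonneg_right
        (Real.rpow_le_rpow_of_exponent_le (by norm_num) (by linarith)) (by positivity)
    _ = 2 * (Y : ℝ) ^ (1 - η) := by rw [Real.rpow_one]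

open Classical in
/-- Markov's inequality in one box -/
theorem box_ex {R : ℕ → ℕ → Prop} {δ : ℝ} (hδ : 0 < δ) (L : ℕ) {X₀ : ℕ} (hX₀ : 2 ≤ X₀)
    (h : BoxCount R L δ X₀)
    {X Y : ℕ} (hX : X₀ ≤ X) (hY : X₀ ≤ Y) (hXY : X ≤ Y ^ (L + 1)) (hYX : Y ≤ X ^ (L + 1)) :
    ((((Icc 1 X).filter (fun A => (Y : ℝ) ^ (1 - δ / (2 * ((L : ℝ) + 1) ^ 2)) < (cnt R A Y : ℝ))).card : ℕ) : ℝ) ≤
      (X : ℝ) ^ (1 - δ / (2 * ((L : ℝ) + 1))) := by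
  have hL0 : (0 : ℝ) < (L : ℝ) + 1 := by positivity
  have hX1 : (1 : ℝ) ≤ X := by exact_mod_cast (by omega : 1 ≤ X)
  have hY1 : (1 : ℝ) ≤ Y := by exact_mod_cast (by omega : 1 ≤ Y)
  have hX0 : (0 : ℝ) < X := by linarith
  have hY0 : (0 : ℝ) < Y := by linarith
  obtain ⟨η, hη⟩ : ∃ η, η = δ / (2 * ((L : ℝ) + 1) ^ 2) := ⟨_, rfl⟩
  have hη0 : 0 < η := by rw [hη]; positivity
  rw [← hη]
  obtain ⟨N, hN⟩ : ∃ N, N = min X Y := ⟨_, rfl⟩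
  have h1 := h X Y hX hY hXY hYX
  rw [← hN] at h1
  have hN1 : 1 ≤ N := by rw [hN]; exact le_min (by omega) (by omega)
  have hN1r : (1 : ℝ) ≤ N := by exact_mod_cast hN1
  have hXN : X ≤ N ^ (L + 1) := by
    rcases le_total X Y with h | h
    · rw [hN, min_eq_left h]
      exact Nat.le_self_pow (by omega) X
    · rw [hN, min_eq_right h]
      exact hXY
  -- `N ^ (-δ) ≤ X ^ (-δ / (L + 1))`
  have h2 : (N : ℝ) ^ (-δ) ≤ (X : ℝ) ^ (-(δ / ((L : ℝ) + 1))) := by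
    have h3 : (X : ℝ) ≤ (N : ℝ) ^ ((L : ℝ) + 1) := by
      calc (X : ℝ) ≤ ((N ^ (L + 1) : ℕ) : ℝ) := by exact_mod_cast hXN
        _ = (N : ℝ) ^ ((L : ℝ) + 1) := by
          push_cast
          rw [← Real.rpow_natCast]
          push_cast
          rfl
    have h4 : (X : ℝ) ^ (δ / ((L : ℝ) + 1)) ≤ (N : ℝ) ^ δ := by
      calc (X : ℝ) ^ (δ / ((L : ℝ) + 1)) ≤ ((N : ℝ) ^ ((L : ℝ) + 1)) ^ (δ / ((L : ℝ) + 1)) :=
            Real.rpow_le_rpow hX0.le h3 (by positivity)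
        _ = (N : ℝ) ^ δ := by
          rw [← Real.rpow_mul (by linarith)]
          congr 1
          field_simp
    rw [Real.rpow_neg (by linarith), Real.rpow_neg hX0.le]
    exact inv_anti₀ (by positivity) h4
  have h5 : (Y : ℝ) ^ η ≤ (X : ℝ) ^ (((L : ℝ) + 1) * η) := by
    rw [Real.rpow_mul hX0.le]
    refine Real.rpow_le_rpow hY0.le ?_ hη0.le
    calc (Y : ℝ) ≤ ((X ^ (L + 1) : ℕ) : ℝ) := by exact_mod_cast hYX
      _ = (X : ℝ) ^ ((L : ℝ) + 1) := by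
        push_cast
        rw [← Real.rpow_natCast]
        push_cast
        rfl
  -- Markov
  have h6 : ((((Icc 1 X).filter (fun A => (Y : ℝ) ^ (1 - η) < (cnt R A Y : ℝ))).card : ℕ) : ℝ) * (Y : ℝ) ^ (1 - η) ≤
      ((∑ A ∈ Icc 1 X, cnt R A Y : ℕ) : ℝ) := by
    rw [← nsmul_eq_mul]
    push_cast
    calc _ ≤ ∑ A ∈ (Icc 1 X).filter (fun A => (Y : ℝ) ^ (1 - η) < (cnt R A Y : ℝ)), (cnt R A Y : ℝ) :=
          card_nsmul_le_sum _ _ _ (fun A hA => ((mem_filter.1 hA).2).le)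
      _ ≤ ∑ A ∈ Icc 1 X, (cnt R A Y : ℝ) :=
          sum_le_sum_of_subset_of_nonneg (filter_subset _ _) (fun _ _ _ => Nat.cast_nonneg _)
  have hYη : 0 < (Y : ℝ) ^ (1 - η) := by positivity
  rw [← le_div_iff₀ hYη] at h6
  refine h6.trans ?_
  rw [div_le_iff₀ hYη]
  refine h1.trans ?_
  have e1 : (Y : ℝ) = (Y : ℝ) ^ η * (Y : ℝ) ^ (1 - η) := by
    rw [← Real.rpow_add hY0]
    norm_num
  calc (N : ℝ) ^ (-δ) * ((X : ℝ) * Y) ≤ (X : ℝ) ^ (-(δ / ((L : ℝ) + 1))) * ((X : ℝ) * Y) :=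
        mul_le_mul_of_nonneg_right h2 (by positivity)
    _ = (X : ℝ) ^ (-(δ / ((L : ℝ) + 1))) * ((X : ℝ) * ((Y : ℝ) ^ η * (Y : ℝ) ^ (1 - η))) := by rw [← e1]
    _ ≤ (X : ℝ) ^ (-(δ / ((L : ℝ) + 1))) * ((X : ℝ) * ((X : ℝ) ^ (((L : ℝ) + 1) * η) * (Y : ℝ) ^ (1 - η))) := by
        gcongr
    _ = ((X : ℝ) ^ (-(δ / ((L : ℝ) + 1))) * (X : ℝ) ^ (1 : ℝ) * (X : ℝ) ^ (((L : ℝ) + 1) * η)) * (Y : ℝ) ^ (1 - η) := by
        rw [Real.rpow_one]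
        ring
    _ = (X : ℝ) ^ (1 - δ / (2 * ((L : ℝ) + 1))) * (Y : ℝ) ^ (1 - η) := by
        congr 1
        rw [← Real.rpow_add hX0, ← Real.rpow_add hX0]
        congr 1
        rw [hη]
        field_simp
        ring

open Classical in
/-- the exceptional first members are thin -/
theorem ex_count {R : ℕ → ℕ → Prop} {δ : ℝ} (hδ : 0 < δ) (hδ1 : δ ≤ 1) (L : ℕ) {X₀ : ℕ} (hX₀ : 2 ≤ X₀)
    (h : BoxCount R L δ X₀) :
    ∃ C : ℝ, 0 < C ∧ ∀ X : ℕ, 1 ≤ X →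
      ((((Icc 1 X).filter (fun A => A ∈ Ex R L (δ / (2 * ((L : ℝ) + 1) ^ 2)) (X₀ ^ (L + 1)))).card : ℕ) : ℝ) ≤
        C * (X : ℝ) ^ (1 - δ / (4 * ((L : ℝ) + 1))) := by
  have hL0 : (0 : ℝ) < (L : ℝ) + 1 := by positivity
  obtain ⟨η, hη⟩ : ∃ η, η = δ / (2 * ((L : ℝ) + 1) ^ 2) := ⟨_, rfl⟩
  obtain ⟨θ, hθ⟩ : ∃ θ, θ = δ / (8 * ((L : ℝ) + 1)) := ⟨_, rfl⟩
  have hθ0 : 0 < θ := by rw [hθ]; positivity
  have hL1 : (1 : ℝ) ≤ (L : ℝ) + 1 := by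
    have : (0 : ℝ) ≤ L := Nat.cast_nonneg _
    linarith
  have hθ1 : 4 * θ ≤ 1 := by
    rw [hθ]
    rw [show 4 * (δ / (8 * ((L : ℝ) + 1))) = δ / (2 * ((L : ℝ) + 1)) by field_simp; ring]
    rw [div_le_one (by positivity)]
    linarith
  have e4 : δ / (2 * ((L : ℝ) + 1)) = 4 * θ := by rw [hθ]; field_simp; ring
  have e2 : δ / (4 * ((L : ℝ) + 1)) = 2 * θ := by rw [hθ]; field_simp; ring
  rw [← hη, e2]
  obtain ⟨c₁, hc₁⟩ : ∃ c₁, c₁ = 1 / (θ * Real.log 2) + 1 := ⟨_, rfl⟩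
  have hl2 : 0 < Real.log 2 := Real.log_pos (by norm_num)
  have hc₁0 : 0 < c₁ := by rw [hc₁]; positivity
  refine ⟨((X₀ ^ (L + 1) : ℕ) : ℝ) + 2 * (((L : ℝ) + 1) * c₁ ^ 2), by positivity, fun X hX => ?_⟩
  have hX1 : (1 : ℝ) ≤ X := by exact_mod_cast hX
  obtain ⟨I, hI⟩ : ∃ I, I = Nat.log 2 (2 * X) := ⟨_, rfl⟩
  have hI2 : 2 ^ I ≤ 2 * X := by rw [hI]; exact Nat.pow_log_le_self 2 (by omega)
  obtain ⟨J, hJ⟩ : ∃ J : Finset (ℕ × ℕ), J = ((range (I + 1)) ×ˢ (range (I * (L + 1) + 1))).filter (fun p =>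
    X₀ ≤ 2 ^ p.1 ∧ X₀ ≤ 2 ^ p.2 ∧ 2 ^ p.1 ≤ (2 ^ p.2) ^ (L + 1) ∧ 2 ^ p.2 ≤ (2 ^ p.1) ^ (L + 1)) := ⟨_, rfl⟩
  have hsub : (Icc 1 X).filter (fun A => A ∈ Ex R L η (X₀ ^ (L + 1))) ⊆ range (X₀ ^ (L + 1)) ∪
      J.biUnion (fun p => (Icc 1 (2 ^ p.1)).filter (fun A => ((2 ^ p.2 : ℕ) : ℝ) ^ (1 - η) < (cnt R A (2 ^ p.2) : ℝ))) := by
    intro A hA
    rw [mem_filter, mem_Icc] at hA
    obtain ⟨⟨hA1, hAX⟩, hE⟩ := hA
    rw [mem_union, mem_range]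
    by_cases hlt : A < X₀ ^ (L + 1)
    · exact Or.inl hlt
    right
    rw [not_lt] at hlt
    rcases hE with hE | ⟨i, j, h1, h2, h3, h4, h5⟩
    · omega
    rw [mem_biUnion]
    have hA2i : 2 ^ i ≤ 2 * X := h2.trans (by omega)
    have hiI : i ≤ I := by
      rw [hI]
      exact Nat.le_log_of_pow_le (by norm_num) hA2i
    have hji : j ≤ i * (L + 1) := by
      rw [← pow_mul] at h4
      exact (Nat.pow_le_pow_iff_right (by norm_num)).1 h4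
    refine ⟨(i, j), ?_, ?_⟩
    · rw [hJ, mem_filter, mem_product, mem_range, mem_range]
      refine ⟨⟨by simp only; omega, ?_⟩, ?_, ?_, h3, h4⟩
      · have : i * (L + 1) ≤ I * (L + 1) := Nat.mul_le_mul_right _ hiI
        simp only
        omega
      · exact (Nat.le_self_pow (by omega) X₀).trans (hlt.trans h1)
      · have h6 : X₀ ^ (L + 1) ≤ (2 ^ j) ^ (L + 1) := hlt.trans (h1.trans h3)
        exact (Nat.pow_le_pow_iff_left (by omega)).1 h6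
    · rw [mem_filter, mem_Icc]
      exact ⟨⟨hA1, h1⟩, h5⟩
  have hcard : ((Icc 1 X).filter (fun A => A ∈ Ex R L η (X₀ ^ (L + 1)))).card ≤ X₀ ^ (L + 1) +
      ∑ p ∈ J, ((Icc 1 (2 ^ p.1)).filter (fun A => ((2 ^ p.2 : ℕ) : ℝ) ^ (1 - η) < (cnt R A (2 ^ p.2) : ℝ))).card := by
    refine (card_le_card hsub).trans ((card_union_le _ _).trans ?_)
    rw [card_range]
    exact Nat.add_le_add_left card_biUnion_le _
  have hterm : ∀ p ∈ J, ((((Icc 1 (2 ^ p.1)).filter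
      (fun A => ((2 ^ p.2 : ℕ) : ℝ) ^ (1 - η) < (cnt R A (2 ^ p.2) : ℝ))).card : ℕ) : ℝ) ≤ (2 * (X : ℝ)) ^ (1 - 4 * θ) := by
    intro p hp
    rw [hJ, mem_filter, mem_product, mem_range, mem_range] at hp
    obtain ⟨⟨p1, p2⟩, p3, p4, p5, p6⟩ := hp
    have h7 := box_ex hδ L hX₀ h p3 p4 p5 p6
    rw [← hη, e4] at h7
    refine h7.trans (Real.rpow_le_rpow (Nat.cast_nonneg _) ?_ (by linarith))
    have : 2 ^ p.1 ≤ 2 * X := (Nat.pow_le_pow_right (by norm_num) (by omega)).trans hI2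
    exact_mod_cast this
  have hJcard : (J.card : ℝ) ≤ ((L : ℝ) + 1) * c₁ ^ 2 * (2 * (X : ℝ)) ^ (2 * θ) := by
    have h8 : J.card ≤ (I + 1) * (I * (L + 1) + 1) := by
      rw [hJ]
      refine (card_filter_le _ _).trans ?_
      rw [card_product, card_range, card_range]
    have h9 := log_factor hθ0 X I hX hI2
    rw [← hc₁] at h9
    have hI0 : (0 : ℝ) ≤ I := Nat.cast_nonneg _
    have hLI : (I : ℝ) * ((L : ℝ) + 1) + 1 ≤ ((L : ℝ) + 1) * ((I : ℝ) + 1) := by nlinarith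
    calc (J.card : ℝ) ≤ ((I : ℝ) + 1) * ((I : ℝ) * ((L : ℝ) + 1) + 1) := by exact_mod_cast h8
      _ ≤ ((I : ℝ) + 1) * (((L : ℝ) + 1) * ((I : ℝ) + 1)) := mul_le_mul_of_nonneg_left hLI (by positivity)
      _ = ((L : ℝ) + 1) * ((I : ℝ) + 1) ^ 2 := by ring
      _ ≤ ((L : ℝ) + 1) * (c₁ * (2 * (X : ℝ)) ^ θ) ^ 2 :=
          mul_le_mul_of_nonneg_left (pow_le_pow_left₀ (by positivity) h9 2) (by positivity)
      _ = ((L : ℝ) + 1) * c₁ ^ 2 * (2 * (X : ℝ)) ^ (2 * θ) := by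
          rw [mul_pow, ← Real.rpow_natCast ((2 * (X : ℝ)) ^ θ), ← Real.rpow_mul (by positivity), mul_assoc]
          congr 3
          push_cast
          ring
  have h10 : (1 : ℝ) ≤ (X : ℝ) ^ (1 - 2 * θ) := Real.one_le_rpow hX1 (by linarith)
  have h11 : (2 * (X : ℝ)) ^ (1 - 2 * θ) ≤ 2 * (X : ℝ) ^ (1 - 2 * θ) := by
    rw [Real.mul_rpow (by norm_num) (by positivity)]
    refine mul_le_mul_of_nonneg_right ?_ (by positivity)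
    calc (2 : ℝ) ^ (1 - 2 * θ) ≤ 2 ^ (1 : ℝ) := Real.rpow_le_rpow_of_exponent_le (by norm_num) (by linarith)
      _ = 2 := Real.rpow_one 2
  calc _ ≤ (((X₀ ^ (L + 1) : ℕ) : ℝ) + ∑ p ∈ J, ((((Icc 1 (2 ^ p.1)).filter
          (fun A => ((2 ^ p.2 : ℕ) : ℝ) ^ (1 - η) < (cnt R A (2 ^ p.2) : ℝ))).card : ℕ) : ℝ)) := by exact_mod_cast hcard
    _ ≤ ((X₀ ^ (L + 1) : ℕ) : ℝ) + J.card * (2 * (X : ℝ)) ^ (1 - 4 * θ) := by
        gcongr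
        rw [← nsmul_eq_mul]
        exact sum_le_card_nsmul _ _ _ hterm
    _ ≤ ((X₀ ^ (L + 1) : ℕ) : ℝ) + (((L : ℝ) + 1) * c₁ ^ 2 * (2 * (X : ℝ)) ^ (2 * θ)) * (2 * (X : ℝ)) ^ (1 - 4 * θ) := by
        gcongr
    _ = ((X₀ ^ (L + 1) : ℕ) : ℝ) + ((L : ℝ) + 1) * c₁ ^ 2 * (2 * (X : ℝ)) ^ (1 - 2 * θ) := by
        rw [mul_assoc, ← Real.rpow_add (by positivity)]
        congr 3
        ring
    _ ≤ ((X₀ ^ (L + 1) : ℕ) : ℝ) * (X : ℝ) ^ (1 - 2 * θ) + ((L : ℝ) + 1) * c₁ ^ 2 * (2 * (X : ℝ) ^ (1 - 2 * θ)) := by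
        refine add_le_add (le_mul_of_one_le_right (Nat.cast_nonneg _) h10) (mul_le_mul_of_nonneg_left h11 (by positivity))
    _ = (((X₀ ^ (L + 1) : ℕ) : ℝ) + 2 * (((L : ℝ) + 1) * c₁ ^ 2)) * (X : ℝ) ^ (1 - 2 * θ) := by ring

/-- the bad second members for the first bases near `F v` -/
def W (R : ℕ → ℕ → Prop) (L : ℕ) (η : ℝ) (A₀ : ℕ) (F : ℕ → ℝ) (κ : ℝ) (v : ℕ) : Set ℕ :=
  {B | 1 ≤ v ∧ ∃ A : ℕ, A ∉ Ex R L η A₀ ∧ |(A : ℝ) - F v| ≤ (v : ℝ) ^ κ ∧ R A B}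

theorem w_count {R : ℕ → ℕ → Prop} {L : ℕ} (hR : Rel R L) {η : ℝ} (hη0 : 0 ≤ η) (hη1 : η ≤ 1) {A₀ : ℕ} (hA₀ : 2 ≤ A₀) {F : ℕ → ℝ} {d : ℝ}
    (hF : Expanding F d) {κ : ℝ} (hκ0 : 0 ≤ κ) (hκ : κ ≤ 1 / 2) : ∃ C : ℝ, 0 < C ∧ ∀ v : ℕ, ∀ X : ℝ, 1 ≤ X →
      {t | t ∈ W R L η A₀ F κ v ∧ (t : ℝ) ≤ X}.Finite ∧
        ({t | t ∈ W R L η A₀ F κ v ∧ (t : ℝ) ≤ X}.ncard : ℝ) ≤ C * X ^ (1 - η + L * κ) := by
  classical
  obtain ⟨C, hC1, hC⟩ := le_mul_near hF hκ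
  refine ⟨6 * C, by positivity, fun v X hX => ?_⟩
  have hfin : {t | t ∈ W R L η A₀ F κ v ∧ (t : ℝ) ≤ X}.Finite :=
    (Set.finite_Iic ⌊X⌋₊).subset (fun t ht => Nat.le_floor ht.2)
  refine ⟨hfin, ?_⟩
  obtain ⟨Y, hY⟩ : ∃ Y, Y = ⌊X⌋₊ := ⟨_, rfl⟩
  have hY1 : 1 ≤ Y := by rw [hY]; exact Nat.le_floor (by exact_mod_cast hX)
  have hYX : (Y : ℝ) ≤ X := by rw [hY]; exact Nat.floor_le (by linarith)
  have hY1r : (1 : ℝ) ≤ Y := by exact_mod_cast hY1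
  obtain ⟨S, hS⟩ : ∃ S : Finset ℕ, S = (Icc 1 (Y ^ L)).filter
    (fun A => A ∉ Ex R L η A₀ ∧ 1 ≤ v ∧ |(A : ℝ) - F v| ≤ (v : ℝ) ^ κ) := ⟨_, rfl⟩
  have hsub : hfin.toFinset ⊆ S.biUnion (fun A => (Icc 1 Y).filter (fun B => R A B)) := by
    intro B hB
    rw [Set.Finite.mem_toFinset] at hB
    obtain ⟨⟨hv, A, hA, hw, hbad⟩, hBX⟩ := hB
    have hA2 : 2 ≤ A := by
      by_contra hcon
      exact hA (Or.inl (by omega))
    have hB0 : B ≠ 0 := by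
      have := hR.one_le _ _ hbad
      omega
    have hBY : B ≤ Y := by rw [hY]; exact Nat.le_floor hBX
    rw [mem_biUnion]
    refine ⟨A, ?_, ?_⟩
    · rw [hS, mem_filter, mem_Icc]
      exact ⟨⟨by omega, (hR.left _ _ hbad).trans (Nat.pow_le_pow_left hBY L)⟩, hA, hv, hw⟩
    · rw [mem_filter, mem_Icc]
      exact ⟨⟨by omega, hBY⟩, hbad⟩
  rw [Set.ncard_eq_toFinset_card _ hfin]
  have h1 : (hfin.toFinset.card : ℝ) ≤ S.card * (2 * (Y : ℝ) ^ (1 - η)) := by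
    calc (hfin.toFinset.card : ℝ) ≤ ∑ A ∈ S, (((Icc 1 Y).filter (fun B => R A B)).card : ℝ) := by
          exact_mod_cast (card_le_card hsub).trans card_biUnion_le
      _ ≤ ∑ A ∈ S, (2 * (Y : ℝ) ^ (1 - η)) := by
          refine sum_le_sum (fun A hA => ?_)
          rw [hS, mem_filter] at hA
          have := good_cnt hR hη0 hη1 hA₀ hA.2.1 Y hY1
          unfold cnt at this
          exact this
      _ = S.card * (2 * (Y : ℝ) ^ (1 - η)) := by rw [sum_const, nsmul_eq_mul]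
  have h2 : (S.card : ℝ) ≤ 3 * C * (Y : ℝ) ^ (L * κ) := by
    rcases S.eq_empty_or_nonempty with h0 | ⟨A, hA⟩
    · rw [h0]
      simp only [card_empty, Nat.cast_zero]
      positivity
    · have hA' := hA
      rw [hS, mem_filter, mem_Icc] at hA'
      obtain ⟨⟨a1, a2⟩, a3, a4, a5⟩ := hA'
      have hv1 : (1 : ℝ) ≤ v := by exact_mod_cast a4
      have h3 : (v : ℝ) ≤ C * (Y : ℝ) ^ L := by
        refine (hC v A a4 a1 a5).trans (mul_le_mul_of_nonneg_left ?_ (by linarith))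
        exact_mod_cast a2
      have h4 : (S.card : ℝ) ≤ 2 * (v : ℝ) ^ κ + 1 := interval_card S (F v) _ (by positivity) (by
        intro A' hA'
        rw [hS, mem_filter] at hA'
        exact hA'.2.2.2)
      have h5 : (v : ℝ) ^ κ ≤ C * (Y : ℝ) ^ (L * κ) := by
        calc (v : ℝ) ^ κ ≤ (C * (Y : ℝ) ^ L) ^ κ := Real.rpow_le_rpow (by linarith) h3 hκ0
          _ = C ^ κ * ((Y : ℝ) ^ L) ^ κ := Real.mul_rpow (by linarith) (by positivity)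
          _ ≤ C ^ (1 : ℝ) * ((Y : ℝ) ^ L) ^ κ := mul_le_mul_of_nonneg_right
              (Real.rpow_le_rpow_of_exponent_le hC1 (by linarith)) (by positivity)
          _ = C * (Y : ℝ) ^ (L * κ) := by
              rw [Real.rpow_one, ← Real.rpow_natCast (Y : ℝ) L, ← Real.rpow_mul (by positivity)]
      have h6 : (1 : ℝ) ≤ C * (Y : ℝ) ^ (L * κ) :=
        one_le_mul_of_one_le_of_one_le hC1 (Real.one_le_rpow hY1r (by positivity))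
      linarith
  calc (hfin.toFinset.card : ℝ) ≤ S.card * (2 * (Y : ℝ) ^ (1 - η)) := h1
    _ ≤ 3 * C * (Y : ℝ) ^ (L * κ) * (2 * (Y : ℝ) ^ (1 - η)) := mul_le_mul_of_nonneg_right h2 (by positivity)
    _ = 6 * C * ((Y : ℝ) ^ (1 - η) * (Y : ℝ) ^ (L * κ)) := by ring
    _ = 6 * C * (Y : ℝ) ^ (1 - η + L * κ) := by rw [← Real.rpow_add (by linarith)]
    _ ≤ 6 * C * X ^ (1 - η + L * κ) := by
        apply mul_le_mul_of_nonneg_left _ (by positivity)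
        exact Real.rpow_le_rpow (by linarith) hYX (by
          have : 0 ≤ (L : ℝ) * κ := by positivity
          linarith)

/-- two fixed numbers `k`, `l` of iterates -/
theorem pair_kl {R : ℕ → ℕ → Prop} {L : ℕ} (hR : Rel R L) {η : ℝ} (hη0 : 0 ≤ η) (hη1 : η ≤ 1) {A₀ : ℕ} (hA₀ : 2 ≤ A₀) {s : ℝ} (hs : 0 ≤ s) {CE : ℝ}
    (hE : ∀ X : ℝ, 1 ≤ X → {t | t ∈ Ex R L η A₀ ∧ (t : ℝ) ≤ X}.Finite ∧
      ({t | t ∈ Ex R L η A₀ ∧ (t : ℝ) ≤ X}.ncard : ℝ) ≤ CE * X ^ s)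
    {f g : ℕ → ℕ} (hf : LM f) (hg : LM g) {F G : ℕ → ℝ} {d d' : ℝ} (hF : Expanding F d) (hG : Expanding G d') {κ : ℝ}
    (hκ0 : 0 ≤ κ) (hκ : κ ≤ 1 / 2) (h1 : d * s + κ < 1) (h2 : d' * (1 - η + L * κ) + κ < 1) (k l : ℕ) :
    PairAA (fun m m' => ∀ A B : ℕ, |(A : ℝ) - F (orb f k m)| ≤ (orb f k m : ℝ) ^ κ →
      |(B : ℝ) - G (orb g l m')| ≤ (orb g l m' : ℝ) ^ κ → ¬ R A B) := by
  classical
  obtain ⟨C, hC0, hC⟩ := w_count (L := L) hR hη0 hη1 hA₀ hF hκ0 hκ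
  have u1 := windows_k (fun n : ℕ => (n : ℝ)) hf hF hs hκ0 h1 CE k
  have u2 := windows_k (fun n : ℕ => (n : ℝ)) hg hG (s := 1 - η + L * κ) (by
    have : 0 ≤ (L : ℝ) * κ := by positivity
    linarith) hκ0 h2 C l
  intro δ hδ
  obtain ⟨N₁, g1⟩ := u1 (δ / 2) (by positivity)
  obtain ⟨N₂, g2⟩ := u2 (δ / 2) (by positivity)
  refine ⟨max N₁ N₂, fun N N' hN hN' => ?_⟩
  have b1 := g1 N ((le_max_left _ _).trans hN) ⟨Ex R L η A₀, hE⟩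
  have b2 : ∀ v : ℕ, _ := fun v => g2 N' ((le_max_right _ _).trans hN') ⟨W R L η A₀ F κ v, hC v⟩
  obtain ⟨S₁, hS₁⟩ : ∃ S₁ : Finset ℕ, S₁ = (Icc 1 N).filter (fun m => ¬ ∀ t ∈ Ex R L η A₀,
    ¬ |(t : ℝ) - F (orb f k m)| ≤ (orb f k m : ℝ) ^ κ) := ⟨_, rfl⟩
  obtain ⟨S₂, hS₂⟩ : ∃ S₂ : ℕ → Finset ℕ, S₂ = fun v => (Icc 1 N').filter (fun m' => ¬ ∀ t ∈ W R L η A₀ F κ v,
    ¬ |(t : ℝ) - G (orb g l m')| ≤ (orb g l m' : ℝ) ^ κ) := ⟨_, rfl⟩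
  have c1 : (S₁.card : ℝ) ≤ δ / 2 * N := by
    rw [hS₁]
    exact le_trans (Nat.cast_le.2 (card_mono' fun _ hm => hm)) b1
  have c2 : ∀ v, ((S₂ v).card : ℝ) ≤ δ / 2 * N' := by
    intro v
    rw [hS₂]
    exact le_trans (Nat.cast_le.2 (card_mono' fun _ hm => hm)) (b2 v)
  have hsub : ((Icc 1 N) ×ˢ (Icc 1 N')).filter (fun p => ¬ ∀ A B : ℕ, |(A : ℝ) - F (orb f k p.1)| ≤ (orb f k p.1 : ℝ) ^ κ →
      |(B : ℝ) - G (orb g l p.2)| ≤ (orb g l p.2 : ℝ) ^ κ → ¬ R A B) ⊆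
      (S₁ ×ˢ (Icc 1 N')) ∪ ((Icc 1 N).biUnion (fun m => (S₂ (orb f k m)).image (fun m' => (m, m')))) := by
    rintro ⟨m, m'⟩ hp
    rw [mem_filter, mem_product] at hp
    obtain ⟨⟨hm, hm'⟩, hcon⟩ := hp
    push Not at hcon
    obtain ⟨A, B, hA, hB, hbad⟩ := hcon
    simp only at hA hB hm hm'
    rw [mem_union]
    by_cases hAE : A ∈ Ex R L η A₀
    · left
      rw [mem_product, hS₁, mem_filter]
      refine ⟨⟨hm, fun h => h A hAE hA⟩, hm'⟩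
    · right
      rw [mem_biUnion]
      refine ⟨m, hm, ?_⟩
      rw [mem_image]
      refine ⟨m', ?_, rfl⟩
      rw [hS₂]
      simp only
      rw [mem_filter]
      exact ⟨hm', fun h => h B ⟨orb_pos hf k m (mem_Icc.1 hm).1, A, hAE, hA, hbad⟩ hB⟩
  have h3 : ((((Icc 1 N) ×ˢ (Icc 1 N')).filter (fun p => ¬ ∀ A B : ℕ,
      |(A : ℝ) - F (orb f k p.1)| ≤ (orb f k p.1 : ℝ) ^ κ →
      |(B : ℝ) - G (orb g l p.2)| ≤ (orb g l p.2 : ℝ) ^ κ → ¬ R A B)).card : ℝ) ≤ δ * ((N : ℝ) * N') := by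
    calc _ ≤ ((S₁ ×ˢ (Icc 1 N')).card : ℝ) + ∑ m ∈ Icc 1 N, (((S₂ (orb f k m)).image (fun m' => (m, m'))).card : ℝ) := by
          exact_mod_cast (card_le_card hsub).trans ((card_union_le _ _).trans (Nat.add_le_add_left card_biUnion_le _))
      _ ≤ δ / 2 * N * N' + ∑ m ∈ Icc 1 N, δ / 2 * (N' : ℝ) := by
          refine add_le_add ?_ (sum_le_sum (fun m _ => ?_))
          · rw [card_product, Nat.card_Icc]
            rw [Nat.add_sub_cancel]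
            push_cast
            exact mul_le_mul_of_nonneg_right c1 (Nat.cast_nonneg _)
          · exact le_trans (Nat.cast_le.2 card_image_le) (c2 _)
      _ = δ * ((N : ℝ) * N') := by
          rw [sum_const, Nat.card_Icc, nsmul_eq_mul, Nat.add_sub_cancel]
          ring
  exact le_trans (Nat.cast_le.2 (card_mono2 fun _ _ hm => hm)) h3

/-- all constants -/
theorem consts {R : ℕ → ℕ → Prop} (L : ℕ) {δ : ℝ} (hδ : 0 < δ) (hδ1 : δ ≤ 1) {X₀ : ℕ} (hX₀ : 2 ≤ X₀)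
    (hbox : BoxCount R L δ X₀) : ∃ (c η s CE : ℝ) (A₀ : ℕ), c = δ / (4 * ((L : ℝ) + 1) ^ 3) ∧ 0 < c ∧ c ≤ 1 / 4 ∧ 0 ≤ η ∧
    η ≤ 1 ∧ 2 ≤ A₀ ∧ 0 ≤ s ∧ s ≤ 1 - c ∧ 2 * c ≤ η ∧
    2 * L * c ≤ η ∧ ∀ X : ℝ, 1 ≤ X → {t | t ∈ Ex R L η A₀ ∧ (t : ℝ) ≤ X}.Finite ∧
      ({t | t ∈ Ex R L η A₀ ∧ (t : ℝ) ≤ X}.ncard : ℝ) ≤ CE * X ^ s := by
  classical
  obtain ⟨C, hC0, hex⟩ := ex_count hδ hδ1 L hX₀ hbox
  have hL : (0 : ℝ) ≤ L := Nat.cast_nonneg _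
  have hL1 : (1 : ℝ) ≤ (L : ℝ) + 1 := by linarith
  have hL2 : (1 : ℝ) ≤ ((L : ℝ) + 1) ^ 2 := one_le_pow₀ hL1
  have hL3 : (1 : ℝ) ≤ ((L : ℝ) + 1) ^ 3 := one_le_pow₀ hL1
  have hc : δ / (4 * ((L : ℝ) + 1) ^ 3) * (4 * ((L : ℝ) + 1) ^ 3) = δ := by field_simp
  have hc0 : 0 < δ / (4 * ((L : ℝ) + 1) ^ 3) := by positivity
  have e1 : δ / (2 * ((L : ℝ) + 1) ^ 2) = 2 * ((L : ℝ) + 1) * (δ / (4 * ((L : ℝ) + 1) ^ 3)) := by
    field_simp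
    norm_num
  have e2 : δ / (4 * ((L : ℝ) + 1)) = ((L : ℝ) + 1) ^ 2 * (δ / (4 * ((L : ℝ) + 1) ^ 3)) := by
    field_simp
  have hη1 : δ / (2 * ((L : ℝ) + 1) ^ 2) ≤ 1 := by
    rw [div_le_one (by positivity)]
    nlinarith
  have hs1 : δ / (4 * ((L : ℝ) + 1)) ≤ 1 := by
    rw [div_le_one (by positivity)]
    nlinarith
  refine ⟨δ / (4 * ((L : ℝ) + 1) ^ 3), δ / (2 * ((L : ℝ) + 1) ^ 2), 1 - δ / (4 * ((L : ℝ) + 1)), C + 1, X₀ ^ (L + 1), rfl, hc0,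
    ?_, by positivity, hη1, ?_, by linarith, ?_, ?_, ?_, ?_⟩
  · rw [div_le_iff₀ (by positivity)]
    nlinarith
  · exact hX₀.trans (Nat.le_self_pow (by omega) _)
  · rw [e2]
    have := mul_le_mul_of_nonneg_right hL2 hc0.le
    linarith
  · rw [e1]
    have := mul_le_mul_of_nonneg_right hL1 hc0.le
    linarith
  · rw [e1]
    have : (L : ℝ) * (δ / (4 * ((L : ℝ) + 1) ^ 3)) ≤ ((L : ℝ) + 1) * (δ / (4 * ((L : ℝ) + 1) ^ 3)) :=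
      mul_le_mul_of_nonneg_right (by linarith) hc0.le
    linarith
  · refine ex_few hC0 (by linarith) (fun X hX S hS => le_trans ?_ (hex X hX))
    apply Nat.cast_le.2 (card_le_card _)
    intro A hA
    obtain ⟨a1, a2, a3⟩ := hS A hA
    rw [mem_filter, mem_Icc]
    exact ⟨⟨a1, a2⟩, a3⟩

/-- **Pairs of orbits avoid a relation with a power saving in boxes**, in enlarged windows and with multiples. -/
theorem pairs_kit {R : ℕ → ℕ → Prop} {L : ℕ} (hR : Rel R L) {δ : ℝ} (hδ : 0 < δ) (hδ1 : δ ≤ 1) {X₀ : ℕ} (hX₀ : 2 ≤ X₀)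
    (hbox : BoxCount R L δ X₀) {f g : ℕ → ℕ} (hf : LM f) (hg : LM g) {F G : ℕ → ℝ} {d d' : ℝ} (hF : Expanding F d)
    (hG : Expanding G d') {κ : ℝ} (hκ : 0 ≤ κ) (h1 : d * (1 - δ / (4 * ((L : ℝ) + 1) ^ 3)) + κ < 1)
    (h2 : d' * (1 - δ / (4 * ((L : ℝ) + 1) ^ 3)) + κ < 1) :
    ∃ K : ℕ → ℕ, Tendsto K atTop atTop ∧ PairAA (fun m m' => ∀ k ≤ K (min m m'), ∀ l ≤ K (min m m'), ∀ a b : ℕ,
      1 ≤ a → a ≤ K (min m m') → 1 ≤ b → b ≤ K (min m m') → ∀ A B : ℕ,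
      |(A : ℝ) - a * F (orb f k m)| ≤ K (min m m') * (orb f k m : ℝ) ^ κ →
        |(B : ℝ) - b * G (orb g l m')| ≤ K (min m m') * (orb g l m' : ℝ) ^ κ → ¬ R A B) := by
  classical
  obtain ⟨c, η, s, CE, A₀, hce, hc, hc4, hη0, hη1, hA₀, hs0, hs1, hcη, hLc, hE⟩ := consts L hδ hδ1 hX₀ hbox
  rw [← hce] at h1 h2
  have hd := hF.one_le
  have hd' := hG.one_le
  obtain ⟨κ', hκ'⟩ : ∃ κ', κ' = (κ + min (1 - d * (1 - c)) (1 - d' * (1 - c))) / 2 := ⟨_, rfl⟩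
  have hmin1 := min_le_left (1 - d * (1 - c)) (1 - d' * (1 - c))
  have hmin2 := min_le_right (1 - d * (1 - c)) (1 - d' * (1 - c))
  have hmin : κ < min (1 - d * (1 - c)) (1 - d' * (1 - c)) := lt_min (by linarith) (by linarith)
  have hlt : κ < κ' := by rw [hκ']; linarith
  have h1' : d * (1 - c) + κ' < 1 := by rw [hκ']; linarith
  have h2' : d' * (1 - c) + κ' < 1 := by rw [hκ']; linarith
  have hκc : κ' ≤ c := by nlinarith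
  have hL : (0 : ℝ) ≤ L := Nat.cast_nonneg _
  have hLκ : (L : ℝ) * κ' ≤ η / 2 := by
    have := mul_le_mul_of_nonneg_left hκc hL
    linarith
  have h3 : d * s + κ' < 1 := by
    refine lt_of_le_of_lt ?_ h1'
    have := mul_le_mul_of_nonneg_left hs1 (by linarith : 0 ≤ d)
    linarith
  have h4 : d' * (1 - η + L * κ') + κ' < 1 := by
    refine lt_of_le_of_lt ?_ h2'
    have h3 : 1 - η + L * κ' ≤ 1 - c := by linarith
    have := mul_le_mul_of_nonneg_left h3 (by linarith : 0 ≤ d')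
    linarith
  refine PairAA.diagonal (P := fun j m m' => ∀ k ≤ j, ∀ l ≤ j, ∀ a b : ℕ, 1 ≤ a → a ≤ j → 1 ≤ b → b ≤ j → ∀ A B : ℕ,
      |(A : ℝ) - a * F (orb f k m)| ≤ j * (orb f k m : ℝ) ^ κ →
        |(B : ℝ) - b * G (orb g l m')| ≤ j * (orb g l m' : ℝ) ^ κ → ¬ R A B) ?_ (fun j => ?_)
  · intro i j m m' hij h k hk l hl a b ha1 ha hb1 hb A B hA hB
    refine h k (hk.trans hij) l (hl.trans hij) a b ha1 (ha.trans hij) hb1 (hb.trans hij) A B (hA.trans ?_) (hB.trans ?_)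
    · exact mul_le_mul_of_nonneg_right (by exact_mod_cast hij) (by positivity)
    · exact mul_le_mul_of_nonneg_right (by exact_mod_cast hij) (by positivity)
  · obtain ⟨Z, hZ⟩ := exists_nat_ge ((j : ℝ) ^ (1 / (κ' - κ)))
    have hgrow : ∀ v : ℕ, Z < v → (j : ℝ) * (v : ℝ) ^ κ ≤ (v : ℝ) ^ κ' := by
      intro v hv
      have hv1 : (1 : ℝ) ≤ v := by exact_mod_cast (by omega : 1 ≤ v)
      have h5 : (j : ℝ) ≤ (v : ℝ) ^ (κ' - κ) := by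
        calc (j : ℝ) = ((j : ℝ) ^ (1 / (κ' - κ))) ^ (κ' - κ) := by
              rw [← Real.rpow_mul (Nat.cast_nonneg _), one_div, inv_mul_cancel₀ (by linarith), Real.rpow_one]
          _ ≤ (v : ℝ) ^ (κ' - κ) := Real.rpow_le_rpow (by positivity) (hZ.trans (by exact_mod_cast hv.le)) (by linarith)
      calc (j : ℝ) * (v : ℝ) ^ κ ≤ (v : ℝ) ^ (κ' - κ) * (v : ℝ) ^ κ := mul_le_mul_of_nonneg_right h5 (by positivity)
        _ = (v : ℝ) ^ κ' := by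
            rw [← Real.rpow_add (by linarith)]
            congr 1
            ring
    have hbig : ∀ {f : ℕ → ℕ}, LM f → AlmostAll (fun m => ∀ k ≤ j, Z < orb f k m) := by
      intro f hf
      obtain ⟨K₀, hK₀, hK₀2⟩ := orbit_large hf Z
      have h2 := Pool.Agent.N826.IT.Orb.almostAll_and hK₀2 (almostAll_ev (hK₀.eventually_ge_atTop j))
      exact almostAll_mono h2 (fun m hm k hk => hm.1 k (hk.trans hm.2))
    have e1 : PairAA (fun m m' => (∀ k ≤ j, Z < orb f k m) ∧ ∀ l ≤ j, Z < orb g l m') := pair_of_both (hbig hf) (hbig hg)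
    have hset : ∀ p ∈ ((range (j + 1)) ×ˢ (range (j + 1))) ×ˢ ((Icc 1 j) ×ˢ (Icc 1 j)), PairAA (fun m m' => ∀ A B : ℕ,
        |(A : ℝ) - (p.2.1 : ℝ) * F (orb f p.1.1 m)| ≤ (orb f p.1.1 m : ℝ) ^ κ' →
        |(B : ℝ) - (p.2.2 : ℝ) * G (orb g p.1.2 m')| ≤ (orb g p.1.2 m' : ℝ) ^ κ' → ¬ R A B) := by
      rintro ⟨⟨k, l⟩, ⟨a, b⟩⟩ hp
      simp only [mem_product, mem_range, mem_Icc] at hp
      have h5 := pair_kl hR hη0 hη1 hA₀ hs0 hE hf hg (expanding_mul hF hp.2.1.1) (expanding_mul hG hp.2.2.1)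
        (hκ.trans hlt.le) (by linarith) h3 h4 k l
      exact h5
    refine (e1.and (PairAA.finset _ hset)).mono (fun m m' hm k hk l hl a b ha1 ha hb1 hb A B hA hB => ?_)
    refine hm.2 ((k, l), (a, b)) ?_ A B (hA.trans (hgrow _ (hm.1.1 k hk))) (hB.trans (hgrow _ (hm.1.2 l hl)))
    simp only [mem_product, mem_range, mem_Icc]
    exact ⟨⟨by omega, by omega⟩, ⟨ha1, ha⟩, hb1, hb⟩

/-- **One orbit**: for the `A` near almost all orbits there are few bad `B`. -/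
theorem one_kit {R : ℕ → ℕ → Prop} {L : ℕ} (hR : Rel R L) {δ : ℝ} (hδ : 0 < δ) (hδ1 : δ ≤ 1) {X₀ : ℕ} (hX₀ : 2 ≤ X₀)
    (hbox : BoxCount R L δ X₀) {f : ℕ → ℕ} (hf : LM f) {F : ℕ → ℝ} {d : ℝ} (hF : Expanding F d)
    {κ : ℝ} (hκ : 0 ≤ κ) (h1 : d * (1 - δ / (4 * ((L : ℝ) + 1) ^ 3)) + κ < 1) :
    ∃ K : ℕ → ℕ, Tendsto K atTop atTop ∧ AlmostAll (fun m => ∀ k ≤ K m, ∀ a : ℕ, 1 ≤ a → a ≤ K m → ∀ A : ℕ,
      |(A : ℝ) - a * F (orb f k m)| ≤ K m * (orb f k m : ℝ) ^ κ → ∀ Y : ℕ, 1 ≤ Y →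
        (cnt R A Y : ℝ) ≤ 2 * (Y : ℝ) ^ (1 - δ / (4 * ((L : ℝ) + 1) ^ 3))) := by
  obtain ⟨c, η, s, CE, A₀, hce, hc, hc4, hη0, hη1, hA₀, hs0, hs1, hcη, hLc, hE⟩ := consts L hδ hδ1 hX₀ hbox
  rw [← hce] at h1 ⊢
  have hd := hF.one_le
  obtain ⟨K, hK, h2⟩ := kit' (Ex R L η A₀) (fun n : ℕ => (n : ℝ)) hf hF hs0 hκ (lt_of_le_of_lt (by
      have := mul_le_mul_of_nonneg_left hs1 (by linarith : 0 ≤ d)
      linarith) h1) ⟨CE, hE⟩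
  refine ⟨K, hK, almostAll_mono h2 (fun m hm k hk a ha1 ha A hA Y hY => ?_)⟩
  have hAE : A ∉ Ex R L η A₀ := fun h => absurd hA (not_le.2 (hm k hk a ha1 ha A h))
  refine (good_cnt hR hη0 hη1 hA₀ hAE Y hY).trans ?_
  have hY1 : (1 : ℝ) ≤ Y := by exact_mod_cast hY
  exact mul_le_mul_of_nonneg_left (Real.rpow_le_rpow_of_exponent_le hY1 (by linarith)) (by norm_num)

end Run7.h430.TW.RPairs
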