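import Pool.Agent.N760.IT.C

set_option autoImplicit false

/-!
Almost all orbits of Euler's function and families of sets with a power saving (helper430): the case of a sequence of
properties `Good j`, each with a power saving of its own, at the integers `a v + h` with slowly growing `a, |h|`, and a version
for the conjunction of two properties.
-/

namespace Run7.h430.TW

open Finset Filter Topology
open Pool.Agent.N733.TG (LM Expanding)
open Pool.Agent.N826.IT.Orb (AlmostAll almostAll_iff almostAll_mono almostAll_finset diagonal almostAll_and card_mono')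
open Pool.Agent.N760.IT (orb orbit_good_nat)

theorem almostAll_ge {P : ℕ → Prop} (M : ℕ) (h : ∀ m, M ≤ m → P m) : AlmostAll P := by
  classical
  rw [almostAll_iff]
  intro ε hε
  obtain ⟨N₀, hN₀⟩ := exists_nat_ge ((M : ℝ) / ε)
  refine ⟨N₀, fun N hN => ?_⟩
  have h1 : ((Icc 1 N).filter (fun m => ¬ P m)).card ≤ M := by
    calc ((Icc 1 N).filter (fun m => ¬ P m)).card ≤ (range M).card := card_le_card (fun m hm => by
          rw [mem_range]
          by_contra hcon
          exact (mem_filter.1 hm).2 (h m (not_lt.1 hcon)))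
      _ = M := card_range M
  have h2 : (N₀ : ℝ) ≤ N := by exact_mod_cast hN
  rw [div_le_iff₀ hε] at hN₀
  have h3 : (((Icc 1 N).filter (fun m => ¬ P m)).card : ℝ) ≤ M := by exact_mod_cast h1
  nlinarith

theorem almostAll_ev {P : ℕ → Prop} (h : ∀ᶠ m in atTop, P m) : AlmostAll P := by
  obtain ⟨M, hM⟩ := eventually_atTop.1 h
  exact almostAll_ge M hM

theorem expanding_lin {a : ℕ} (ha : 1 ≤ a) (h : ℤ) : Expanding (fun v => (a : ℝ) * v + h) 1 := by
  have ha1 : (1 : ℝ) ≤ a := by exact_mod_cast ha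
  refine ⟨le_refl 1, ⟨1, one_pos, fun v _ => ?_⟩, ⟨a + |(h : ℝ)|, fun v hv => ?_⟩⟩
  · push_cast
    linarith
  · have hv1 : (1 : ℝ) ≤ v := by exact_mod_cast hv
    rw [Real.rpow_one]
    have h1 := le_abs_self (h : ℝ)
    have h2 : |(h : ℝ)| ≤ |(h : ℝ)| * v := le_mul_of_one_le_right (abs_nonneg _) hv1
    show (a : ℝ) * v + h ≤ (a + |(h : ℝ)|) * v
    rw [add_mul]
    linarith

/-- Sequences of properties which hold at all but `O_j (X ^ s_j)` of the integers up to `X`, `s_j < 1`: for almost all `m`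
the `K(m)`-th property holds at all `a f(φ_k m) + h` with `k, a, |h| ≤ K(m)`. -/
theorem orbit_slow (Good : ℕ → ℕ → Prop) (hmono : ∀ i j n, i ≤ j → Good j n → Good i n)
    (hG : ∀ j, ∃ s : ℝ, 0 ≤ s ∧ s < 1 ∧ ∃ C : ℝ, ∀ X : ℕ, 1 ≤ X →
      ({t : ℕ | 1 ≤ t ∧ t ≤ X ∧ ¬ Good j t}.ncard : ℝ) ≤ C * (X : ℝ) ^ s)
    {f : ℕ → ℕ} (hf : LM f) :
    ∃ K : ℕ → ℕ, Tendsto K atTop atTop ∧ AlmostAll (fun m => ∀ k ≤ K m, ∀ a : ℕ, 1 ≤ a → a ≤ K m → ∀ h : ℤ, |h| ≤ K m →
      ∀ n : ℕ, 1 ≤ n → (n : ℤ) = a * orb f k m + h → Good (K m) n) := by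
  classical
  refine diagonal (P := fun j m => ∀ k ≤ j, ∀ a : ℕ, 1 ≤ a → a ≤ j → ∀ h : ℤ, |h| ≤ j →
      ∀ n : ℕ, 1 ≤ n → (n : ℤ) = a * orb f k m + h → Good j n) ?_ (fun j => ?_)
  · intro i j m hij h k hk a ha1 ha b hb n hn he
    exact hmono i j n hij (h k (hk.trans hij) a ha1 (ha.trans hij) b (hb.trans (by exact_mod_cast hij)) n hn he)
  · obtain ⟨s, hs0, hs1, C, hC⟩ := hG j
    have h1 : ∀ p ∈ (Finset.Icc 1 j) ×ˢ (Finset.Icc (-(j : ℤ)) j), AlmostAll (fun m => ∀ k ≤ j, ∀ n : ℕ, 1 ≤ n →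
        (n : ℤ) = p.1 * orb f k m + p.2 → Good j n) := by
      rintro ⟨a, h⟩ hp
      rw [mem_product, Finset.mem_Icc, Finset.mem_Icc] at hp
      obtain ⟨K, hK, hK2⟩ := orbit_good_nat (fun _ => True) (Good j) hf (expanding_lin hp.1.1 h) (s := s) (κ := 0) hs0
        (le_refl 0) (by linarith) (fun ε hε => ⟨|C|, fun X hX => by
          have e : {t : ℕ | 1 ≤ t ∧ t ≤ X ∧ True ∧ ¬ Good j t} = {t : ℕ | 1 ≤ t ∧ t ≤ X ∧ ¬ Good j t} := by
            ext t
            simp
          rw [e]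
          have hX1 : (1 : ℝ) ≤ X := by exact_mod_cast hX
          calc _ ≤ C * (X : ℝ) ^ s := hC X hX
            _ ≤ |C| * (X : ℝ) ^ s := mul_le_mul_of_nonneg_right (le_abs_self C) (by positivity)
            _ ≤ |C| * (X : ℝ) ^ (s + ε) :=
              mul_le_mul_of_nonneg_left (Real.rpow_le_rpow_of_exponent_le hX1 (by linarith)) (abs_nonneg C)⟩)
      refine almostAll_mono (almostAll_and hK2 (almostAll_ev (hK.eventually (eventually_ge_atTop j)))) ?_
      intro m hm k hk n hn he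
      refine hm.1 k (hk.trans hm.2) n hn trivial ?_
      have e1 : (n : ℝ) = a * orb f k m + h := by exact_mod_cast he
      rw [e1, sub_self, abs_zero, Real.rpow_zero]
      exact zero_le_one
    refine almostAll_mono (almostAll_finset _ h1) (fun m hm k hk a ha1 ha h hh n hn he => ?_)
    rw [abs_le] at hh
    exact hm (a, h) (by
      rw [mem_product, Finset.mem_Icc, Finset.mem_Icc]
      exact ⟨⟨ha1, ha⟩, hh⟩) k hk n hn he

end Run7.h430.TW
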