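import Pool.Agent.Run7.h430.TW.Slow

set_option autoImplicit false

/-!
Almost all orbits of Euler's function and increasing sequences of thin sets; boxes and heights of elliptic curves (helper430).
-/

namespace Run7.h430.TW

open Finset Filter Topology
open Pool.Agent.N733.TG (LM Expanding)
open Pool.Agent.N826.IT.Orb (AlmostAll almostAll_mono almostAll_and diagonal)
open Pool.Agent.N760.IT (orb orbit_windows)

/-- An increasing sequence of sets `S j`, each with `O_{j, ε} (X ^ (s + ε))` elements of height at most `X`: for almost all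
`m` and all `k ≤ K(m)` no element of `S (K m)` has a height within `f(φ_k m)^κ` of `G (f (φ_k m))`. -/
theorem orbit_windows_slow {T : Type*} (S : ℕ → Set T) (hmono : ∀ i j, i ≤ j → S i ⊆ S j) (h : T → ℝ) {f : ℕ → ℕ}
    (hf : LM f) {G : ℕ → ℝ} {d : ℝ} (hG : Expanding G d) {s κ : ℝ} (hs : 0 ≤ s) (hκ : 0 ≤ κ) (h1 : d * s + κ < 1)
    (hS : ∀ j, ∀ ε : ℝ, 0 < ε → ∃ C : ℝ, ∀ X : ℝ, 1 ≤ X →
      {t | t ∈ S j ∧ h t ≤ X}.Finite ∧ ({t | t ∈ S j ∧ h t ≤ X}.ncard : ℝ) ≤ C * X ^ (s + ε)) :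
    ∃ K : ℕ → ℕ, Tendsto K atTop atTop ∧
      AlmostAll (fun m => ∀ k ≤ K m, ∀ t ∈ S (K m), ¬ |h t - G (orb f k m)| ≤ (orb f k m : ℝ) ^ κ) := by
  refine diagonal (P := fun j m => ∀ k ≤ j, ∀ t ∈ S j, ¬ |h t - G (orb f k m)| ≤ (orb f k m : ℝ) ^ κ) ?_ (fun j => ?_)
  · intro i j m hij h2 k hk t ht
    exact h2 k (hk.trans hij) t (hmono i j hij ht)
  · obtain ⟨K, hK, hK2⟩ := orbit_windows (S j) h hf hG hs hκ h1 (hS j)
    refine almostAll_mono (almostAll_and hK2 (almostAll_ev (hK.eventually (eventually_ge_atTop j)))) ?_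
    intro m hm k hk t ht
    exact hm.1 k (hk.trans hm.2) t ht

/-- the height `max (|x| ^ (1/2), |y| ^ (1/3))` -/
noncomputable def ht23 (q : ℤ × ℤ) : ℝ := max (|(q.1 : ℝ)| ^ (1 / 2 : ℝ)) (|(q.2 : ℝ)| ^ (1 / 3 : ℝ))

/-- the height `max (|x| ^ 3, y ^ 2) ^ (1/6)` -/
noncomputable def ht6 (q : ℤ × ℤ) : ℝ := (max (|(q.1 : ℝ)| ^ 3) ((q.2 : ℝ) ^ 2)) ^ (1 / 6 : ℝ)

theorem le_of_rpow {x X : ℝ} (hx : 0 ≤ x) (n : ℕ) (hn : n ≠ 0) (h : x ^ (1 / (n : ℝ)) ≤ X) : x ≤ X ^ n := by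
  have h1 : x = (x ^ (1 / (n : ℝ))) ^ n := by
    rw [one_div, Real.rpow_inv_natCast_pow hx hn]
  rw [h1]
  exact pow_le_pow_left₀ (Real.rpow_nonneg hx _) h n

theorem ht23_le {q : ℤ × ℤ} {X : ℝ} (h : ht23 q ≤ X) : |q.1| ≤ ((⌈X⌉₊ : ℕ) : ℤ) ^ 2 ∧ |q.2| ≤ ((⌈X⌉₊ : ℕ) : ℤ) ^ 3 := by
  have hc := Nat.le_ceil X
  have h1 := (le_max_left _ _).trans h
  have h2 := (le_max_right _ _).trans h
  have g1 := le_of_rpow (abs_nonneg (q.1 : ℝ)) 2 (by norm_num) (by exact_mod_cast h1.trans hc)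
  have g2 := le_of_rpow (abs_nonneg (q.2 : ℝ)) 3 (by norm_num) (by exact_mod_cast h2.trans hc)
  exact ⟨by exact_mod_cast g1, by exact_mod_cast g2⟩

theorem ht6_le {q : ℤ × ℤ} {X : ℝ} (h : ht6 q ≤ X) :
    |q.1| ^ 3 ≤ ((⌈X⌉₊ : ℕ) : ℤ) ^ 6 ∧ q.2 ^ 2 ≤ ((⌈X⌉₊ : ℕ) : ℤ) ^ 6 := by
  have hc := Nat.le_ceil X
  have h0 : 0 ≤ max (|(q.1 : ℝ)| ^ 3) ((q.2 : ℝ) ^ 2) := le_max_of_le_right (sq_nonneg _)
  have g := le_of_rpow h0 6 (by norm_num) (by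
    have := h.trans hc
    unfold ht6 at this
    exact_mod_cast this)
  have g1 := (le_max_left _ _).trans g
  have g2 := (le_max_right _ _).trans g
  exact ⟨by exact_mod_cast g1, by exact_mod_cast g2⟩

/-- from the counts in boxes with an integral parameter to the counts by the height -/
theorem to_height {T : Type*} (S : Set T) (h : T → ℝ) (E : ℕ → Set T) (hE : ∀ (q : T) (X : ℝ), 1 ≤ X → q ∈ S → h q ≤ X → q ∈ E ⌈X⌉₊)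
    {s : ℝ} (hs : 0 ≤ s) (hs1 : s ≤ 2)
    (hcount : ∀ ε : ℝ, 0 < ε → ∃ C : ℝ, ∀ X : ℕ, 1 ≤ X → (E X).Finite ∧ ((E X).ncard : ℝ) ≤ C * (X : ℝ) ^ (s + ε))
    (ε : ℝ) (hε : 0 < ε) : ∃ C : ℝ, ∀ X : ℝ, 1 ≤ X →
      {t | t ∈ S ∧ h t ≤ X}.Finite ∧ ({t | t ∈ S ∧ h t ≤ X}.ncard : ℝ) ≤ C * X ^ (s + ε) := by
  obtain ⟨C, hC⟩ := hcount (min ε 1) (lt_min hε one_pos)
  refine ⟨|C| * 8, fun X hX => ?_⟩
  have h1 : 1 ≤ ⌈X⌉₊ := Nat.one_le_ceil_iff.2 (by linarith)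
  obtain ⟨h2, h3⟩ := hC ⌈X⌉₊ h1
  have hsub : {t | t ∈ S ∧ h t ≤ X} ⊆ E ⌈X⌉₊ := fun t ht => hE t X hX ht.1 ht.2
  refine ⟨h2.subset hsub, ?_⟩
  have h4 : ({t | t ∈ S ∧ h t ≤ X}.ncard : ℝ) ≤ (E ⌈X⌉₊).ncard := by exact_mod_cast Set.ncard_le_ncard hsub h2
  have h5 : ((⌈X⌉₊ : ℕ) : ℝ) ≤ 2 * X := by
    have := Nat.ceil_lt_add_one (show 0 ≤ X by linarith)
    linarith
  have hm : 0 ≤ min ε 1 := le_min hε.le zero_le_one
  have h6 : ((⌈X⌉₊ : ℕ) : ℝ) ^ (s + min ε 1) ≤ 8 * X ^ (s + ε) := by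
    calc ((⌈X⌉₊ : ℕ) : ℝ) ^ (s + min ε 1) ≤ (2 * X) ^ (s + min ε 1) :=
          Real.rpow_le_rpow (Nat.cast_nonneg _) h5 (by linarith)
      _ = 2 ^ (s + min ε 1) * X ^ (s + min ε 1) := Real.mul_rpow (by norm_num) (by linarith)
      _ ≤ 2 ^ (3 : ℝ) * X ^ (s + ε) := by
          apply mul_le_mul _ _ (by positivity) (by positivity)
          · exact Real.rpow_le_rpow_of_exponent_le (by norm_num) (by linarith [min_le_right ε 1])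
          · exact Real.rpow_le_rpow_of_exponent_le hX (by linarith [min_le_left ε 1])
      _ = 8 * X ^ (s + ε) := by norm_num
  calc _ ≤ ((E ⌈X⌉₊).ncard : ℝ) := h4
    _ ≤ C * ((⌈X⌉₊ : ℕ) : ℝ) ^ (s + min ε 1) := h3
    _ ≤ |C| * ((⌈X⌉₊ : ℕ) : ℝ) ^ (s + min ε 1) := mul_le_mul_of_nonneg_right (le_abs_self C) (by positivity)
    _ ≤ |C| * (8 * X ^ (s + ε)) := mul_le_mul_of_nonneg_left h6 (abs_nonneg C)
    _ = |C| * 8 * X ^ (s + ε) := by ring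

end Run7.h430.TW
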