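import Pool.Agent.Run7.h430.TW.RProd
import Pool.Agent.Run7.h430.TW.Kit2

set_option autoImplicit false

/-!
Classes of tuples of integers: divisors of the product near almost all orbits of Euler's function, and near almost all pairs
of orbits (helper430).
-/

namespace Run7.h430.TW.Tup

open Finset Filter Topology
open Pool.Agent.N733.TG (LM Expanding)
open Pool.Agent.N760.IT (orb)
open Pool.Agent.R559.NP (height DivBad count_div)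

variable {n : ℕ}

/-- one orbit -/
theorem one {Bad : (Fin n → ℤ) → Prop} (hne : ∀ x, Bad x → ∀ i, x i ≠ 0) {s A : ℝ} (hs : 0 ≤ s) (hA : 0 < A)
    (hcount : ∀ δ : ℝ, 0 < δ → ∃ C : ℝ, ∀ B : ℝ, 1 ≤ B → {x | Bad x ∧ height x ≤ B}.Finite ∧
      (({x | Bad x ∧ height x ≤ B}.ncard : ℕ) : ℝ) ≤ C * B ^ (s + δ))
    {f : ℕ → ℕ} (hf : LM f) {G : ℕ → ℝ} {d : ℝ} (hG : Expanding G d) {κ : ℝ} (hκ : 0 ≤ κ) (h1 : d * (A * s) + κ < 1) :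
    ∃ K : ℕ → ℕ, Tendsto K atTop atTop ∧
      Pool.Agent.N826.IT.Orb.AlmostAll (fun m => ∀ k ≤ K m, ∀ a : ℕ, 1 ≤ a → a ≤ K m → ∀ t : ℕ,
        |(t : ℝ) - a * G (orb f k m)| ≤ K m * (orb f k m : ℝ) ^ κ → t ∉ DivBad Bad A) := by
  classical
  obtain ⟨K, hK, h2⟩ := Run7.h430.TW.kit_nat (DivBad Bad A) hf hG (by positivity) hκ h1 (fun ε hε => by
    obtain ⟨C, hC⟩ := count_div hne hA hcount ε hε
    refine ⟨C, fun X hX => le_trans (le_of_eq ?_) (hC X hX)⟩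
    congr!)
  refine ⟨K, hK, Pool.Agent.N826.IT.Orb.almostAll_mono h2 (fun m hm k hk a ha1 ha t ht htB => ?_)⟩
  exact absurd ht (not_le.2 (hm k hk a ha1 ha t (Or.inr htB)))

/-- pairs of orbits -/
theorem pairs {Bad : (Fin n → ℤ) → Prop} (hne : ∀ x, Bad x → ∀ i, x i ≠ 0) {s A : ℝ} (hs : 0 ≤ s) (hA : 0 < A)
    (hAs : A * s < 1)
    (hcount : ∀ δ : ℝ, 0 < δ → ∃ C : ℝ, ∀ B : ℝ, 1 ≤ B → {x | Bad x ∧ height x ≤ B}.Finite ∧
      (({x | Bad x ∧ height x ≤ B}.ncard : ℕ) : ℝ) ≤ C * B ^ (s + δ))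
    (L : ℕ) {f g : ℕ → ℕ} (hf : LM f) (hg : LM g) {F G : ℕ → ℝ} {d d' : ℝ} (hF : Expanding F d)
    (hG : Expanding G d') {κ : ℝ} (hκ : 0 ≤ κ) (h1 : d * (1 - (1 - A * s) / (8 * ((L : ℝ) + 1) ^ 3)) + κ < 1)
    (h2 : d' * (1 - (1 - A * s) / (8 * ((L : ℝ) + 1) ^ 3)) + κ < 1) :
    ∃ K : ℕ → ℕ, Tendsto K atTop atTop ∧ Pairs.PairAA (fun m m' =>
      ∀ k ≤ K (min m m'), ∀ l ≤ K (min m m'), ∀ a b : ℕ,
      1 ≤ a → a ≤ K (min m m') → 1 ≤ b → b ≤ K (min m m') → ∀ t u : ℕ,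
      |(t : ℝ) - a * F (orb f k m)| ≤ K (min m m') * (orb f k m : ℝ) ^ κ →
        |(u : ℝ) - b * G (orb g l m')| ≤ K (min m m') * (orb g l m' : ℝ) ^ κ →
          1 ≤ t → 1 ≤ u → t ≤ u ^ L → u ≤ t ^ L → t * u ∉ DivBad Bad A) := by
  classical
  have hs' : 0 ≤ A * s := by positivity
  obtain ⟨X₀, hX₀, hbox⟩ := RPairs.prod_box (P := DivBad Bad A) hs' hAs (fun ε hε => by
    obtain ⟨C, hC⟩ := count_div hne hA hcount ε hε
    refine ⟨C, fun X hX => le_trans (le_of_eq ?_) (hC X hX)⟩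
    congr!) L
  have e : (1 - A * s) / 2 / (4 * ((L : ℝ) + 1) ^ 3) = (1 - A * s) / (8 * ((L : ℝ) + 1) ^ 3) := by
    rw [div_div]
    congr 1
    ring
  obtain ⟨K, hK, h3⟩ := RPairs.pairs_kit (RPairs.rel_prod (DivBad Bad A) L) (by linarith) (by linarith) hX₀ hbox hf hg
    hF hG hκ (by rw [e]; exact h1) (by rw [e]; exact h2)
  refine ⟨K, hK, fun δ hδ => ?_⟩
  obtain ⟨N₀, hN₀⟩ := h3 δ hδ
  refine ⟨N₀, fun N N' hN hN' => le_trans ?_ (hN₀ N N' hN hN')⟩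
  refine Nat.cast_le.2 (Pairs.card_mono2 (fun p _ hp hq => hp (fun k hk l hl a b ha1 ha hb1 hb t u ht hu ht1 hu1 htu hut
    hmem => ?_)))
  exact hq k hk l hl a b ha1 ha hb1 hb t u ht hu ⟨ht1, hu1, htu, hut, hmem⟩

end Run7.h430.TW.Tup
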